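import Pool.Agent.Work.MP_8c604c_gt.O.KS
import Pool.Agent.Work.MP_8c604c_gt.T.TD
import Pool.Agent.Work.MP_8c604c_gt.T.ZTh
import Pool.Agent.Work.MP_8c604c_gt.O.Defs

-- merged part: Pool.Agent.Work.MP_8c604c_gt.O.Log
section
/-!
The smooth logarithm on pairs at distance less than `π/2`.
-/

set_option maxSynthPendingDepth 3
set_option linter.unusedSectionVars false

open Set Filter Topology MeasureTheory
open scoped ContDiff

noncomputable section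
namespace Pool.Agent.Work.MP_8c604c_gt.O

open Model

variable {E : Type} [NormedAddCommGroup E] [InnerProductSpace ℝ E] [FiniteDimensional ℝ E] {d : ℕ}
  {μ : Model E d} {g : Met E}

theorem Log_inverse {V : Type} [NormedAddCommGroup V] [NormedSpace ℝ V] [FiniteDimensional ℝ V]
    {F : V × V → V} {q u : V} (hF : ContDiffAt ℝ ∞ F (q, u))
    (hd : (fderiv ℝ (fun v => F (q, v)) u).det ≠ 0) :
    ∃ U : V × V → V, ContDiffAt ℝ ∞ U (q, F (q, u)) ∧ U (q, F (q, u)) = u ∧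
      ∀ᶠ p in 𝓝 (q, F (q, u)), F (p.1, U p) = p.2 := by
  have := FiniteDimensional.complete ℝ V
  have h1 : HasFDerivAt F (fderiv ℝ F (q, u)) (q, u) :=
    (hF.differentiableAt (by simp)).hasFDerivAt
  have h2 : HasFDerivAt (fun v => F (q, v))
      ((fderiv ℝ F (q, u)).comp (ContinuousLinearMap.inr ℝ V V)) u :=
    h1.comp u (hasFDerivAt_prodMk_right q u)
  have h3 : HasFDerivAt (fun p : V × V => (p.1, F p))
      ((ContinuousLinearMap.fst ℝ V V).prod (fderiv ℝ F (q, u))) (q, u) :=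
    hasFDerivAt_fst.prodMk h1
  have h4 : Function.Injective
      ((ContinuousLinearMap.fst ℝ V V).prod (fderiv ℝ F (q, u))).toLinearMap := by
    rw [injective_iff_map_eq_zero]
    rintro ⟨a, b⟩ hab
    have h5 : a = 0 := congrArg Prod.fst hab
    have h6 : fderiv ℝ F (q, u) (a, b) = 0 := congrArg Prod.snd hab
    have h7 : (fderiv ℝ (fun v => F (q, v)) u).toContinuousLinearEquivOfDetNeZero hd b = 0 := by
      rw [ContinuousLinearMap.toContinuousLinearEquivOfDetNeZero_apply, h2.fderiv, ← h6, h5]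
      rfl
    rw [h5, (map_eq_zero_iff _ (ContinuousLinearEquiv.injective _)).1 h7]
    rfl
  let e : (V × V) ≃L[ℝ] V × V := (LinearEquiv.ofInjectiveEndo _ h4).toContinuousLinearEquiv
  have h5 : HasFDerivAt (fun p : V × V => (p.1, F p)) (e : V × V →L[ℝ] V × V) (q, u) := by
    convert h3 using 1
    exact ContinuousLinearMap.ext fun _ => rfl
  have h6 : ContDiffAt ℝ ∞ (fun p : V × V => (p.1, F p)) (q, u) := contDiffAt_fst.prodMk hF
  have hn : (∞ : WithTop ℕ∞) ≠ 0 := by simp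
  refine ⟨fun p => (h6.localInverse h5 hn p).2, (h6.to_localInverse h5 hn).snd,
    congrArg Prod.snd (h6.localInverse_apply_image h5 hn), ?_⟩
  filter_upwards [(h6.hasStrictFDerivAt' h5 hn).eventually_right_inverse] with p hp
  have h7 : (h6.localInverse h5 hn p).1 = p.1 := (Prod.ext_iff.1 hp).1
  rw [← h7]
  exact (Prod.ext_iff.1 hp).2

theorem Log_dd_le (h : IsMetric μ g) {c : ℝ → E} {q y : E} (hc : Joins μ c q y) {t : ℝ}
    (ht : t ∈ Icc (0 : ℝ) 1) : dd μ g q (c t) ≤ len g c := by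
  have h1 : Continuous (deriv c) := hc.smooth.continuous_deriv le_rfl
  have h2 : Continuous fun s => √(g (c s) (deriv c s) (deriv c s)) :=
    (((h.smooth.continuousOn.comp_continuous hc.smooth.continuous hc.mem).clm_apply h1).clm_apply
      h1).sqrt
  have h3 := h.dd_le_curve (c := c) (c' := deriv c) ht.1
    (fun s _ => (hc.smooth.differentiable (by simp) s).hasDerivAt) h1.continuousOn fun s _ => hc.mem s
  rw [dd_congr hc.start rfl] at h3
  refine h3.trans (intervalIntegral.integral_mono_interval le_rfl ht.1 ht.2 ?_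
    (h2.intervalIntegrable _ _))
  exact Eventually.of_forall fun s => Real.sqrt_nonneg _

theorem Log_closed (G : Geo μ g) (h : IsMetric μ g) {q : E} (hq : q ∈ μ.M) (r : ℝ) :
    IsClosed {y | ∃ u, √(g q u u) ≤ r ∧ G.ex q u = y} := by
  have h1 := ((h.isCompact_ball r).inter_right (isClosed_eq continuous_fst
    (continuous_const (y := q)))).image_of_continuousOn
    (G.contDiffOn_ex.continuousOn.mono fun x hx => hx.1.1.1.1)
  convert h1.isClosed using 1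
  ext y
  constructor
  · rintro ⟨u, hu, rfl⟩
    refine ⟨(q, μ.P q u), ⟨⟨⟨hq, P_idem hq u⟩, ?_⟩, rfl⟩, G.ex_P hq u⟩
    rwa [spd, h.P_left hq, h.P_right hq]
  · rintro ⟨⟨q', u⟩, ⟨⟨-, hu⟩, rfl⟩, rfl⟩
    exact ⟨u, hu, rfl⟩

namespace Bl
variable {G : Geo μ g} (B : Bl g G)
include B

theorem Log_local {q y u : E} (hq : q ∈ μ.U) (hy : y ∈ μ.U) {r : ℝ} (hu : √(g (μ.r q) u u) < r)
    (hr : r ≤ Real.pi / 2) (e : G.ex (μ.r q) u = μ.r y) :
    ∃ U : E × E → E, ContDiffAt ℝ ∞ U (q, y) ∧ ∀ᶠ p in 𝓝 (q, y), μ.P (μ.r p.1) (U p) = U p ∧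
      √(g (μ.r p.1) (U p) (U p)) < r ∧ G.ex (μ.r p.1) (U p) = μ.r p.2 := by
  have h := B.met
  have hq' := r_mem hq
  have hy' := r_mem hy
  obtain ⟨i, hi⟩ := μ.cover _ hq'.1 hq'.2
  obtain ⟨j, hj⟩ := μ.cover _ hy'.1 hy'.2
  have ha := μ.χρ i _ hi hq'.2
  have hb := Dχ_Dρ hq' hi u
  set a := μ.ρ i (μ.r q) with had
  set b := fderiv ℝ (μ.ρ i) (μ.r q) (μ.P (μ.r q) u)
  have e' : G.ex (μ.χ i a) (fderiv ℝ (μ.χ i) a b) = μ.r y := by rw [hb, ha, G.ex_P hq', e]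
  have hX : ContDiff ℝ ∞ fun p => G.ex (μ.κ i p).1 (μ.κ i p).2 :=
    G.contDiffOn_ex.comp_contDiff (contDiff_κ i) fun p => (χ_M i _).1
  have hg : g (μ.χ i a) (fderiv ℝ (μ.χ i) a b) (fderiv ℝ (μ.χ i) a b) = g (μ.r q) u u := by
    rw [hb, ha, h.P_left hq', h.P_right hq']
  obtain ⟨V, h1, h2, h3⟩ := Log_inverse (F := fun p => μ.ρ j (G.ex (μ.κ i p).1 (μ.κ i p).2))
    (q := a) (u := b) ((contDiffAt_ρ (e'.symm ▸ hj)).comp (a, b) hX.contDiffAt) (by
      have d1 := (hasFDerivAt_ρ (e'.symm ▸ hj)).comp b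
        ((G.hasFDerivAt_ex (χ_M i a).1 _).comp b (fderiv ℝ (μ.χ i) a).hasFDerivAt)
      rw [show (fun v => μ.ρ j (G.ex (μ.κ i (a, v)).1 (μ.κ i (a, v)).2)) =
        μ.ρ j ∘ G.ex (μ.χ i a) ∘ fderiv ℝ (μ.χ i) a from rfl, d1.fderiv]
      intro hdet
      apply LinearMap.det_eq_zero_iff_ker_ne_bot.1 hdet
      rw [LinearMap.ker_eq_bot']
      intro w hw
      have hw1 : fderiv ℝ (μ.ρ j) (G.ex (μ.χ i a) (fderiv ℝ (μ.χ i) a b)) (fderiv ℝ (G.ex (μ.χ i a))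
        (fderiv ℝ (μ.χ i) a b) (fderiv ℝ (μ.χ i) a w)) = 0 := hw
      have hw2 := Dχ_Dρ (G.ex_mem (χ_M i a).1 _) (e'.symm ▸ hj) (fderiv ℝ (G.ex (μ.χ i a))
        (fderiv ℝ (μ.χ i) a b) (fderiv ℝ (μ.χ i) a w))
      rw [G.fderiv_ex_tan (χ_M i a).1, hw1, map_zero] at hw2
      have hw3 := B.ex_immersion (χ_M i a) (by rw [hg]; exact hu.trans_le hr) hw2.symm
      rw [P_χ] at hw3
      exact Dχ_inj i a (hw3.trans (map_zero _).symm))
  have e0 : μ.ρ j (G.ex (μ.κ i (a, b)).1 (μ.κ i (a, b)).2) = μ.ρ j (μ.r y) := congrArg _ e'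
  rw [e0] at h1 h2 h3
  have hT : ContDiffAt ℝ ∞ (fun p : E × E => (μ.ρ i (μ.r p.1), μ.ρ j (μ.r p.2))) (q, y) :=
    ((contDiffAt_ρ hi).comp (q, y) ((contDiffAt_r hq).comp (q, y) contDiffAt_fst)).prodMk
      ((contDiffAt_ρ hj).comp (q, y) ((contDiffAt_r hy).comp (q, y) contDiffAt_snd))
  have hK : ContDiffAt ℝ ∞ (fun p : E × E => μ.κ i (μ.ρ i (μ.r p.1),
      V (μ.ρ i (μ.r p.1), μ.ρ j (μ.r p.2)))) (q, y) :=
    (contDiff_κ i).contDiffAt.comp (q, y) (hT.fst.prodMk (h1.comp (q, y) hT))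
  have k0 : μ.κ i (μ.ρ i (μ.r q), V (μ.ρ i (μ.r q), μ.ρ j (μ.r y))) = μ.κ i (a, b) := by rw [h2]
  have hc := hK.continuousAt.tendsto
  rw [k0] at hc
  have k1 := hc.eventually (((h.distA_cont (S := μ.UU) continuousOn_fst continuousOn_snd
    fun _ hx => hx).continuousAt (μ.isOpen_UU.mem_nhds (κ_TM i (a, b)).1.1)).sqrt.eventually_lt
      (continuousAt_const (y := r)) (hg.symm ▸ hu :))
  have k2 := hc.eventually ((G.contDiffOn_ex.contDiffAt
    (μ.isOpen_UU.mem_nhds (κ_TM i (a, b)).1.1)).continuousAt.eventually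
      ((μ.W_open j).mem_nhds (e'.symm ▸ hj :)))
  refine ⟨fun p => (μ.κ i (μ.ρ i (μ.r p.1), V (μ.ρ i (μ.r p.1), μ.ρ j (μ.r p.2)))).2, hK.snd, ?_⟩
  filter_upwards [hT.continuousAt.eventually h3, k1, k2,
    continuousAt_fst.eventually (χρ_r (z := (q, y).1) hq hi),
    continuousAt_snd.eventually (χρ_r (z := (q, y).2) hy hj)] with p p1 p2 p3 p4 p5
  have p6 : (μ.κ i (μ.ρ i (μ.r p.1), V (μ.ρ i (μ.r p.1), μ.ρ j (μ.r p.2)))).1 = μ.r p.1 := p4.2.2
  have p7 := (κ_TM i (μ.ρ i (μ.r p.1), V (μ.ρ i (μ.r p.1), μ.ρ j (μ.r p.2)))).2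
  have p8 := μ.χρ j _ p3 (G.ex_mem (κ_TM i _).1.1 _).2
  rw [p1, p5.2.2] at p8
  rw [p6] at p2 p7 p8
  exact ⟨p7, p2, p8.symm⟩

theorem Log_mem {q u : E} (hq : q ∈ μ.U) (hu : √(g q u u) < Real.pi / 2) : (q, G.ex q u) ∈ DD μ g :=
  ⟨hq, (G.ex_mem hq u).1, (B.dd_ex hq hu.le).trans_lt hu⟩

theorem exists_ex {q y : E} (h : (q, y) ∈ DD μ g) : ∃ u, μ.P (μ.r q) u = u ∧
    √(g (μ.r q) u u) < Real.pi / 2 ∧ G.ex (μ.r q) u = μ.r y := by
  obtain ⟨hq, hy, hd⟩ := h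
  have hq' := r_mem hq
  obtain ⟨c, hc, hl⟩ := B.met.exists_len_lt hq hy hd
  obtain ⟨r, hr, hr'⟩ := exists_between hl
  have hcc := hc.smooth.continuous
  have key := (((Log_closed G B.met hq' r).preimage
    (μ.smooth.continuousOn.comp_continuous hcc hc.mem)).inter isClosed_Icc
    ).Icc_subset_of_forall_mem_nhdsWithin (a := 0) (b := 1) ?_ ?_
  · obtain ⟨u, hu, e⟩ := key (right_mem_Icc.2 zero_le_one)
    refine ⟨μ.P (μ.r q) u, P_idem hq' u, ?_, ?_⟩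
    · rw [B.met.P_left hq', B.met.P_right hq']
      exact hu.trans_lt hr'
    · rw [G.ex_P hq', e, Function.comp_apply, hc.stop]
  · refine ⟨0, ?_, ?_⟩
    · rw [map_zero, Real.sqrt_zero]
      exact ((dd_nonneg _ _).trans (dd_le_len hc)).trans hr.le
    · rw [G.ex_zero hq'.1, hq'.2, Function.comp_apply, hc.start]
  · rintro t ⟨⟨u, hu, e⟩, ht⟩
    have h1 : √(g (μ.r q) u u) < r := by
      rw [← B.dd_ex hq'.1 (hu.trans hr'.le), e, dd_r_left hq, Function.comp_apply,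
        dd_r_right _ (hc.mem t)]
      exact (Log_dd_le B.met hc (Ico_subset_Icc_self ht)).trans_lt hr
    obtain ⟨U, -, h4⟩ := B.Log_local hq (hc.mem t) h1 hr'.le e
    have h5 : Tendsto (fun s => ((q, c s) : E × E)) (𝓝 t) (𝓝 (q, c t)) :=
      tendsto_const_nhds.prodMk_nhds hcc.continuousAt
    refine mem_nhdsWithin_of_mem_nhds ?_
    filter_upwards [h5.eventually h4] with s hs
    exact ⟨_, hs.2.1.le, hs.2.2⟩

theorem exists_lgm : Nonempty (Lgm g G) := by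
  classical
  have h := B.met
  choose! u ht hu e using fun (q y : E) (hp : (q, y) ∈ DD μ g) => B.exists_ex hp
  have huniq : ∀ q y v, (q, y) ∈ DD μ g → μ.P (μ.r q) v = v → √(g (μ.r q) v v) < Real.pi / 2 →
      G.ex (μ.r q) v = μ.r y → u q y = v := fun q y v hp h1 h2 h3 => by
    have := B.ex_inj (μ.maps _ hp.1) (hu q y hp) h2 ((e q y hp).trans h3.symm)
    rwa [ht q y hp, h1] at this
  refine ⟨⟨u, ?_, ht, fun q y hp => ?_, e, fun q v hq hv => ?_, fun q y hp => ?_⟩⟩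
  · rintro ⟨q, y⟩ hp
    obtain ⟨U, h1, h2⟩ := B.Log_local hp.1 hp.2.1 (hu q y hp) le_rfl (e q y hp)
    refine (h1.congr_of_eventuallyEq ?_).contDiffWithinAt
    filter_upwards [h2, h.isOpen_DD.mem_nhds hp] with p h3 h4
    exact huniq _ _ _ h4 h3.1 h3.2.1 h3.2.2
  · rw [← B.dd_ex (μ.maps _ hp.1) (hu q y hp).le, e q y hp]
    exact dd_congr (μ.idem _ hp.1) (μ.idem _ hp.2.1)
  · exact huniq _ _ _ (B.Log_mem hq hv) (P_P hq v) (by rwa [h.inv _ _ _ hq])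
      ((G.ex_R hq v).trans (G.ex_mem hq v).2.symm)
  · have h1 := μ.idem q hp.1
    refine huniq _ _ _ ⟨μ.maps _ hp.1, μ.maps _ hp.2.1, ?_⟩ ?_ ?_ ?_
    · exact (dd_congr h1 (μ.idem _ hp.2.1)).trans_lt hp.2.2
    · rw [h1, ht q y hp]
    · rw [h1]; exact hu q y hp
    · rw [h1, e q y hp, μ.idem y hp.2.1]

end Bl

theorem Lgm.self {G : Geo μ g} (L : Lgm g G) {q : E} (hq : q ∈ μ.U) :
    (q, q) ∈ DD μ g ∧ L.lg q q = 0 := by
  have h0 : (q, q) ∈ DD μ g := ⟨hq, hq, by rw [dd_self hq]; positivity⟩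
  have h2 := L.uniq (μ.r q) 0 (μ.maps q hq) (by rw [map_zero, Real.sqrt_zero]; positivity)
  rw [G.ex_zero (μ.maps q hq), μ.idem q hq, L.inv q q h0, map_zero] at h2
  exact ⟨h0, h2⟩

end Pool.Agent.Work.MP_8c604c_gt.O
end
end

-- merged part: Pool.Agent.Work.MP_8c604c_gt.O.HR
section
/-!
Any two points are joined by a geodesic of length at most `π/2` (Hopf-Rinow).
-/

set_option maxSynthPendingDepth 3
set_option linter.unusedSectionVars false

open Set Filter Topology MeasureTheory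
open scoped ContDiff

noncomputable section
namespace Pool.Agent.Work.MP_8c604c_gt.O

open Real

open Model

variable {E : Type} [NormedAddCommGroup E] [InnerProductSpace ℝ E] [FiniteDimensional ℝ E] {d : ℕ}
  {μ : Model E d} {g : Met E}

variable {G : Geo μ g}

theorem HR_split (h : IsMetric μ g) {c : ℝ → E} {z y : E} (hc : Joins μ c z y) {t : ℝ}
    (ht : t ∈ Icc (0 : ℝ) 1) : dd μ g z (c t) + dd μ g (c t) y ≤ len g c := by
  have h1 : Continuous (deriv c) := hc.smooth.continuous_deriv le_rfl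
  have h2 : Continuous fun s => √(g (c s) (deriv c s) (deriv c s)) :=
    (((h.smooth.continuousOn.comp_continuous hc.smooth.continuous hc.mem).clm_apply h1).clm_apply
      h1).sqrt
  have h3 := fun a b (hab : a ≤ b) => h.dd_le_curve (c := c) (c' := deriv c) hab
    (fun s _ => (hc.smooth.differentiable (by simp) s).hasDerivAt) h1.continuousOn
    fun s _ => hc.mem s
  have h4 := h3 0 t ht.1
  have h5 := h3 t 1 ht.2
  rw [dd_congr hc.start rfl] at h4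
  rw [dd_congr rfl hc.stop] at h5
  rw [len, ← intervalIntegral.integral_add_adjacent_intervals (h2.intervalIntegrable 0 t)
    (h2.intervalIntegrable t 1)]
  exact add_le_add h4 h5

theorem HR_near (B : Bl g G) {z y : E} (hz : z ∈ μ.M) (hy : y ∈ μ.U) {r : ℝ} (h0 : 0 < r)
    (h1 : r < π / 2) (h2 : r ≤ dd μ g z y) :
    ∃ x ∈ μ.TT, x.1 = z ∧ dd μ g (G.Z r x) y ≤ dd μ g z y - r := by
  have h := B.met
  have c2 : ContinuousOn (fun x : E × E => dd μ g (G.ex x.1 x.2) y) μ.UU :=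
    h.continuousOn_dd.comp (f := fun x : E × E => (G.ex x.1 x.2, y))
      (G.contDiffOn_ex.continuousOn.prodMk continuousOn_const) fun u hu => ⟨(G.ex_mem hu _).1, hy⟩
  obtain ⟨⟨z', u⟩, ⟨⟨hT, hu⟩, hz'⟩, hm⟩ := ((h.isCompact_ball r).inter_right (isClosed_eq continuous_fst
    (continuous_const (y := z)))).exists_isMinOn
    ⟨(z, 0), ⟨⟨hz, map_zero _⟩, by rw [spd, map_zero, Real.sqrt_zero]; exact h0.le⟩, rfl⟩
    (c2.mono fun x hx => hx.1.1.1.1)
  obtain rfl : z = z' := hz'.symm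
  have key : dd μ g (G.ex z u) y ≤ dd μ g z y - r := by
    refine le_of_forall_pos_le_add fun η hη => ?_
    obtain ⟨c, hc, hl⟩ := h.exists_len_lt hz.1 hy (lt_add_of_pos_right (dd μ g z y) hη)
    have c3 : Continuous fun t => dd μ g z (c t) :=
      h.continuousOn_dd.comp_continuous (f := fun t : ℝ => ((z, c t) : E × E))
        (continuous_const.prodMk hc.smooth.continuous) fun t => ⟨hz.1, hc.mem t⟩
    obtain ⟨t, ht, e⟩ := intermediate_value_Icc zero_le_one c3.continuousOn (show r ∈ _ from ⟨by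
      rw [dd_congr rfl hc.start, dd_self hz.1]; exact h0.le, by rwa [dd_congr rfl hc.stop]⟩)
    have e : dd μ g z (c t) = r := e
    obtain ⟨v, hb, hv, e2⟩ := B.exists_ex (q := z) (y := c t) ⟨hz.1, hc.mem t, e.trans_lt h1⟩
    rw [hz.2] at hb hv e2
    have h3 : √(g z v v) = r := by rw [← B.dd_ex hz.1 hv.le, e2, dd_r_right _ (hc.mem t), e]
    have h4 : dd μ g (G.ex z u) y ≤ dd μ g (G.ex z v) y :=
      hm (show (z, v) ∈ _ from ⟨⟨⟨hz, hb⟩, h3.le⟩, rfl⟩)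
    have h5 := HR_split h hc ht
    rw [e2, dd_r_left (hc.mem t)] at h4
    linarith
  have h3 := h.dd_triangle hz.1 (G.ex_mem hz.1 u).1 hy
  rw [B.dd_ex hz.1 (hu.trans h1.le)] at h3
  have h4 : spd g (z, u) = r := le_antisymm hu (by unfold spd; linarith)
  have h5 : (z, u) ∈ μ.TT := ⟨hz, hT.2, fun hc => by
    have hc : u = 0 := hc
    rw [spd, hc, map_zero, Real.sqrt_zero] at h4
    exact h0.ne h4⟩
  refine ⟨_, h5, rfl, ?_⟩
  rw [← h4, ← G.ex_eq_Z h (TT_OO h5), h4]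
  exact key

theorem HR_step (B : Bl g G) {x : E × E} (hx : x ∈ μ.TT) {y : E} (hy : y ∈ μ.U) {t s : ℝ}
    (ht : 0 < t) (h0 : 0 < s) (h1 : s < π / 2) (h2 : s ≤ dd μ g x.1 y - t)
    (h3 : dd μ g (G.Z t x) y ≤ dd μ g x.1 y - t) :
    dd μ g (G.Z (s + t) x) y ≤ dd μ g x.1 y - (s + t) := by
  have h := B.met
  have ho := TT_OO hx
  have hq := G.Z_mem t ho
  have h4 := h.dd_triangle hx.1.1 hq.1 hy
  have h5 := h.dd_Z_le G ho 0 t
  rw [G.Z_zero' hx, sub_zero, abs_of_pos ht] at h5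
  obtain ⟨x', hx', e, h6⟩ := HR_near B hq hy h0 h1 (by linarith)
  have h7 := h.dd_triangle hx.1.1 (G.Z_U s (TT_OO hx')) hy
  have hp := G.psi_TT h t ho
  have hv : vel g x' = vel g (G.psi t x) := by
    by_contra hv
    have h8 := h.corner G hp hx' e hv ht h0
    rw [G.Z_add _ _ ho, neg_add_cancel, G.Z_zero' hx] at h8
    linarith
  have h8 : G.Z s x' = G.Z (s + t) x := by
    rw [← G.Z_vel h s (TT_OO hx'), hv, e, ← G.Z_add _ _ ho, ← G.Z_vel h s (TT_OO hp)]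
    rfl
  rw [← h8]
  linarith

theorem Bl.exists_Z (B : Bl g G) {z y : E} (hz : z ∈ μ.M) (hy : y ∈ μ.M) (hne : y ≠ z) :
    ∃ w, (z, w) ∈ μ.TT ∧ ∃ t ∈ Ioc 0 (π / 2), G.Z t (z, w) = y := by
  have h := B.met
  have hπ := pi_pos
  rcases lt_or_ge (dd μ g z y) (π / 2) with hD | hD
  · obtain ⟨u, hc, hu, e⟩ := B.exists_ex (q := z) (y := y) ⟨hz.1, hy.1, hD⟩
    rw [hz.2] at hc hu e
    rw [hy.2] at e
    have h1 : (z, u) ∈ μ.TT := ⟨hz, hc, fun k => hne (by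
      have k : u = 0 := k
      rw [← e, k, G.ex_zero hz.1, hz.2])⟩
    exact ⟨u, h1, spd g (z, u), ⟨h.spd_pos (TT_OO h1), hu.le⟩, by rw [← e, ← G.ex_eq_Z h (TT_OO h1)]⟩
  obtain ⟨x, hx, rfl, h1⟩ := HR_near B hz hy.1 (r := π / 4) (by linarith) (by linarith) (by linarith)
  have h2 := HR_step B hx hy.1 (s := π / 4) (by linarith) (by linarith) (by linarith) (by linarith) h1
  rw [show π / 4 + π / 4 = π / 2 by ring] at h2
  have ho := TT_OO hx
  have hq := G.Z_mem (π / 2) ho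
  have h3 : dd μ g x.1 y ≤ π / 2 := by
    by_contra h3
    obtain ⟨s, s0, s1, s2⟩ : ∃ s, 0 < s ∧ s < π / 2 ∧ s ≤ dd μ g x.1 y - π / 2 :=
      ⟨Min.min (π / 4) (dd μ g x.1 y - π / 2), lt_min (by linarith) (sub_pos.2 (not_le.1 h3)),
        (min_le_left _ _).trans_lt (by linarith), min_le_right _ _⟩
    have h4 := HR_step B hx hy.1 (by linarith) s0 s1 s2 h2
    have h5 := h.dd_triangle hx.1.1 (G.Z_U (s + π / 2) ho) hy.1
    have h6 := h.dd_Z_le G ho (0 + π) (s + π / 2)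
    rw [B.per x ho 0, G.Z_zero' hx, abs_of_neg (by linarith)] at h6
    linarith
  obtain ⟨u, hc, hu, e⟩ := B.exists_ex (q := G.Z (π / 2) x) (y := y)
    ⟨hq.1, hy.1, by show dd μ g (G.Z (π / 2) x) y < _; linarith⟩
  rw [hq.2] at hc hu e
  rw [hy.2] at e
  have h4 := B.dd_ex hq.1 hu.le
  rw [e] at h4
  have h5 : g (G.Z (π / 2) x) u u = 0 :=
    le_antisymm (Real.sqrt_eq_zero'.1 (le_antisymm (by linarith) (Real.sqrt_nonneg _)))
      (h.nonneg hq.1 u)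
  refine ⟨x.2, hx, π / 2, ⟨by linarith, le_rfl⟩, ?_⟩
  rw [← e, h.eq_zero_of_tan hq.1 hc h5, G.ex_zero hq.1, hq.2]

end Pool.Agent.Work.MP_8c604c_gt.O
end
end

-- merged part: Pool.Agent.Work.MP_8c604c_gt.O.Link
section
/-!
The geodesics through a pair of cut points start in a linear subspace.
-/

set_option maxSynthPendingDepth 3
set_option linter.unusedSectionVars false

open Set Filter Topology MeasureTheory
open scoped ContDiff

noncomputable section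
namespace Pool.Agent.Work.MP_8c604c_gt.O

open Model Real

variable {E : Type} [NormedAddCommGroup E] [InnerProductSpace ℝ E] [FiniteDimensional ℝ E] {d : ℕ}
  {μ : Model E d} {g : Met E} {G : Geo μ g}

theorem Link_const {W : Type} [NormedAddCommGroup W] [NormedSpace ℝ W] {F : ℝ → W}
    (h : ∀ᶠ s in 𝓝 (0 : ℝ), HasDerivAt F 0 s) : ∀ᶠ s in 𝓝 (0 : ℝ), F s = F 0 := by
  obtain ⟨ε, hε, hb⟩ := Metric.eventually_nhds_iff_ball.1 h
  filter_upwards [Metric.ball_mem_nhds (0 : ℝ) hε] with s hs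
  exact Metric.isOpen_ball.is_const_of_deriv_eq_zero (convex_ball _ _).isPreconnected
    (fun y hy => (hb y hy).differentiableAt.differentiableWithinAt)
    (fun y hy => (hb y hy).deriv) hs (Metric.mem_ball_self hε)

theorem Link_rk {V U : Type} [AddCommGroup V] [Module ℝ V] [FiniteDimensional ℝ V]
    [AddCommGroup U] [Module ℝ U] (W : Submodule ℝ V) (f : V →ₗ[ℝ] U)
    (hf : ∀ y, ∃ w ∈ W, f w = y) : Module.finrank ℝ W =
      Module.finrank ℝ (W ⊓ LinearMap.ker f : Submodule ℝ V) + Module.finrank ℝ U := by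
  rw [← (f.domRestrict W).finrank_range_add_finrank_ker, LinearMap.range_eq_top.2 fun y =>
    (hf y).elim fun w hw => ⟨⟨w, hw.1⟩, hw.2⟩, finrank_top, LinearMap.ker_domRestrict,
    ← Submodule.map_comap_subtype, Submodule.finrank_map_subtype_eq, add_comm]

theorem Link_hasDerivAt_Z (G : Geo μ g) (h : IsMetric μ g) (t : ℝ) {z : E} {w : ℝ → E} {w' : E}
    {s : ℝ} (hw : HasDerivAt w w' s) (hx : (z, w s) ∈ μ.OO) :
    HasDerivAt (fun r => G.Z t (z, w r)) (G.JJ t (z, w s) (0, w')) s :=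
  HasFDerivAt.comp_hasDerivAt (l := G.Z t) (f := fun r => (z, w r)) s
    (G.jac_dZ h t hx).hasFDerivAt ((hasDerivAt_const s z).prodMk hw)

theorem Link_gv (x : E × E) (u : E) : g x.1 (vel g x) u = (spd g x)⁻¹ * g x.1 x.2 u := by
  rw [vel, map_smul, smul_apply, smul_eq_mul]

theorem Link_add (L : E × E →L[ℝ] E) (u v : E) : L (0, u + v) = L (0, u) + L (0, v) := by
  rw [← map_add, Prod.mk_add_mk, add_zero]

theorem Link_smul (L : E × E →L[ℝ] E) (a : ℝ) (u : E) : L (0, a • u) = a • L (0, u) := by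
  rw [← map_smul, Prod.smul_mk, smul_zero]

theorem Link_TT {z w : E} (hz : z ∈ μ.M) (hw : (z, w) ∈ μ.OO) :
    (z, μ.P z w) ∈ μ.TT ∧ μ.R (z, w) = (z, μ.P z w) :=
  ⟨⟨hz, P_idem hz w, hw.2⟩, Prod.ext hz.2 rfl⟩

theorem Geo.mem_WS {x : E × E} {u : E} :
    u ∈ G.WS x ↔ μ.P x.1 u = u ∧ G.JJ (π / 2) x (0, u) = 0 :=
  and_congr_left' Q_eq_zero

theorem Geo.vel_KS {x : E × E} {u : E} (hu : u ∈ G.KS x) : g x.1 (vel g x) u = 0 := by
  rw [Link_gv, (G.mem_KS'.1 hu).2.1, mul_zero]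

theorem Geo.mem_WS_iff (h : IsMetric μ g) {x : E × E} (hx : x ∈ μ.TT) {u : E} :
    u ∈ G.WS x ↔ ∃ t : ℝ, ∃ κ ∈ G.KS x, u = t • vel g x + κ := by
  have hv := G.JJ_Bs h (π / 2) (TT_OO hx) (vel_mem_Bs g x)
  constructor
  · intro hu
    obtain ⟨h1, h2⟩ := Geo.mem_WS.1 hu
    exact ⟨g x.1 (vel g x) u, _, (G.nrm_mem_KS h hx).2 h2, by rw [nrm_apply, h1, add_sub_cancel]⟩
  · rintro ⟨t, κ, hκ, rfl⟩
    obtain ⟨h1, -, h2⟩ := G.mem_KS'.1 hκ
    refine Geo.mem_WS.2 ⟨?_, ?_⟩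
    · rw [map_add, map_smul, h1, P_vel hx]
    · rw [Link_add, Link_smul, h2, hv, smul_zero, add_zero]

theorem Geo.finrank_WS (h : IsMetric μ g) {x : E × E} (hx : x ∈ μ.TT) :
    Module.finrank ℝ (G.WS x) = G.kk x + 1 := by
  have e : G.WS x ⊓ LinearMap.ker (g x.1 x.2 : E →ₗ[ℝ] ℝ) = G.KS x := inf_right_comm _ _ _
  rw [Link_rk (G.WS x) (g x.1 x.2 : E →ₗ[ℝ] ℝ) fun y => ⟨(y * (spd g x)⁻¹) • vel g x,
    (Geo.mem_WS_iff h hx).2 ⟨_, 0, zero_mem _, (add_zero _).symm⟩, ?_⟩, e, Module.finrank_self,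
    Geo.kk]
  rw [map_smul, smul_eq_mul, mul_assoc]
  exact (congrArg _ ((Link_gv _ _).symm.trans (h.vel_unit (TT_OO hx)))).trans (mul_one y)

theorem Geo.KS_vel (h : IsMetric μ g) {x : E × E} (hx : x ∈ μ.TT) :
    G.KS (x.1, vel g x) = G.KS x :=
  G.KS_sc h hx (inv_pos.2 (h.spd_pos (TT_OO hx)))

theorem Geo.JM_P (h : IsMetric μ g) {z w : E} (hz : z ∈ μ.M) (hw : (z, w) ∈ μ.OO) :
    G.JM (z, μ.P z w) = G.JM (z, w) := by
  ext1 u
  have := G.JJ_R h (π / 2) hw (0, u)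
  rw [DR_fibre hz.1, (Link_TT hz hw).2] at this
  exact (G.JJ_P h _ (Link_TT hz hw).1 u).symm.trans this

/-- The velocity plus a conjugate direction is a nonzero tangent vector. -/
theorem Geo.add_KS_mem (h : IsMetric μ g) {x : E × E} (hx : x ∈ μ.TT) {κ : E} (hκ : κ ∈ G.KS x) :
    (x.1, vel g x + κ) ∈ μ.TT := by
  refine ⟨hx.1, (Geo.mem_WS.1 ((Geo.mem_WS_iff h hx).2 ⟨1, κ, hκ, by rw [one_smul]⟩)).1, fun e => ?_⟩
  have := congrArg (g x.1 (vel g x)) (show vel g x + κ = 0 from e)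
  rw [map_add, h.vel_unit (TT_OO hx), Geo.vel_KS hκ] at this
  norm_num at this

namespace Bl
variable (B : Bl g G)
include B

theorem link_ker {x : E × E} (hx : x ∈ μ.TT) {w : E} (hw : (x.1, w) ∈ μ.OO)
    (e : G.Z (π / 2) (x.1, w) = G.Z (π / 2) x) : G.JJ (π / 2) x (0, w) = 0 := by
  have h := B.met
  have ho := TT_OO hx
  have hx' : G.psi (π / 2) x ∈ μ.OO := G.psi_mem h _ ho
  have hy := G.Z_U (π / 2) ho
  have hback : G.psi (-(π / 2)) (G.psi (π / 2) x) = x := by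
    rw [← G.psi_add _ _ ho, neg_add_cancel, G.psi_zero' hx]
  have key : ∀ u, g (G.Z (π / 2) x) u (G.JJ (π / 2) x (0, w)) = 0 := by
    intro u
    have hd := jac_line (G.psi (π / 2) x).2 u
    have e0 : (G.Z (π / 2) x, (G.psi (π / 2) x).2 + (0 : ℝ) • u) = G.psi (π / 2) x := by
      rw [zero_smul, add_zero]
      rfl
    have hq := Link_hasDerivAt_Z G h (-(π / 2)) (z := G.Z (π / 2) x) hd (by rw [e0]; exact hx')
    rw [e0] at hq
    have hmem : ∀ᶠ τ in 𝓝 (0 : ℝ), (G.Z (π / 2) x, (G.psi (π / 2) x).2 + τ • u) ∈ μ.OO := by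
      have hcont : ContinuousAt
          (fun τ : ℝ => ((G.Z (π / 2) x, (G.psi (π / 2) x).2 + τ • u) : E × E)) 0 := by fun_prop
      exact hcont.eventually (isOpen_OO.mem_nhds (by beta_reduce; rw [e0]; exact hx'))
    have hw' := Link_TT hx.1 hw
    have hor : g x.1 (G.JJ (-(π / 2)) (G.psi (π / 2) x) (0, u)) w = 0 := by
      rw [← h.P_right hx.1]
      refine B.orth (x := (x.1, μ.P x.1 w)) hw'.1 hq ?_ ?_
      · change G.Z (-(π / 2)) _ = x.1
        rw [e0, Geo.Z, hback]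
      · filter_upwards [hmem] with τ hτ
        have h1 := B.dd_Z_zero hτ (t := -(π / 2)) (by rw [abs_neg, abs_of_pos (by positivity)])
        rw [← hw'.2, G.Z_R h _ hw, e, dd_symm, h1, abs_neg, abs_of_pos (by positivity)]
    have a1 := G.al_psi h (-(π / 2)) hx' (0, u)
    have a2 := G.om_psi h (-(π / 2)) hx' (fderiv ℝ (G.psi (π / 2)) x (0, w)) (0, u)
    rw [hback] at a1 a2
    rw [G.fderiv_psi_neg h _ ho, DR_fibre hx.1.1, h.om_fibre ho, om_skew, h.om_fibre hx',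
      G.fst_fderiv_psi h _ ho, G.fst_fderiv_psi h _ hx', h.P_left hx.1] at a2
    have a3 : g x.1 (vel g x) (G.JJ (-(π / 2)) (G.psi (π / 2) x) (0, u)) = 0 := by
      rw [← G.fst_fderiv_psi h _ hx']
      simpa [al] using a1
    have a4 : g (G.Z (π / 2) x) (vel g (G.psi (π / 2) x)) (G.JJ (π / 2) x (0, w)) = 0 := by
      rw [G.al_inv h _ ho]
      simp [al]
    rw [h.symm _ _ _ hx.1.1] at hor
    have a5 : (G.psi (π / 2) x).1 = G.Z (π / 2) x := rfl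
    rw [a5, a3, a4, hor] at a2
    have hs := (h.spd_pos hx').ne'
    simpa [hs] using a2
  exact h.eq_zero_of_tan hy (G.JJ_tan h _ ho _) (key _)

theorem link_iff {x : E × E} (hx : x ∈ μ.TT) {w : E} (hw : (x.1, w) ∈ μ.OO) :
    G.Z (π / 2) (x.1, w) = G.Z (π / 2) x ↔ G.JJ (π / 2) x (0, w) = 0 := by
  refine ⟨B.link_ker hx hw, fun hL => ?_⟩
  have h := B.met
  have ho := TT_OO hx
  have hZ : ContinuousOn (fun w => G.Z (π / 2) (x.1, w)) {w | (x.1, w) ∈ μ.OO} :=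
    (G.contDiffOn_Z h).continuousOn.comp (f := fun w : E => (π / 2, (x.1, w))) (by fun_prop)
      fun w hw => hw
  have hO : IsOpen {w | (x.1, w) ∈ μ.OO} := isOpen_OO.preimage (by fun_prop)
  have F : MP_8c604c_gt.B.Leaf {w | (x.1, w) ∈ μ.OO} (fun w => G.JM (x.1, w))
      (fun w w' => G.Z (π / 2) (x.1, w') = G.Z (π / 2) (x.1, w)) (G.kdim x) := by
    refine ⟨hO, ((G.contDiffOn_JJ h).comp (f := fun w : E => (π / 2, (x.1, w))) (by fun_prop)
      fun w hw => hw).clm_comp contDiffOn_const, fun w hw => ?_, fun _ _ _ _ e => e.symm,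
      fun _ _ _ _ _ _ e e' => e'.trans e, fun w _ => rfl, fun w hw => ?_,
      fun w hw w' hw' e => ?_, fun w hw w' hw' hc => ?_⟩
    · rw [← Geo.JM_P h hx.1 hw]
      exact B.kdim_const (Link_TT hx.1 hw).1 hx
    · refine Link_const (F := fun s => G.Z (π / 2) (x.1, w s)) ?_
      filter_upwards [hw] with s ⟨h1, v, h2, h3⟩
      exact (Link_hasDerivAt_Z G h (π / 2) h2 h1).congr_deriv h3
    · rw [← Geo.JM_P h hx.1 hw]
      refine B.link_ker (Link_TT hx.1 hw).1 hw' (e.trans ?_)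
      rw [← (Link_TT hx.1 hw).2, G.Z_R h _ hw]
    · have := (hZ.continuousAt (hO.mem_nhds hw')).continuousWithinAt.mem_closure
        (t := {G.Z (π / 2) (x.1, w)}) hc fun y hy => hy.2
      rwa [closure_singleton] at this
  by_cases hs : ∀ s ∈ Icc (0 : ℝ) 1, (x.1, x.2 + s • (w + (-1 : ℝ) • x.2)) ∈ μ.OO
  · have := F.seg (x := x.2) (κ := w + (-1 : ℝ) • x.2) (by
      change G.JJ (π / 2) x (0, w + (-1 : ℝ) • x.2) = 0
      rw [Link_add, Link_smul, hL, G.JJ_Bs h _ ho (snd_mem_Bs x), smul_zero, add_zero]) hs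
    rwa [show x.2 + (w + (-1 : ℝ) • x.2) = w by module] at this
  push Not at hs
  obtain ⟨s, ⟨s0, s1⟩, hs⟩ := hs
  have e : x.2 + s • (μ.P x.1 w + (-1 : ℝ) • x.2) = 0 := by
    by_contra k
    exact hs ⟨hx.1.1, by rwa [map_add, map_smul, map_add, map_smul, hx.2.1]⟩
  replace s0 : 0 < s := s0.lt_of_ne fun k => hx.2.2 (by simpa [← k] using e)
  replace s1 : s < 1 := s1.lt_of_ne fun k => hw.2 (by simpa [k] using e)
  have hn : (x.1, -x.2) ∈ μ.OO := ⟨hx.1.1, by rw [map_neg]; exact neg_ne_zero.2 ho.2⟩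
  have e1 : μ.R (x.1, w) = sc (s⁻¹ * (1 - s)) (x.1, -x.2) := by
    rw [(Link_TT hx.1 hw).2, sc]
    congr 1
    rw [← sub_eq_zero, ← smul_zero s⁻¹, ← e]
    match_scalars <;> field_simp
    ring
  have e2 : G.Z (π / 2) (x.1, -x.2) = G.Z (-(π / 2)) x :=
    (congrArg Prod.fst (G.psi_neg (π / 2) ho) :)
  have e3 := B.Z_add_pi (-(π / 2)) ho
  rw [show -(π / 2) + π = π / 2 by ring] at e3
  rw [← G.Z_R h _ hw, e1, G.Z_sc _ (mul_pos (inv_pos.2 s0) (sub_pos.2 s1)) hn, e2, e3]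

end Bl

end Pool.Agent.Work.MP_8c604c_gt.O
end
end

-- merged part: Pool.Agent.Work.MP_8c604c_gt.B.Loop
section
/-!
Loops from curves on `[0, π]`, descent of continuity along proper surjections, the rotation of loops.
Plan. desc: the map K x P -> Z x P is proper (K compact, Z Hausdorff: isProperMap_iff_isClosedMap_and_compact_fibers or Continuous.isProperMap, IsProperMap.prodMap),
so closed; its restriction over s (IsClosedMap.restrictPreimage) is a closed continuous surjection, hence a quotient map (IsClosedMap.isQuotientMap);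
use IsQuotientMap.continuous_iff and continuousOn_iff_continuous_restrict.
cs_eq: Circle.exp_eq_exp. mkL: apply desc with K = Icc 0 pi, q = cs (swap the factors) to get joint continuity on s x Circle, then curry.
-/

open Set Filter Topology

noncomputable section
namespace Pool.Agent.Work.MP_8c604c_gt.B

open Real T

/-- Continuity descends along a continuous map on a compact set, with parameters. -/
theorem desc {X Z P Y : Type} [TopologicalSpace X] [TopologicalSpace Z] [T2Space Z]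
    [TopologicalSpace P] [TopologicalSpace Y] {K : Set X} (hK : IsCompact K) {q : X → Z}
    (hq : ContinuousOn q K) {s : Set (Z × P)} (hs : ∀ y ∈ s, y.1 ∈ q '' K) {f : Z × P → Y}
    (hf : ContinuousOn (fun y : X × P => f (q y.1, y.2)) {y | y.1 ∈ K ∧ (q y.1, y.2) ∈ s}) :
    ContinuousOn f s := by
  have : CompactSpace K := isCompact_iff_compactSpace.mp hK
  have hq1 : Continuous (fun x : K => q x) := continuousOn_iff_continuous_domRestrict.mp hq
  have hp : IsProperMap (Prod.map (fun x : K => q x) (id : P → P)) :=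
    hq1.isProperMap.prodMap isProperMap_id
  have hcl := hp.isClosedMap.restrictPreimage s
  have hco := hp.continuous.restrictPreimage (s := s)
  have hsu : Function.Surjective (s.restrictPreimage (Prod.map (fun x : K => q x) (id : P → P))) := by
    rintro ⟨⟨z, p⟩, hy⟩
    obtain ⟨x, hx, hxz⟩ := hs _ hy
    refine ⟨⟨(⟨x, hx⟩, p), ?_⟩, ?_⟩
    · have : q x = z := hxz
      simpa [this] using hy
    · apply Subtype.ext
      have : q x = z := hxz
      simp [this]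
  have hquot := hcl.isQuotientMap hco hsu
  rw [continuousOn_iff_continuous_domRestrict, hquot.continuous_iff]
  have h1 : Continuous (fun y : (Prod.map (fun x : K => q x) (id : P → P)) ⁻¹' s =>
      ((y.1.1 : X), y.1.2)) := by fun_prop
  exact hf.comp_continuous h1 (fun y => ⟨y.1.1.2, y.2⟩)

/-- The same without parameters. -/
theorem desc₀ {X Z Y : Type} [TopologicalSpace X] [TopologicalSpace Z] [T2Space Z]
    [TopologicalSpace Y] {K : Set X} (hK : IsCompact K) {q : X → Z}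
    (hq : ContinuousOn q K) {s : Set Z} (hs : s ⊆ q '' K) {f : Z → Y}
    (hf : ContinuousOn (fun x => f (q x)) {x | x ∈ K ∧ q x ∈ s}) : ContinuousOn f s := by
  have h1 : ContinuousOn (fun y : Z × Unit => f y.1) {y | y.1 ∈ s} := by
    refine desc hK hq (fun y hy => hs hy) ?_
    exact hf.comp continuous_fst.continuousOn (fun y hy => hy)
  exact h1.comp (f := fun z : Z => (z, ())) (by fun_prop) (fun z hz => hz)

theorem continuous_cs : Continuous cs := by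
  unfold cs
  exact Circle.exp.continuous.comp (by fun_prop)

theorem cs_zero : cs 0 = 1 := by
  simp [cs]

theorem cs_pi : cs π = 1 := by
  simp [cs]

theorem cs_add (s t : ℝ) : cs (s + t) = cs s * cs t := by
  simp only [cs, mul_add, Circle.exp_add]

theorem cs_add_pi (t : ℝ) : cs (t + π) = cs t := by
  rw [cs_add, cs_pi, mul_one]

theorem coe_cs (t : ℝ) : (cs t : ℂ) = Complex.exp (2 * t * Complex.I) := by
  simp [cs, Circle.coe_exp]

theorem exists_cs (θ : Circle) : ∃ t ∈ Icc 0 π, cs t = θ := by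
  have h0 := Circle.exp_arg θ
  have h1 := Complex.neg_pi_lt_arg (θ : ℂ)
  have h2 := Complex.arg_le_pi (θ : ℂ)
  have hpi := Real.pi_pos
  by_cases h : 0 ≤ Complex.arg (θ : ℂ)
  · refine ⟨Complex.arg (θ : ℂ) / 2, ⟨by linarith, by linarith⟩, ?_⟩
    rw [cs, mul_div_cancel₀ _ (two_ne_zero)]
    exact h0
  · refine ⟨Complex.arg (θ : ℂ) / 2 + π, ⟨by linarith, by linarith⟩, ?_⟩
    rw [cs_add_pi, cs, mul_div_cancel₀ _ (two_ne_zero)]
    exact h0

theorem cs_eq {s t : ℝ} (h : cs s = cs t) : ∃ k : ℤ, s = t + k * π := by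
  obtain ⟨k, hk⟩ := Circle.exp_eq_exp.mp h
  exact ⟨k, by linarith⟩

/-- A time in `[0, π]` for a point of the circle. -/
def ang (θ : Circle) : ℝ := (exists_cs θ).choose

theorem ang_mem (θ : Circle) : ang θ ∈ Icc 0 π := (exists_cs θ).choose_spec.1

theorem cs_ang (θ : Circle) : cs (ang θ) = θ := (exists_cs θ).choose_spec.2

variable {A P : Type} [TopologicalSpace A] [TopologicalSpace P]

open Classical in
/-- The loop defined by a closed curve on `[0, π]`. -/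
def mkL (c : ℝ → A) : C(Circle, A) :=
  if h : Continuous fun θ => c (ang θ) then ⟨fun θ => c (ang θ), h⟩ else ContinuousMap.const _ (c 0)

theorem Loop_ang {B : Type} {c : ℝ → B} (h : c 0 = c π) {t : ℝ} (ht : t ∈ Icc 0 π) :
    c (ang (cs t)) = c t := by
  obtain ⟨k, hk⟩ := cs_eq (cs_ang (cs t))
  have ha := ang_mem (cs t)
  have hpi := Real.pi_pos
  have h1 : (k : ℝ) ≤ 1 := by
    by_contra hc
    push Not at hc
    nlinarith [ha.2, ht.1]
  have h2 : (-1 : ℝ) ≤ k := by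
    by_contra hc
    push Not at hc
    nlinarith [ha.1, ht.2]
  have h1' : k ≤ 1 := by exact_mod_cast h1
  have h2' : -1 ≤ k := by exact_mod_cast h2
  interval_cases k
  · have e1 : t = π := by
      have := ha.1
      have := ht.2
      push_cast at hk
      linarith
    have e2 : ang (cs t) = 0 := by
      push_cast at hk
      linarith
    rw [e2, h, e1]
  · have e2 : ang (cs t) = t := by
      push_cast at hk
      linarith
    rw [e2]
  · have e1 : t = 0 := by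
      have := ha.2
      have := ht.1
      push_cast at hk
      linarith
    have e2 : ang (cs t) = π := by
      push_cast at hk
      linarith
    rw [e2, ← h, e1]

theorem Loop_cont {c : ℝ → A} (hc : ContinuousOn c (Icc 0 π)) (h : c 0 = c π) :
    Continuous fun θ => c (ang θ) := by
  rw [← continuousOn_univ]
  refine desc₀ (K := Icc 0 π) isCompact_Icc continuous_cs.continuousOn
    (fun θ _ => exists_cs θ) ?_
  refine (hc.mono (fun x hx => hx.1)).congr ?_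
  intro x hx
  exact Loop_ang h hx.1

theorem Loop_apply {c : ℝ → A} (hc : ContinuousOn c (Icc 0 π)) (h : c 0 = c π) (θ : Circle) :
    mkL c θ = c (ang θ) := by
  rw [mkL, dif_pos (Loop_cont hc h)]
  rfl

theorem mkL_apply {c : ℝ → A} (hc : ContinuousOn c (Icc 0 π)) (h : c 0 = c π) {t : ℝ}
    (ht : t ∈ Icc 0 π) : mkL c (cs t) = c t := by
  rw [Loop_apply hc h, Loop_ang h ht]

theorem mkL_per {c : ℝ → A} (hc : ContinuousOn c (Icc 0 π)) (h : Function.Periodic c π) (t : ℝ) :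
    mkL c (cs t) = c t := by
  have h0 : c 0 = c π := by simpa using (h 0).symm
  obtain ⟨k, hk⟩ := cs_eq (cs_ang (cs t))
  rw [Loop_apply hc h0, hk]
  exact h.int_mul k t

theorem continuousOn_curry {s : Set P} {L : P → C(Circle, A)}
    (h : ContinuousOn (fun y : P × Circle => L y.1 y.2) (s ×ˢ univ)) : ContinuousOn L s := by
  rw [continuousOn_iff_continuous_domRestrict]
  apply ContinuousMap.continuous_of_continuous_uncurry
  have h1 : Continuous (fun y : s × Circle => ((y.1 : P), y.2)) := by fun_prop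
  exact h.comp_continuous h1 (fun y => ⟨y.1.2, mem_univ _⟩)

theorem continuousOn_mkL {s : Set P} {F : P × ℝ → A} (hF : ContinuousOn F (s ×ˢ Icc 0 π))
    (h : ∀ p ∈ s, F (p, 0) = F (p, π)) : ContinuousOn (fun p => mkL fun t => F (p, t)) s := by
  have hc : ∀ p ∈ s, ContinuousOn (fun t => F (p, t)) (Icc 0 π) := fun p hp =>
    hF.comp (f := fun t : ℝ => (p, t)) (by fun_prop) (fun t ht => ⟨hp, ht⟩)
  have h1 : ContinuousOn (fun y : Circle × P => F (y.2, ang y.1)) {y | y.2 ∈ s} := by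
    refine desc (K := Icc 0 π) isCompact_Icc continuous_cs.continuousOn
      (fun y _ => exists_cs y.1) ?_
    have h2 : ContinuousOn (fun y : ℝ × P => F (y.2, y.1))
        {y | y.1 ∈ Icc 0 π ∧ (cs y.1, y.2) ∈ {y : Circle × P | y.2 ∈ s}} :=
      hF.comp (f := fun y : ℝ × P => (y.2, y.1)) (by fun_prop) (fun y hy => ⟨hy.2, hy.1⟩)
    refine h2.congr ?_
    intro y hy
    exact Loop_ang (c := fun t => F (y.2, t)) (h y.2 hy.2) hy.1
  apply continuousOn_curry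
  have h3 : ContinuousOn (fun y : P × Circle => F (y.1, ang y.2)) (s ×ˢ univ) :=
    h1.comp (f := fun y : P × Circle => (y.2, y.1)) (by fun_prop) (fun y hy => hy.1)
  refine h3.congr ?_
  intro y hy
  exact Loop_apply (hc y.1 hy.1) (h y.1 hy.1) y.2

theorem loop_ext {c c' : C(Circle, A)} (h : ∀ t ∈ Icc 0 π, c (cs t) = c' (cs t)) : c = c' := by
  ext θ
  obtain ⟨t, ht, rfl⟩ := exists_cs θ
  exact h t ht

variable {n : ℕ}

theorem sh_apply (θ θ' : Circle) (c : LM n) : sh θ c θ' = c (θ * θ') := rfl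

theorem sh_cs (s t : ℝ) (c : LM n) : sh (cs s) c (cs t) = c (cs (t + s)) := by
  rw [sh_apply, cs_add, mul_comm]

theorem sh_one (c : LM n) : sh 1 c = c := by
  refine ContinuousMap.ext fun θ => ?_
  rw [sh_apply, one_mul]

theorem sh_sh (θ θ' : Circle) (c : LM n) : sh θ (sh θ' c) = sh (θ * θ') c := by
  refine ContinuousMap.ext fun t => ?_
  rw [sh_apply, sh_apply, sh_apply, ← mul_assoc, mul_comm θ' θ]

theorem continuous_sh : Continuous fun y : Circle × LM n => sh y.1 y.2 := by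
  apply ContinuousMap.continuous_of_continuous_uncurry
  change Continuous fun y : (Circle × LM n) × Circle => y.1.2 (y.1.1 * y.2)
  fun_prop

end Pool.Agent.Work.MP_8c604c_gt.B
end
end

-- merged part: Pool.Agent.Work.MP_8c604c_gt.OT.TD
section
/-!
The interface between the geometry and the topology of a Blaschke metric on a manifold `M` of dimension 16
in a Euclidean space `V` (owner helper4).  Closed geodesics are loops in `V`, the period is `π`.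
-/

noncomputable section

namespace Pool.Agent.Work.MP_8c604c_gt.OT

open Set Real Pool.Agent.Work.MP_849ab0_ag.G
open T (RN cs RB Van Gen Tf)
open scoped ContDiff

/-- loops -/
abbrev LM (V : Type) [TopologicalSpace V] : Type := C(Circle, V)

/-- the space of the sphere coordinate -/
abbrev CM (m : ℕ) : Type := Fin (m + 1) → ℂ

/-- the unit sphere of the sup norm -/
def Sp (m : ℕ) : Set (CM m) := Metric.sphere 0 1

variable {V : Type} [NormedAddCommGroup V] [InnerProductSpace ℝ V] [FiniteDimensional ℝ V]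

/-- rotation of loops -/
def sh (θ : Circle) (c : LM V) : LM V := c.comp ⟨fun t => θ * t, continuous_const.mul continuous_id⟩

/-- the double cover of a loop -/
def db (c : LM V) : LM V := c.comp ⟨fun t => t * t, continuous_id.mul continuous_id⟩

/-- pairs of cut points -/
def cutS (S : Set (LM V)) : Set (V × V) := {y | ∃ c ∈ S, c 1 = y.1 ∧ c (cs (π / 2)) = y.2}

/-- `c'` joins the same pair of cut points as `c` -/
def Lk (c c' : LM V) : Prop := c' 1 = c 1 ∧ c' (cs (π / 2)) = c (cs (π / 2))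

/-- A compact manifold of dimension 16 with a retraction `r` and tangent projector `tp`. -/
structure Mf (V : Type) [NormedAddCommGroup V] [InnerProductSpace ℝ V] [FiniteDimensional ℝ V] where
  M : Set V
  U : Set V
  r : V → V
  tp : V → V →L[ℝ] V
  cpt : IsCompact M
  opn : IsOpen U
  sub : M ⊆ U
  cr : ContinuousOn r U
  mr : MapsTo r U M
  fix : ∀ p ∈ M, r p = p
  der : ∀ p ∈ M, HasFDerivAt r (tp p) p
  rb : RB tp 16 M

/-- `u` is tangent at `p` -/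
def Mf.Tan (X : Mf V) (p u : V) : Prop := p ∈ X.M ∧ X.tp p u = u

/-- The cohomology of the Cayley plane. -/
structure MT (X : Mf V) where
  y : H X.M univ
  conn : IsConnected X.M
  g8 : Gen 8 y
  g16 : Gen 16 (y ^ 2)
  van : ∀ q : ℤ, q ≠ 0 → q ≠ 8 → q ≠ 16 → Van q X.M univ
  tf8 : Tf 8 X.M univ
  tf16 : Tf 16 X.M univ
  vanp : ∀ p ∈ X.M, Van 16 (X.M \ {p}) univ

/-- A chart. -/
structure Ch (X : Mf V) where
  φ : RN 16 → V
  χ : V → RN 16
  O : Set V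
  sm : ContDiff ℝ ∞ φ
  opn : IsOpen O
  cχ : ContinuousOn χ O
  dχ : ∀ q ∈ X.M ∩ O, DifferentiableAt ℝ χ q
  mem : ∀ a, φ a ∈ X.M ∩ O
  li : ∀ a, χ (φ a) = a
  ri : ∀ q ∈ X.M ∩ O, φ (χ q) = q
  inj : ∀ a, Function.Injective (fderiv ℝ φ a)

/-- The closed geodesics `S` of a Blaschke metric with conjugate multiplicity `k`;
`vel c` is the velocity of `c` at time `0`. -/
structure TD0 (X : Mf V) (k : ℕ) where
  S : Set (LM V)
  vel : LM V → V
  cpt : IsCompact S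
  inv : ∀ θ, ∀ c ∈ S, sh θ c ∈ S
  mem : ∀ c ∈ S, ∀ θ, c θ ∈ X.M
  cvel : ContinuousOn vel S
  tan : ∀ c ∈ S, X.Tan (c 1) (vel c)
  vne : ∀ c ∈ S, vel c ≠ 0
  ex : ∀ p u, X.Tan p u → u ≠ 0 → ∃ c ∈ S, c 1 = p ∧ ∃ r : ℝ, 0 < r ∧ u = r • vel c
  uniq : ∀ c ∈ S, ∀ c' ∈ S, c' 1 = c 1 → ∀ r : ℝ, 0 < r → vel c' = r • vel c → c' = c
  ne : ∀ c ∈ S, ∀ t ∈ Ioc 0 (π / 2), c (cs t) ≠ c 1
  inj : ∀ c ∈ S, ∀ c' ∈ S, c' 1 = c 1 → ∀ t ∈ Ioo 0 (π / 2), ∀ t' ∈ Ioc 0 (π / 2),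
    c' (cs t') = c (cs t) → c' = c ∧ t' = t
  surj : ∀ p ∈ X.M, ∀ q ∈ X.M, p ≠ q → ∃ c ∈ S, c 1 = p ∧ ∃ t ∈ Ioc 0 (π / 2), c (cs t) = q
  link : ∀ c ∈ S, ∃ W : Submodule ℝ (V × V), Module.finrank ℝ W = k + 1 ∧ ∀ y, y ∈ W ↔
    ∃ c' ∈ S, Lk c c' ∧ ∃ r : ℝ, 0 ≤ r ∧ y = r • (vel c', vel (sh (cs (π / 2)) c'))

/-- `u` is a direction at `y.1` of a geodesic from `y.1` to its cut point `y.2` (see `mem_Ws`) -/
def TD0.InW {X : Mf V} {k : ℕ} (D : TD0 X k) (y : V × V) (u : V) : Prop :=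
  ∃ c ∈ D.S, (c 1, c (cs (π / 2))) = y ∧ ∃ r : ℝ, 0 ≤ r ∧ u = r • D.vel c

/-- the derivative of the fibration of the tangent spheres: a nonsingular bilinear map -/
def TD0.Bil {X : Mf V} {k : ℕ} (D : TD0 X k) : Prop :=
  ∃ be : V × V → V →L[ℝ] V →L[ℝ] V, ContinuousOn be (cutS D.S) ∧ ∀ y ∈ cutS D.S, ∀ u w,
    X.Tan y.2 u → ¬ D.InW y.swap u → D.InW y w → w ≠ 0 →
      X.Tan y.1 (be y u w) ∧ ¬ D.InW y (be y u w)

/-- The distance `d`, the metric `gm`, and first order estimates. -/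
structure TD1 (X : Mf V) extends TD0 X 7 where
  d : V → V → ℝ
  dS : ∀ c ∈ S, ∀ t ∈ Icc 0 (π / 2), d (c 1) (c (cs t)) = t
  symm : ∀ p ∈ X.M, ∀ q ∈ X.M, d p q = d q p
  tri : ∀ p ∈ X.M, ∀ q ∈ X.M, ∀ s ∈ X.M, d p s ≤ d p q + d q s
  gm : V → V →L[ℝ] V →L[ℝ] ℝ
  pos : ∀ p u, X.Tan p u → u ≠ 0 → 0 < gm p u u
  dif : ∀ ε : ℝ, 0 < ε → ∃ δ : ℝ, 0 < δ ∧ ∀ c ∈ S, ∀ t : ℝ, |t| < δ →
    ‖c (cs t) - c 1 - t • vel c‖ ≤ ε * |t|
  cone : ∀ ε : ℝ, 0 < ε → ∃ δ : ℝ, 0 < δ ∧ ∀ c ∈ S, ∀ y ∈ cutS S,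
    ‖y - (c 1, c (cs (π / 2)))‖ < δ → |gm (c 1) (vel c) (y.1 - c 1) -
      gm (c (cs (π / 2))) (vel (sh (cs (π / 2)) c)) (y.2 - c (cs (π / 2)))| ≤
        ε * ‖y - (c 1, c (cs (π / 2)))‖
  corner : ∀ c ∈ S, ∀ c' ∈ S, ∀ s t : ℝ, 0 < s → 0 < t → s + t ≤ π / 2 → c' 1 = c (cs s) →
    d (c 1) (c' (cs t)) = s + t → c' = sh (cs s) c
  cover : ∀ p ∈ X.M, ∃ C : Ch X, p ∈ C.O
  bil : toTD0.Bil

variable {X : Mf V}

/-- Loops with a Lipschitz constant at most `2`; closed geodesics have speed `1`. -/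
def TD1.Lam (D : TD1 X) : Set (LM V × ℝ) :=
  {x | (∀ θ, x.1 θ ∈ X.M) ∧ x.2 ∈ Icc (0 : ℝ) 2 ∧
    ∀ s t, D.d (x.1 (cs s)) (x.1 (cs t)) ≤ x.2 * |s - t|}

/-- `(ξ, η)` is tangent to the cut pairs at the end points of `c`. -/
def TD1.TF (D : TD1 X) (c : LM V) (ξ η : V) : Prop :=
  ∀ c' ∈ D.S, Lk c c' →
    D.gm (c 1) (D.vel c') ξ = D.gm (c (cs (π / 2))) (D.vel (sh (cs (π / 2)) c')) η

/-- multiplication by a unit complex number on pairs of vectors -/
def rot {A : Type} [AddCommGroup A] [Module ℝ A] (θ : Circle) (n : A × A) : A × A :=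
  ((θ : ℂ).re • n.1 - (θ : ℂ).im • n.2, (θ : ℂ).im • n.1 + (θ : ℂ).re • n.2)

/-- the ambient fibre of the negative bundle of the double covers -/
abbrev FB (N N' : ℕ) : Type := RN N × (RN N × RN N) × RN N'

/-- the total space of the first negative bundle -/
def tot1 {m N : ℕ} (S : Set (LM V)) (K : LM V × CM m → RN N →L[ℝ] RN N) :
    Set ((LM V × CM m) × RN N) := {z | z.1 ∈ S ×ˢ Sp m ∧ K z.1 z.2 = z.2}

/-- the total space of the second negative bundle -/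
def tot2 {m N N' : ℕ} (S : Set (LM V)) (K : LM V × CM m → RN N →L[ℝ] RN N)
    (P : LM V × CM m → RN N' →L[ℝ] RN N') : Set ((LM V × CM m) × FB N N') :=
  {z | z.1 ∈ S ×ˢ Sp m ∧ K (z.1.1, z.1.2 * z.1.2) z.2.1 = z.2.1 ∧
    K (z.1.1, z.1.2 * z.1.2) z.2.2.1.1 = z.2.2.1.1 ∧ K (z.1.1, z.1.2 * z.1.2) z.2.2.1.2 = z.2.2.1.2 ∧
    P z.1 z.2.2.2 = z.2.2.2}

/-- The negative bundle `K` of the closed geodesics, the bundle `K + (K + K) + P` for their double covers,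
the pushes `pu1`, `pu2`, their linearisation, and an equivariant map `Φ`. -/
structure TD (X : Mf V) (m : ℕ) extends TD1 X where
  N : ℕ
  K : LM V × CM m → RN N →L[ℝ] RN N
  cK : ContinuousOn K (S ×ˢ Sp m)
  idK : ∀ x ∈ S ×ˢ Sp m, ∀ a, K x (K x a) = K x a
  syK : ∀ x ∈ S ×ˢ Sp m, ∀ a b, inner ℝ (K x a) b = inner ℝ a (K x b)
  rkK : ∀ x ∈ S ×ˢ Sp m, Module.finrank ℝ (LinearMap.range (K x : RN N →ₗ[ℝ] RN N)) = 7
  invK : ∀ θ : Circle, ∀ x ∈ S ×ˢ Sp m, K (sh θ x.1, (θ : ℂ) • x.2) = K x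
  B : LM V × CM m → RN N →L[ℝ] V
  cB : ContinuousOn B (S ×ˢ Sp m)
  BW : ∀ x ∈ S ×ˢ Sp m, ∀ u, (∃ c' ∈ S, Lk x.1 c' ∧ ∃ r : ℝ, 0 ≤ r ∧ u = r • vel c') ↔
    ∃ (t : ℝ) (a : RN N), K x a = a ∧ u = t • vel x.1 + B x a
  N' : ℕ
  P : LM V × CM m → RN N' →L[ℝ] RN N'
  cP : ContinuousOn P (S ×ˢ Sp m)
  idP : ∀ x ∈ S ×ˢ Sp m, ∀ a, P x (P x a) = P x a
  rkP : ∀ x ∈ S ×ˢ Sp m, Module.finrank ℝ (LinearMap.range (P x : RN N' →ₗ[ℝ] RN N')) = 8
  invP : ∀ θ : Circle, ∀ x ∈ S ×ˢ Sp m, P (sh (θ * θ) x.1, (θ : ℂ) • x.2) = P x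
  B' : LM V × CM m → RN N' →L[ℝ] V
  cB' : ContinuousOn B' (S ×ˢ Sp m)
  tanB' : ∀ x ∈ S ×ˢ Sp m, ∀ a, P x a = a → X.Tan (x.1 1) (B' x a)
  BW' : ∀ x ∈ S ×ˢ Sp m, ∀ a, P x a = a → ∀ c' ∈ S, Lk x.1 c' → ∀ r : ℝ,
    B' x a = r • vel c' → a = 0
  pu1 : (LM V × CM m) × RN N → LM V × ℝ
  c1 : ContinuousOn pu1 (tot1 S K)
  mem1 : MapsTo pu1 (tot1 S K) toTD1.Lam
  zero1 : ∀ x ∈ S ×ˢ Sp m, pu1 (x, 0) = (x.1, 1)
  lt1 : ∀ z ∈ tot1 S K, z.2 ≠ 0 → (pu1 z).2 < 1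
  eq1 : ∀ θ : Circle, ∀ z ∈ tot1 S K,
    pu1 ((sh θ z.1.1, (θ : ℂ) • z.1.2), z.2) = (sh θ (pu1 z).1, (pu1 z).2)
  pu2 : (LM V × CM m) × FB N N' → LM V × ℝ
  c2 : ContinuousOn pu2 (tot2 S K P)
  mem2 : MapsTo pu2 (tot2 S K P) toTD1.Lam
  zero2 : ∀ x ∈ S ×ˢ Sp m, pu2 (x, 0) = (db x.1, 2)
  lt2 : ∀ z ∈ tot2 S K P, z.2 ≠ 0 → (pu2 z).2 < 2
  eq2 : ∀ θ : Circle, ∀ z ∈ tot2 S K P,
    pu2 ((sh (θ * θ) z.1.1, (θ : ℂ) • z.1.2), z.2.1, rot θ z.2.2.1, z.2.2.2) =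
      (sh θ (pu2 z).1, (pu2 z).2)
  one : ∀ x ∈ S ×ˢ Sp m, ∀ a, K (x.1, x.2 * x.2) a = a →
    pu2 (x, a, 0) = (db (pu1 ((x.1, x.2 * x.2), a)).1, 2 * (pu1 ((x.1, x.2 * x.2), a)).2)
  X2 : LM V × CM m → FB N N' →L[ℝ] LM V
  tan2 : ∀ x ∈ S ×ˢ Sp m, ∀ v θ, X.Tan (x.1 (θ * θ)) (X2 x v θ)
  nor2 : ∀ x v, (x, v) ∈ tot2 S K P → ∀ θ, gm (x.1 (θ * θ)) (vel (sh (θ * θ) x.1)) (X2 x v θ) = 0
  exp2 : ∀ x ∈ S ×ˢ Sp m, ∀ ε : ℝ, 0 < ε → ∃ δ : ℝ, 0 < δ ∧ ∀ v, (x, v) ∈ tot2 S K P → ‖v‖ < δ →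
    ‖(pu2 (x, v)).1 - db x.1 - X2 x v‖ ≤ ε * ‖v‖
  tr2 : ∀ x v, (x, v) ∈ tot2 S K P → X2 x v (cs (π / 2)) = X2 x v 1 →
    toTD1.TF x.1 (X2 x v 1) (X2 x v (cs (π / 4))) →
    toTD1.TF x.1 (X2 x v 1) (X2 x v (cs (3 * π / 4))) → v = 0
  Φ : LM V → Fin 16 → ℂ
  cΦ : ContinuousOn Φ S
  eqΦ : ∀ θ, ∀ c ∈ S, Φ (sh θ c) = (θ : ℂ) • Φ c
  neΦ : ∀ c ∈ S, Φ c ≠ 0

/-- A regular value `w` of the cone `r • vel c ↦ r • Φ c` over `Φ`, read in the chart `C` of the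
tangent bundle: `T` is the set of all preimages, `L x` the derivative at `x`. -/
structure Reg {k : ℕ} (D : TD0 X k) (Φ : LM V → Fin 16 → ℂ) (C : Ch X) (w : Fin 16 → ℂ)
    (T : Finset (RN 16 × RN 16)) (L : RN 16 × RN 16 → (RN 16 × RN 16) →L[ℝ] (Fin 16 → ℂ)) : Prop where
  ne : w ≠ 0
  all : ∀ c ∈ D.S, ∀ r : ℝ, 0 < r → r • Φ c = w →
    ∃ x ∈ T, c 1 = C.φ x.1 ∧ fderiv ℝ C.φ x.1 x.2 = r • D.vel c
  der : ∃ F : RN 16 × RN 16 → Fin 16 → ℂ,
    (∀ x, ∀ c ∈ D.S, ∀ r : ℝ, 0 < r → c 1 = C.φ x.1 →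
      fderiv ℝ C.φ x.1 x.2 = r • D.vel c → F x = r • Φ c) ∧
    ∀ x ∈ T, x.2 ≠ 0 ∧ F x = w ∧ HasFDerivAt F (L x) x ∧ Function.Injective (L x)

/-- The output of the topology: the signed count is at most `78`. -/
def CountLe (X : Mf V) (C : Ch X) : Prop :=
  ∀ (D : TD X 40) (w : Fin 16 → ℂ) (T : Finset (RN 16 × RN 16))
    (L : RN 16 × RN 16 → (RN 16 × RN 16) →L[ℝ] (Fin 16 → ℂ)), Reg D.toTD0 D.Φ C w T L →
    ∀ e : (Fin 16 → ℂ) ≃L[ℝ] RN 16 × RN 16,
      |∑ x ∈ T, (SignType.sign ((L x).comp (e : (Fin 16 → ℂ) →L[ℝ] RN 16 × RN 16)).det : ℝ)| ≤ 78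

end Pool.Agent.Work.MP_8c604c_gt.OT
end
end

-- merged part: Pool.Agent.Work.MP_8c604c_gt.OC.Mf
section
/-!
The manifold and the charts of a model, in the form used by the topology.
-/

set_option maxSynthPendingDepth 3

open Set Filter Topology
open scoped ContDiff

noncomputable section
namespace Pool.Agent.Work.MP_8c604c_gt.O.Model

variable {E : Type} [NormedAddCommGroup E] [InnerProductSpace ℝ E] [FiniteDimensional ℝ E] (μ : Model E 16)

/-- The manifold of a model. -/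
def mf : OT.Mf E where
  M := μ.M
  U := μ.U
  r := μ.r
  tp := μ.P
  cpt := μ.isCompact_M
  opn := μ.isOpen
  sub := fun _ hz => hz.1
  cr := μ.smooth.continuousOn
  mr := fun _ hz => r_mem hz
  fix := fun _ hz => hz.2
  der := fun _ hz => hasFDerivAt_r hz.1
  rb := ⟨μ.isCompact_M.isClosed.isLocallyClosed, contDiffOn_P.continuousOn.mono fun _ hz => hz.1,
    fun _ hz => P_idem hz, fun _ hz => by rw [range_P hz, finrank_Tan hz]⟩

theorem mf_M : μ.mf.M = μ.M := rfl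

theorem mf_tp : μ.mf.tp = μ.P := rfl

theorem mf_Tan {p u : E} : μ.mf.Tan p u ↔ (p, u) ∈ μ.TM := Iff.rfl

/-- The charts of a model. -/
def ch (i : Fin (μ.N + 1)) : OT.Ch μ.mf where
  φ := μ.χ i
  χ := μ.ρ i
  O := μ.W i
  sm := μ.χ_smooth i
  opn := μ.W_open i
  cχ := (μ.ρ_smooth i).continuousOn
  dχ := fun _ hq => (hasFDerivAt_ρ hq.2).differentiableAt
  mem := fun a => ⟨χ_M i a, μ.χ_mem i a⟩
  li := μ.ρχ i
  ri := fun q hq => μ.χρ i q hq.2 hq.1.2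
  inj := Dχ_inj i

theorem ch_φ (i : Fin (μ.N + 1)) : (μ.ch i).φ = μ.χ i := rfl

theorem mf_cover : ∀ p ∈ μ.mf.M, ∃ C : OT.Ch μ.mf, p ∈ C.O := fun p hp =>
  (μ.cover p hp.1 hp.2).elim fun i hi => ⟨μ.ch i, hi⟩

end Pool.Agent.Work.MP_8c604c_gt.O.Model
end
end

-- merged part: Pool.Agent.Work.MP_8c604c_gt.OB.Defs
section
/-!
Definitions of block B (owner helper4): closed geodesics as loops, and the structure `ND2` that block S delivers:
negative fields along the double covers of the closed geodesics.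
-/

set_option maxSynthPendingDepth 3
set_option linter.unusedSectionVars false

open Set Filter Topology MeasureTheory
open scoped ContDiff

noncomputable section
namespace Pool.Agent.Work.MP_8c604c_gt.O

open OT Real
open T (RN cs)

variable {E : Type} [NormedAddCommGroup E] [InnerProductSpace ℝ E] [FiniteDimensional ℝ E] {d : ℕ}
  {μ : Model E d} {g : Met E} {m : ℕ}

/-- Unit tangent vectors. -/
def UT (μ : Model E d) (g : Met E) : Set (E × E) := {x | x ∈ μ.TT ∧ spd g x = 1}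

/-- The parameter space: a unit vector and a point of the sphere. -/
def XT (μ : Model E d) (g : Met E) (m : ℕ) : Set ((E × E) × CM m) := UT μ g ×ˢ Sp m

/-- The square of the sphere coordinate. -/
def sq2 (x : (E × E) × CM m) : (E × E) × CM m := (x.1, x.2 * x.2)

/-- The fibres of the bundle `K + (K + K) + P`. -/
def tt2 {N N' : ℕ} (U : Set ((E × E) × CM m)) (K : (E × E) × CM m → RN N →L[ℝ] RN N)
    (P : (E × E) × CM m → RN N' →L[ℝ] RN N') : Set (((E × E) × CM m) × FB N N') :=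
  {z | z.1 ∈ U ∧ K (sq2 z.1) z.2.1 = z.2.1 ∧ K (sq2 z.1) z.2.2.1.1 = z.2.2.1.1 ∧
    K (sq2 z.1) z.2.2.1.2 = z.2.2.1.2 ∧ P z.1 z.2.2.2 = z.2.2.2}

namespace Geo
variable (G : Geo μ g)

/-- The flow of period `π` on the parameter space. -/
def f1 (t : ℝ) (x : (E × E) × CM m) : (E × E) × CM m :=
  (G.psi t x.1, (Circle.exp (2 * t) : ℂ) • x.2)

/-- The flow of period `2 π` on the parameter space. -/
def f2 (t : ℝ) (x : (E × E) × CM m) : (E × E) × CM m := (G.psi t x.1, (Circle.exp t : ℂ) • x.2)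

/-- The flow of period `2 π` on the total space. -/
def fl {N N' : ℕ} (t : ℝ) (z : ((E × E) × CM m) × FB N N') : ((E × E) × CM m) × FB N N' :=
  (G.f2 t z.1, z.2.1, rot (Circle.exp t) z.2.2.1, z.2.2.2)

/-- The derivative of the fibration of the tangent spheres. -/
def Bil0 : Prop :=
  ∃ b : E × E → E →L[ℝ] E →L[ℝ] E, ContinuousOn b (UT μ g) ∧
    (∀ x ∈ UT μ g, ∀ y ∈ UT μ g, x.1 = y.1 → G.Z (π / 2) x = G.Z (π / 2) y → b x = b y) ∧
    ∀ x ∈ UT μ g, ∀ u w, μ.P (G.Z (π / 2) x) u = u → u ∉ G.WS (G.psi (π / 2) x) → w ∈ G.WS x → w ≠ 0 →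
      μ.P x.1 (b x u w) = b x u w ∧ b x u w ∉ G.WS x

end Geo

/-- The field with a part `X1` of period `π` and a part `X2`. -/
def fld {N N' : ℕ} (X1 : (E × E) × CM m → RN N →L[ℝ] E)
    (X2 : (E × E) × CM m → (RN N × RN N) × RN N' →L[ℝ] E) (z : ((E × E) × CM m) × FB N N') : E :=
  X1 (sq2 z.1) z.2.1 + X2 z.1 z.2.2

/-- The density of the second variation of a field with value `a` and derivative `b`. -/
def q2 (g : Met E) (x : E × E) (a b : E) : ℝ := D2 g x (a, b) (a, b)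

/-- The output of block S.  For `z` in `tt2`, `t ↦ fld X1 X2 (fl t z)` is a continuous normal field along the double
cover of the geodesic of `z.1.1`, with right derivative `fld Y1 Y2`, and the index form is negative definite. -/
structure ND2 (G : Geo μ g) (m : ℕ) where
  N : ℕ
  K : (E × E) × CM m → RN N →L[ℝ] RN N
  cK : ContinuousOn K (XT μ g m)
  idK : ∀ x ∈ XT μ g m, ∀ a, K x (K x a) = K x a
  syK : ∀ x ∈ XT μ g m, ∀ a b, inner ℝ (K x a) b = inner ℝ a (K x b)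
  rkK : ∀ x ∈ XT μ g m, Module.finrank ℝ (LinearMap.range (K x : RN N →ₗ[ℝ] RN N)) = 7
  invK : ∀ t, ∀ x ∈ XT μ g m, K (G.f1 t x) = K x
  R : (E × E) × CM m → RN N →L[ℝ] E
  cR : ContinuousOn R (XT μ g m)
  memR : ∀ x ∈ XT μ g m, ∀ a, K x a = a → R x a ∈ G.KS x.1
  surjR : ∀ x ∈ XT μ g m, ∀ u ∈ G.KS x.1, ∃ a, K x a = a ∧ R x a = u
  N' : ℕ
  P : (E × E) × CM m → RN N' →L[ℝ] RN N'
  cP : ContinuousOn P (XT μ g m)
  idP : ∀ x ∈ XT μ g m, ∀ a, P x (P x a) = P x a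
  rkP : ∀ x ∈ XT μ g m, Module.finrank ℝ (LinearMap.range (P x : RN N' →ₗ[ℝ] RN N')) = 8
  invP : ∀ t, ∀ x ∈ XT μ g m, P (G.f2 t x) = P x
  R' : (E × E) × CM m → RN N' →L[ℝ] E
  cR' : ContinuousOn R' (XT μ g m)
  tanR' : ∀ x ∈ XT μ g m, ∀ a, P x a = a → μ.P x.1.1 (R' x a) = R' x a
  injR' : ∀ x ∈ XT μ g m, ∀ a, P x a = a → R' x a ∈ G.WS x.1 → a = 0
  X1 : (E × E) × CM m → RN N →L[ℝ] E
  Y1 : (E × E) × CM m → RN N →L[ℝ] E
  X2 : (E × E) × CM m → (RN N × RN N) × RN N' →L[ℝ] E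
  Y2 : (E × E) × CM m → (RN N × RN N) × RN N' →L[ℝ] E
  cX : ContinuousOn (fld X1 X2) (tt2 (XT μ g m) K P)
  tan : ∀ z ∈ tt2 (XT μ g m) K P, μ.P z.1.1.1 (fld X1 X2 z) = fld X1 X2 z
  perp : ∀ z ∈ tt2 (XT μ g m) K P, g z.1.1.1 z.1.1.2 (fld X1 X2 z) = 0
  der : ∀ z ∈ tt2 (XT μ g m) K P,
    HasDerivWithinAt (fun t => fld X1 X2 (G.fl t z)) (fld Y1 Y2 z) (Ici 0) 0
  rc : ∀ z ∈ tt2 (XT μ g m) K P, ContinuousWithinAt (fun t => fld Y1 Y2 (G.fl t z)) (Ici 0) 0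
  C : ℝ
  bd : ∀ z ∈ tt2 (XT μ g m) K P, ‖fld Y1 Y2 z‖ ≤ C * ‖z.2‖
  cQ : ContinuousOn (fun y : (((E × E) × CM m) × FB N N') × ℝ => ∫ t in (0 : ℝ)..y.2,
    q2 g (G.fl t y.1).1.1 (fld X1 X2 (G.fl t y.1)) (fld Y1 Y2 (G.fl t y.1)))
    (tt2 (XT μ g m) K P ×ˢ univ)
  δ : ℝ
  δ_pos : 0 < δ
  neg : ∀ z ∈ tt2 (XT μ g m) K P, ∫ t in (0 : ℝ)..2 * π,
    q2 g (G.fl t z).1.1 (fld X1 X2 (G.fl t z)) (fld Y1 Y2 (G.fl t z)) ≤ -(δ * ‖z.2‖ ^ 2)
  tr : ∀ z ∈ tt2 (XT μ g m) K P, ∀ δ₁ δ₂ : E × E, fld X1 X2 (G.fl π z) = fld X1 X2 z →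
    G.JJ 0 z.1.1 δ₁ = fld X1 X2 z → G.JJ (π / 2) z.1.1 δ₁ = fld X1 X2 (G.fl (π / 2) z) →
    G.JJ 0 z.1.1 δ₂ = fld X1 X2 z → G.JJ (π / 2) z.1.1 δ₂ = fld X1 X2 (G.fl (3 * π / 2) z) → z.2 = 0

end Pool.Agent.Work.MP_8c604c_gt.O
end
end

-- merged part: Pool.Agent.Work.MP_8c604c_gt.OB.Lp
section
/-!
Closed geodesics as loops.
-/

set_option maxSynthPendingDepth 3
set_option linter.unusedSectionVars false

open Set Filter Topology MeasureTheory
open scoped ContDiff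

noncomputable section
namespace Pool.Agent.Work.MP_8c604c_gt.O

open OT Real Model
open T (RN cs)
open B (mkL mkL_per continuousOn_mkL loop_ext desc desc₀)

variable {E : Type} [NormedAddCommGroup E] [InnerProductSpace ℝ E] [FiniteDimensional ℝ E] {d : ℕ}
  {μ : Model E d} {g : Met E} {m : ℕ} {G : Geo μ g}

/-- The velocity of a loop at time `0`. -/
def vl (c : LM E) : E := deriv (fun t => c (cs t)) 0

/-- The initial condition of a loop. -/
def sec (c : LM E) : E × E := (c 1, vl c)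

/-- The closed geodesic of `x` as a loop. -/
def Geo.lp (G : Geo μ g) (x : E × E) : LM E := mkL fun t => G.Z t x

/-- The set of closed geodesics. -/
def Geo.SS (G : Geo μ g) : Set (LM E) := G.lp '' UT μ g

theorem shc (s t : ℝ) (c : LM E) : sh (cs s) c (cs t) = c (cs (t + s)) := by
  rw [B.cs_add, mul_comm]; rfl

theorem dbc (t : ℝ) (c : LM E) : db c (cs t) = c (cs (2 * t)) := by
  rw [two_mul, B.cs_add]; rfl

theorem cs_cs (t : ℝ) : cs t * cs t = cs (2 * t) := by rw [two_mul, B.cs_add]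

theorem cs_exp (t : ℝ) : cs t = Circle.exp (2 * t) := rfl

theorem UT_OO {x : E × E} (hx : x ∈ UT μ g) : x ∈ μ.OO := TT_OO hx.1

theorem vel_UT {x : E × E} (hx : x ∈ UT μ g) : vel g x = x.2 := by
  rw [vel, hx.2, inv_one, one_smul]

theorem IsMetric.unit_UT (h : IsMetric μ g) {x : E × E} (hx : x ∈ μ.TT) : (x.1, vel g x) ∈ UT μ g :=
  ⟨h.vel_mem_TT hx, (h.unit_mem hx.1.1 (h.vel_unit (TT_OO hx))).2.1⟩

theorem IsMetric.g_UT (h : IsMetric μ g) {x : E × E} (hx : x ∈ UT μ g) : g x.1 x.2 x.2 = 1 := by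
  rw [← vel_UT hx]; exact h.vel_unit (UT_OO hx)

theorem IsMetric.psi_UT (h : IsMetric μ g) (t : ℝ) {x : E × E} (hx : x ∈ UT μ g) :
    G.psi t x ∈ UT μ g :=
  ⟨G.psi_TT h t (UT_OO hx), (G.spd_psi t (UT_OO hx)).trans hx.2⟩

theorem IsMetric.isCompact_UT (h : IsMetric μ g) : IsCompact (UT μ g) := by
  have h1 := h.isCompact_ball 1
  have c : ContinuousOn (fun x : E × E => g x.1 x.2 x.2) {x ∈ μ.TM | spd g x ≤ 1} :=
    ((h.smooth.continuousOn.comp continuous_fst.continuousOn fun x hx => hx.1.1.1).clm_apply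
      continuous_snd.continuousOn).clm_apply continuous_snd.continuousOn
  have e : UT μ g = {x ∈ μ.TM | spd g x ≤ 1} ∩ (fun x : E × E => g x.1 x.2 x.2) ⁻¹' {1} := by
    ext x
    refine ⟨fun hx => ⟨⟨TT_TM hx.1, hx.2.le⟩, h.g_UT hx⟩, fun hx => ?_⟩
    have h2 := h.unit_mem hx.1.1.1.1 hx.2
    exact ⟨mem_TT hx.1.1 h2.1, h2.2.1⟩
  rw [e]
  exact h1.of_isClosed_subset (c.preimage_isClosed_of_isClosed h1.isClosed isClosed_singleton)
    inter_subset_left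

namespace Bl
variable (hB : Bl g G)
include hB

theorem lp_cs {x : E × E} (hx : x ∈ μ.OO) (t : ℝ) : G.lp x (cs t) = G.Z t x :=
  mkL_per (c := fun t => G.Z t x) (G.nc_cont_Z hB.met hx).continuousOn (fun s => hB.Z_add_pi s hx) t

theorem lp_one {x : E × E} (hx : x ∈ μ.TT) : G.lp x 1 = x.1 := by
  rw [← B.cs_zero, hB.lp_cs (TT_OO hx), G.Z_zero' hx]

theorem continuousOn_lp : ContinuousOn G.lp μ.OO := by
  refine continuousOn_mkL (F := fun p : (E × E) × ℝ => G.Z p.2 p.1) ?_ fun p hp => ?_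
  · exact (G.contDiffOn_Z hB.met).continuousOn.comp continuous_swap.continuousOn fun p hp => hp.1
  · change G.Z 0 p = G.Z π p
    rw [← hB.lp_cs hp, ← hB.lp_cs hp, B.cs_zero, B.cs_pi]

theorem lp_vel {x : E × E} (hx : x ∈ μ.OO) : G.lp (x.1, vel g x) = G.lp x :=
  loop_ext fun t _ => by
    rw [hB.lp_cs (hB.met.vel_mem_OO hx), hB.lp_cs hx, G.Z_vel hB.met t hx]

theorem lp_congr {x x' : E × E} (hx : x ∈ μ.OO) (hx' : x' ∈ μ.OO) (h1 : x'.1 = x.1)
    (h2 : vel g x' = vel g x) : G.lp x' = G.lp x := by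
  rw [← hB.lp_vel hx, ← hB.lp_vel hx', h1, h2]

theorem sh_lp {x : E × E} (hx : x ∈ μ.OO) (t : ℝ) : sh (cs t) (G.lp x) = G.lp (G.psi t x) :=
  loop_ext fun s _ => by
    rw [shc, hB.lp_cs hx, hB.lp_cs (G.psi_mem hB.met t hx), G.Z_add s t hx]

theorem vl_lp {x : E × E} (hx : x ∈ μ.TT) : vl (G.lp x) = vel g x := by
  have h1 := G.hasDerivAt_Z hB.met 0 (TT_OO hx)
  rw [G.psi_zero' hx] at h1
  rw [vl, funext (hB.lp_cs (TT_OO hx))]
  exact h1.deriv

theorem sec_lp {x : E × E} (hx : x ∈ UT μ g) : sec (G.lp x) = x := by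
  rw [sec, hB.lp_one hx.1, hB.vl_lp hx.1, vel_UT hx]

theorem sec_mem {c : LM E} (hc : c ∈ G.SS) : sec c ∈ UT μ g := by
  obtain ⟨x, hx, rfl⟩ := hc
  rwa [hB.sec_lp hx]

theorem lp_sec {c : LM E} (hc : c ∈ G.SS) : G.lp (sec c) = c := by
  obtain ⟨x, hx, rfl⟩ := hc
  rw [hB.sec_lp hx]

theorem lp_mem {x : E × E} (hx : x ∈ μ.TT) : G.lp x ∈ G.SS :=
  ⟨_, hB.met.unit_UT hx, hB.lp_vel (TT_OO hx)⟩

theorem isCompact_SS : IsCompact G.SS :=
  hB.met.isCompact_UT.image_of_continuousOn (hB.continuousOn_lp.mono fun _ hx => UT_OO hx)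

theorem sec_sh (t : ℝ) {c : LM E} (hc : c ∈ G.SS) : sec (sh (cs t) c) = G.psi t (sec c) := by
  obtain ⟨x, hx, rfl⟩ := hc
  rw [hB.sh_lp (UT_OO hx), hB.sec_lp hx, hB.sec_lp (hB.met.psi_UT t hx)]

theorem sh_mem (θ : Circle) {c : LM E} (hc : c ∈ G.SS) : sh θ c ∈ G.SS := by
  obtain ⟨x, hx, rfl⟩ := hc
  obtain ⟨t, -, rfl⟩ := B.exists_cs θ
  exact ⟨_, hB.met.psi_UT t hx, (hB.sh_lp (UT_OO hx) t).symm⟩

theorem continuousOn_sec : ContinuousOn sec G.SS :=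
  desc₀ hB.met.isCompact_UT (hB.continuousOn_lp.mono fun _ hx => UT_OO hx) Subset.rfl
    (continuousOn_id.congr fun _ hy => hB.sec_lp hy.1)

theorem continuousOn_vl : ContinuousOn vl G.SS := continuous_snd.comp_continuousOn hB.continuousOn_sec

theorem SS_cs {c : LM E} (hc : c ∈ G.SS) (t : ℝ) : c (cs t) = G.Z t (sec c) := by
  rw [← hB.lp_cs (UT_OO (hB.sec_mem hc)), hB.lp_sec hc]

theorem vl_sh {c : LM E} (hc : c ∈ G.SS) (t : ℝ) : vl (sh (cs t) c) = (G.psi t (sec c)).2 :=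
  congrArg Prod.snd (hB.sec_sh t hc)

/-- The geodesics linked to the geodesic of `x`. -/
theorem lk_iff {x : E × E} (hx : x ∈ μ.TT) {c : LM E} (hc : c ∈ G.SS) :
    Lk (G.lp x) c ↔ c 1 = x.1 ∧ vl c ∈ G.WS x := by
  have h1 := hB.sec_mem hc
  rw [Lk, hB.lp_one hx, hB.lp_cs (TT_OO hx), hB.SS_cs hc]
  refine and_congr_right fun e => ?_
  have e1 : sec c = (x.1, vl c) := by rw [sec, e]
  rw [e1] at h1 ⊢
  rw [hB.link_iff hx (UT_OO h1), Geo.mem_WS]
  exact ⟨fun h => ⟨h1.1.2.1, h⟩, fun h => h.2⟩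

/-- The directions toward the cut point. -/
theorem mem_WS_lk {x : E × E} (hx : x ∈ μ.TT) (u : E) :
    u ∈ G.WS x ↔ ∃ c ∈ G.SS, Lk (G.lp x) c ∧ ∃ r : ℝ, 0 ≤ r ∧ u = r • vl c := by
  refine ⟨fun hu => ?_, ?_⟩
  · by_cases e : u = 0
    · exact ⟨_, hB.lp_mem hx, ⟨rfl, rfl⟩, 0, le_rfl, by rw [e, zero_smul]⟩
    have hw : (x.1, u) ∈ μ.TT := ⟨hx.1, (Geo.mem_WS.1 hu).1, e⟩
    refine ⟨_, hB.lp_mem hw, (hB.lk_iff hx (hB.lp_mem hw)).2 ⟨hB.lp_one hw, ?_⟩, _,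
      (hB.met.spd_pos (TT_OO hw)).le, ?_⟩
    · rw [hB.vl_lp hw]; exact Submodule.smul_mem _ _ hu
    · rw [hB.vl_lp hw]; exact hB.met.snd_eq (TT_OO hw)
  · rintro ⟨c, hc, hl, r, -, rfl⟩
    exact Submodule.smul_mem _ _ ((hB.lk_iff hx hc).1 hl).2

end Bl

end Pool.Agent.Work.MP_8c604c_gt.O
end
end
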