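import Pool.Agent.Work.MP_8c604c_gt.OB.PuM

/-!
The output of block B: a Blaschke metric gives the data of the topology side.
-/

set_option maxSynthPendingDepth 3
set_option linter.unusedSectionVars false

open Set Filter Topology MeasureTheory
open scoped ContDiff

noncomputable section
namespace Pool.Agent.Work.MP_8c604c_gt.O

open OT Real Model
open T (RN cs)

variable {E : Type} [NormedAddCommGroup E] [InnerProductSpace ℝ E] [FiniteDimensional ℝ E]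
  {μ : Model E 16} {g : Met E} {m : ℕ} {G : Geo μ g}

namespace Bl
variable (hB : Bl g G)
include hB

theorem exists_TD0 : ∃ k, Nonempty (TD0 μ.mf k) ∧ ∀ x ∈ μ.TT, G.kk x = k := by
  obtain ⟨z, hz⟩ := μ.M_nonempty
  obtain ⟨u, hu⟩ := exists_tan hz
  have hk : ∀ x ∈ μ.TT, G.kk x = G.kk (z, u) := fun x hx => hB.kk_const hx hu
  exact ⟨_, ⟨hB.td0 hk⟩, hk⟩

theorem exists_TD (hk : ∀ x ∈ μ.TT, G.kk x = 7) (hb : G.Bil0) (D : ND2 G m) {F : E × E → Fin 16 → ℂ}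
    (F1 : ContinuousOn F μ.TT) (F2 : ∀ r : ℝ, 0 < r → ∀ x ∈ μ.TT, F (sc r x) = F x)
    (F3 : ∀ x ∈ μ.TT, F x ≠ 0)
    (F4 : ∀ t, ∀ x ∈ μ.TT, F (G.psi t x) = Complex.exp (2 * t * Complex.I) • F x) :
    ∃ T : TD μ.mf m, (∀ c, c ∈ T.S ↔ ∃ x ∈ μ.TT, c = G.lp x) ∧
      ∀ x ∈ μ.TT, G.lp x 1 = x.1 ∧ T.vel (G.lp x) = vel g x ∧ T.Φ (G.lp x) = F x := by
  obtain ⟨ε, κ, h⟩ := D.exists_sm hB
  obtain ⟨XL, hX⟩ := D.exists_XL hB
  have hs : ∀ x : LM E × CM m, x ∈ G.SS ×ˢ Sp m → (sec x.1, x.2) ∈ XT μ g m := fun x hx =>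
    ⟨hB.sec_mem hx.1, hx.2⟩
  have cs' : ContinuousOn (fun x : LM E × CM m => (sec x.1, x.2)) (G.SS ×ˢ Sp m) :=
    (hB.continuousOn_sec.comp continuous_fst.continuousOn fun _ hx => hx.1).prodMk
      continuous_snd.continuousOn
  refine ⟨{ hB.td1 hk hb with
    N := D.N
    K := D.KL
    cK := D.cKL hB
    idK := fun x hx => D.idK _ (hs x hx)
    syK := fun x hx => D.syK _ (hs x hx)
    rkK := fun x hx => D.rkK _ (hs x hx)
    invK := fun θ _ hx => D.invKL hB θ hx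
    B := fun x => D.R (sec x.1, x.2)
    cB := D.cR.comp cs' hs
    BW := fun _ hx => D.BW hB hx
    N' := D.N'
    P := D.PL
    cP := D.cPL hB
    idP := fun x hx => D.idP _ (hs x hx)
    rkP := fun x hx => D.rkP _ (hs x hx)
    invP := fun θ _ hx => D.invPL hB θ hx
    B' := fun x => D.R' (sec x.1, x.2)
    cB' := D.cR'.comp cs' hs
    tanB' := fun x hx a ha => ⟨(hB.sec_mem hx.1).1.1, D.tanR' _ (hs x hx) a ha⟩
    BW' := fun _ hx _ ha _ hc hl _ e => D.BW' hB hx ha hc hl e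
    pu1 := D.pu1 ε κ
    c1 := D.c1 hB h
    mem1 := D.mem1 hB h
    zero1 := fun _ hx => D.zero1 hB h hx
    lt1 := fun _ _ h0 => D.lt1 hB h h0
    eq1 := fun θ _ hz => D.eq1 hB h θ hz
    pu2 := D.pu2 ε κ
    c2 := D.c2 hB h
    mem2 := D.mem2 hB h
    zero2 := fun _ hx => D.zero2 hB h hx
    lt2 := fun _ _ h0 => D.lt2 hB h h0
    eq2 := fun θ _ hz => D.eq2 hB h θ hz
    one := fun _ hx _ ha => D.one hB h hx ha
    X2 := XL
    tan2 := fun _ hx v θ => D.tan2 hB hX hx v θ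
    nor2 := fun _ _ hz θ => D.nor2 hB hX hz θ
    exp2 := fun _ _ _ hη => D.exp2 hB h hX hη
    tr2 := fun _ _ hz h0 h1 h2 => D.tr2 hB hX hz h0 h1 h2
    Φ := fun c => F (sec c)
    cΦ := F1.comp hB.continuousOn_sec fun _ hc => (hB.sec_mem hc).1
    eqΦ := ?_
    neΦ := fun c hc => F3 _ (hB.sec_mem hc).1 }, fun c => ⟨?_, ?_⟩, fun x hx =>
      ⟨hB.lp_one hx, hB.vl_lp hx, ?_⟩⟩
  · intro θ c hc
    obtain ⟨t, -, rfl⟩ := B.exists_cs θ
    rw [hB.sec_sh t hc, F4 t _ (hB.sec_mem hc).1, B.coe_cs]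
  · rintro ⟨y, hy, e⟩
    exact ⟨y, hy.1, e.symm⟩
  · rintro ⟨y, hy, rfl⟩
    exact hB.lp_mem hy
  · change F (sec (G.lp x)) = F x
    rw [← hB.lp_vel (TT_OO hx), hB.sec_lp (hB.met.unit_UT hx)]
    exact F2 _ (inv_pos.2 (hB.met.spd_pos (TT_OO hx))) x hx

end Bl

end Pool.Agent.Work.MP_8c604c_gt.O
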