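import Pool.Agent.Work.MP_8c604c_gt.OB.Lp

-- merged part: Pool.Agent.Work.MP_8c604c_gt.OB.PuB
section
-- merged part: Pool.Agent.Work.MP_8c604c_gt.OB.PuD
section
/-!
The push of the double covers of the closed geodesics: definitions, the flow, bounds.
The pushed curve is `t ↦ r (pt (fl t z))`; the tangential correction `al` makes its speed less than one at all times.
Plan. rot (exp t) is a rotation, nn is invariant. fl_mem: invK at (x, w * w) (sq2 (f2 t x) = f1 t (sq2 x), w * w ∈ Sp: the sup norm of w * w is the square), K is linear, invP.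
X_le: X is continuous on the compact set of z ∈ U with nn z.2 = 1 (closed in the compact set XT ×ˢ closedBall) and X (x, r • v) = r • X (x, v).
q_le: the second derivative of Lg g is bounded on the compact set UT (nc_cont_D2).
-/

set_option maxSynthPendingDepth 3
set_option linter.unusedSectionVars false

open Set Filter Topology MeasureTheory
open scoped ContDiff

noncomputable section
namespace Pool.Agent.Work.MP_8c604c_gt.O

open OT Real Model
open T (RN cs)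
open B (mkL mkL_per continuousOn_mkL loop_ext desc desc₀)

variable {E : Type} [NormedAddCommGroup E] [InnerProductSpace ℝ E] [FiniteDimensional ℝ E] {d : ℕ}
  {μ : Model E d} {g : Met E} {m : ℕ} {G : Geo μ g}

/-- The Euclidean norm of the fibre. -/
def nn {N N' : ℕ} (v : FB N N') : ℝ := √(‖v.1‖ ^ 2 + ‖v.2.1.1‖ ^ 2 + ‖v.2.1.2‖ ^ 2 + ‖v.2.2‖ ^ 2)

/-- The radial retraction onto the ball of radius `ε`. -/
def cl {N N' : ℕ} (ε : ℝ) (v : FB N N') : FB N N' := (ε / max ε (nn v)) • v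

/-- A square root. -/
def rt (w : CM m) : CM m := fun i => w i ^ ((2 : ℕ) : ℂ)⁻¹

/-- Loops with a Lipschitz constant. -/
def Lam0 (μ : Model E d) (g : Met E) : Set (LM E × ℝ) :=
  {x | (∀ θ, x.1 θ ∈ μ.M) ∧ x.2 ∈ Icc (0 : ℝ) 2 ∧
    ∀ s t, dd μ g (x.1 (cs s)) (x.1 (cs t)) ≤ x.2 * |s - t|}

/-- The space of the parameters. -/
abbrev TZ (E : Type) (m N N' : ℕ) : Type := ((E × E) × CM m) × FB N N'

section nn
variable {N N' : ℕ}

theorem nn_nonneg (v : FB N N') : 0 ≤ nn v :=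
  Real.sqrt_nonneg _

theorem continuous_nn : Continuous (nn : FB N N' → ℝ) := by
  unfold nn
  fun_prop

theorem norm_le_nn (v : FB N N') : ‖v‖ ≤ nn v := by
  have h1 := sq_nonneg ‖v.1‖
  have h2 := sq_nonneg ‖v.2.1.1‖
  have h3 := sq_nonneg ‖v.2.1.2‖
  have h4 := sq_nonneg ‖v.2.2‖
  refine norm_prod_le_iff.2 ⟨?_, norm_prod_le_iff.2 ⟨norm_prod_le_iff.2 ⟨?_, ?_⟩, ?_⟩⟩ <;>
    exact Real.le_sqrt_of_sq_le (by linarith only [h2, h3, h4, h1])

theorem nn_le (v : FB N N') : nn v ≤ 2 * ‖v‖ := by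
  have h0 := norm_nonneg v
  have h1 := pow_le_pow_left₀ (norm_nonneg _) (norm_fst_le v) 2
  have h2 := pow_le_pow_left₀ (norm_nonneg _)
    ((norm_fst_le v.2.1).trans ((norm_fst_le v.2).trans (norm_snd_le v))) 2
  have h3 := pow_le_pow_left₀ (norm_nonneg _)
    ((norm_snd_le v.2.1).trans ((norm_fst_le v.2).trans (norm_snd_le v))) 2
  have h4 := pow_le_pow_left₀ (norm_nonneg _) ((norm_snd_le v.2).trans (norm_snd_le v)) 2
  exact Real.sqrt_le_iff.2 ⟨by positivity, by linarith only [h1, h2, h3, h4]⟩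

theorem nn_pos {v : FB N N'} (h : v ≠ 0) : 0 < nn v :=
  (norm_pos_iff.2 h).trans_le (norm_le_nn v)

theorem nn_zero : nn (0 : FB N N') = 0 := by
  simp [nn]

theorem nn_smul (r : ℝ) (v : FB N N') : nn (r • v) = |r| * nn v := by
  rw [nn, nn, ← Real.sqrt_sq_eq_abs, ← Real.sqrt_mul (sq_nonneg r)]
  simp only [Prod.smul_fst, Prod.smul_snd, norm_smul, mul_pow, Real.norm_eq_abs, sq_abs, mul_add]

theorem PuD_rot (θ : Circle) (n : RN N × RN N) :
    ‖(rot θ n).1‖ ^ 2 + ‖(rot θ n).2‖ ^ 2 = ‖n.1‖ ^ 2 + ‖n.2‖ ^ 2 := by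
  have h : (θ : ℂ).re * (θ : ℂ).re + (θ : ℂ).im * (θ : ℂ).im = 1 := Circle.normSq_coe θ
  simp only [rot, norm_sub_sq_real, norm_add_sq_real, norm_smul, mul_pow, Real.norm_eq_abs, sq_abs,
    real_inner_smul_left, real_inner_smul_right]
  linear_combination (‖n.1‖ ^ 2 + ‖n.2‖ ^ 2) * h

theorem nn_rot (θ : Circle) (v : FB N N') : nn (v.1, rot θ v.2.1, v.2.2) = nn v := by
  have h := PuD_rot θ v.2.1
  unfold nn
  exact congrArg Real.sqrt (by linarith only [h])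

theorem rot_one {A : Type} [AddCommGroup A] [Module ℝ A] (n : A × A) : rot 1 n = n := by
  simp [rot]

theorem rot_mul {A : Type} [AddCommGroup A] [Module ℝ A] (θ η : Circle) (n : A × A) :
    rot (θ * η) n = rot θ (rot η n) := by
  simp only [rot, Circle.coe_mul, Complex.mul_re, Complex.mul_im]
  refine Prod.ext ?_ ?_ <;> dsimp only <;> module

theorem rot_smul {A : Type} [AddCommGroup A] [Module ℝ A] (θ : Circle) (r : ℝ) (n : A × A) :
    rot θ (r • n) = r • rot θ n := by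
  simp only [rot, Prod.smul_fst, Prod.smul_snd, Prod.smul_mk]
  refine Prod.ext ?_ ?_ <;> dsimp only <;> module

theorem rot_add {A : Type} [AddCommGroup A] [Module ℝ A] (θ : Circle) (n n' : A × A) :
    rot θ (n + n') = rot θ n + rot θ n' := by
  simp only [rot, Prod.fst_add, Prod.snd_add, Prod.mk_add_mk]
  refine Prod.ext ?_ ?_ <;> dsimp only <;> module

theorem continuous_cl {ε : ℝ} (hε : 0 < ε) : Continuous (cl ε : FB N N' → FB N N') :=
  (continuous_const.div (continuous_const.max continuous_nn)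
    fun _ => (hε.trans_le (le_max_left _ _)).ne').smul continuous_id

theorem nn_cl_le {ε : ℝ} (hε : 0 < ε) (v : FB N N') : nn (cl ε v) ≤ ε := by
  have h : 0 < max ε (nn v) := hε.trans_le (le_max_left _ _)
  rw [cl, nn_smul, abs_of_pos (div_pos hε h), div_mul_eq_mul_div, div_le_iff₀ h]
  exact mul_le_mul_of_nonneg_left (le_max_right _ _) hε.le

theorem cl_ne {ε : ℝ} (hε : 0 < ε) {v : FB N N'} (h : v ≠ 0) : cl ε v ≠ 0 :=
  smul_ne_zero (div_pos hε (hε.trans_le (le_max_left _ _))).ne' h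

theorem cl_of_le {ε : ℝ} (hε : 0 < ε) {v : FB N N'} (h : nn v ≤ ε) : cl ε v = v := by
  rw [cl, max_eq_left h, div_self hε.ne', one_smul]

theorem cl_rot (ε : ℝ) (θ : Circle) (v : FB N N') :
    cl ε (v.1, rot θ v.2.1, v.2.2) = ((cl ε v).1, rot θ (cl ε v).2.1, (cl ε v).2.2) := by
  rw [cl, nn_rot, cl, Prod.smul_mk, Prod.smul_mk, ← rot_smul]
  rfl

theorem rt_sq (w : CM m) : rt w * rt w = w := by
  funext i
  rw [Pi.mul_apply, ← sq]
  exact Complex.cpow_nat_inv_pow _ two_ne_zero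

theorem PuD_norm_sq (w : CM m) : ‖w * w‖ = ‖w‖ * ‖w‖ := by
  refine le_antisymm (norm_mul_le w w) ?_
  have h : ‖w‖ ≤ √‖w * w‖ := (pi_norm_le_iff_of_nonneg (Real.sqrt_nonneg _)).2 fun i =>
    Real.le_sqrt_of_sq_le (by
      rw [sq, ← norm_mul]
      exact norm_le_pi_norm (w * w) i)
  rw [← sq]
  exact (Real.le_sqrt (norm_nonneg _) (norm_nonneg _)).1 h

theorem PuD_smul_mem (θ : Circle) {w : CM m} (h : w ∈ Sp m) : (θ : ℂ) • w ∈ Sp m := by
  rw [Sp, mem_sphere_zero_iff_norm] at h ⊢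
  rw [norm_smul, h, Circle.norm_coe, one_mul]

theorem PuD_rot_zero {A : Type} [AddCommGroup A] [Module ℝ A] (θ : Circle) :
    rot θ (0 : A × A) = 0 := by
  simp [rot]

theorem sq_mem {w : CM m} : w * w ∈ Sp m ↔ w ∈ Sp m := by
  rw [Sp, mem_sphere_zero_iff_norm, mem_sphere_zero_iff_norm, PuD_norm_sq, mul_self_eq_one_iff]
  exact ⟨fun h => h.resolve_right fun k => by linarith [norm_nonneg w], Or.inl⟩

theorem sq2_f2 (t : ℝ) (x : (E × E) × CM m) : sq2 (G.f2 t x) = G.f1 t (sq2 x) := by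
  refine Prod.ext rfl ?_
  simp only [sq2, Geo.f2, Geo.f1, two_mul, Circle.exp_add, Circle.coe_mul, smul_mul_smul_comm]

theorem nn_fl (t : ℝ) (z : TZ E m N N') : nn (G.fl t z).2 = nn z.2 :=
  nn_rot _ z.2

theorem fl_smul (t r : ℝ) (z : TZ E m N N') :
    G.fl t (z.1, r • z.2) = ((G.fl t z).1, r • (G.fl t z).2) := by
  simp only [Geo.fl, Prod.smul_fst, Prod.smul_snd, rot_smul, Prod.smul_mk]

end nn

namespace ND2
variable (D : ND2 G m)

/-- The total space. -/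
def U : Set (TZ E m D.N D.N') := tt2 (XT μ g m) D.K D.P

/-- The field. -/
def X (z : TZ E m D.N D.N') : E := fld D.X1 D.X2 z

/-- Its right derivative. -/
def Y (z : TZ E m D.N D.N') : E := fld D.Y1 D.Y2 z

/-- The density of the index form. -/
def q (z : TZ E m D.N D.N') : ℝ := q2 g z.1.1 (D.X z) (D.Y z)

/-- Its primitive along the flow. -/
def Q (z : TZ E m D.N D.N') (t : ℝ) : ℝ := ∫ s in (0 : ℝ)..t, D.q (G.fl s z)

/-- Its mean. -/
def qb (z : TZ E m D.N D.N') : ℝ := D.Q z (2 * π) / (2 * π)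

/-- The tangential correction. -/
def al (z : TZ E m D.N D.N') : ℝ := (∫ t in (0 : ℝ)..2 * π, (D.Q z t - t * D.qb z)) / (4 * π)

/-- The pushed point. -/
def pt (z : TZ E m D.N D.N') : E := z.1.1.1 + D.X z + D.al z • z.1.1.2

/-- The push of size at most `ε` shortens. -/
structure Sm (ε κ : ℝ) : Prop where
  ε0 : 0 < ε
  κ0 : 0 < κ
  le : κ * ε ^ 2 ≤ 1
  mem : ∀ z ∈ D.U, nn z.2 ≤ ε → D.pt z ∈ μ.U
  lip : ∀ z ∈ D.U, nn z.2 ≤ ε → ∀ s t,
    dd μ g (D.pt (G.fl s z)) (D.pt (G.fl t z)) ≤ (1 - κ * nn z.2 ^ 2) * |s - t|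

/-- The first bundle over the loops. -/
def KL (x : LM E × CM m) : RN D.N →L[ℝ] RN D.N := D.K (sec x.1, x.2)

/-- The second bundle over the loops. -/
def PL (x : LM E × CM m) : RN D.N' →L[ℝ] RN D.N' := D.P (sec x.1, x.2)

/-- The push of the double covers. -/
def pu2 (ε κ : ℝ) (z : (LM E × CM m) × FB D.N D.N') : LM E × ℝ :=
  (mkL fun s => μ.r (D.pt (G.fl (2 * s) ((sec z.1.1, z.1.2), cl ε z.2))), 2 * (1 - κ * nn (cl ε z.2) ^ 2))

/-- The push of the closed geodesics. -/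
def pu1 (ε κ : ℝ) (z : (LM E × CM m) × RN D.N) : LM E × ℝ :=
  (mkL fun t => μ.r (D.pt (G.fl t ((sec z.1.1, rt z.1.2), cl ε (z.2, 0)))),
    1 - κ * nn (cl ε ((z.2, 0) : FB D.N D.N')) ^ 2)

/-- `XL` is the linearisation of the push. -/
def IsXL (XL : LM E × CM m → FB D.N D.N' →L[ℝ] LM E) : Prop :=
  ∀ x ∈ G.SS ×ˢ Sp m, ∀ v, ∃ v', ((sec x.1, x.2), v') ∈ D.U ∧ (((sec x.1, x.2), v) ∈ D.U → v' = v) ∧
    ∀ s, XL x v (cs s) = D.X (G.fl (2 * s) ((sec x.1, x.2), v'))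

theorem smul_mem {z : TZ E m D.N D.N'} (hz : z ∈ D.U) (r : ℝ) : (z.1, r • z.2) ∈ D.U := by
  obtain ⟨h0, h1, h2, h3, h4⟩ := hz
  refine ⟨h0, ?_, ?_, ?_, ?_⟩ <;>
    simp only [Prod.smul_fst, Prod.smul_snd, map_smul, h1, h2, h3, h4]

theorem add_mem {x : (E × E) × CM m} {v v' : FB D.N D.N'} (h : (x, v) ∈ D.U) (h' : (x, v') ∈ D.U) :
    (x, v + v') ∈ D.U := by
  obtain ⟨h0, h1, h2, h3, h4⟩ := h
  obtain ⟨-, k1, k2, k3, k4⟩ := h'
  dsimp only at h1 h2 h3 h4 k1 k2 k3 k4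
  refine ⟨h0, ?_, ?_, ?_, ?_⟩ <;>
    simp only [Prod.fst_add, Prod.snd_add, map_add, h1, h2, h3, h4, k1, k2, k3, k4]

theorem X_smul (z : TZ E m D.N D.N') (r : ℝ) : D.X (z.1, r • z.2) = r • D.X z := by
  simp only [X, fld, Prod.smul_fst, Prod.smul_snd, map_smul, smul_add]

theorem X_add (x : (E × E) × CM m) (v v' : FB D.N D.N') : D.X (x, v + v') = D.X (x, v) + D.X (x, v') := by
  simp only [X, fld, Prod.fst_add, Prod.snd_add, map_add]
  abel

/-- On the first summand the push depends on the square of the sphere coordinate only. -/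
theorem pt_sq {x : E × E} {w w' : CM m} (e : w * w = w' * w') (a : RN D.N) :
    D.pt ((x, w), a, 0) = D.pt ((x, w'), a, 0) := by
  have h : ∀ (A : (E × E) × CM m → RN D.N →L[ℝ] E)
      (B : (E × E) × CM m → (RN D.N × RN D.N) × RN D.N' →L[ℝ] E) (y y' : (E × E) × CM m),
      sq2 y = sq2 y' → fld A B (y, a, 0) = fld A B (y', a, 0) := fun A B y y' k => by
    simp only [fld, k, map_zero]
  have h0 : sq2 (x, w) = sq2 (x, w') := Prod.ext rfl e
  have h1 : ∀ (s : ℝ) (y : (E × E) × CM m),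
      G.fl s ((y, a, 0) : TZ E m D.N D.N') = (G.f2 s y, a, 0) := fun s y => by
    simp only [Geo.fl, Prod.fst_zero, Prod.snd_zero, PuD_rot_zero, Prod.mk_zero_zero]
  have h2 : ∀ s : ℝ, D.q (G.fl s ((x, w), a, 0)) = D.q (G.fl s ((x, w'), a, 0)) := fun s => by
    have k : sq2 (G.f2 s (x, w)) = sq2 (G.f2 s (x, w')) := by rw [sq2_f2, sq2_f2, h0]
    rw [h1, h1, q, q, X, X, Y, Y, h _ _ _ _ k, h _ _ _ _ k]
    rfl
  simp only [pt, al, qb, Q, h2, X, h _ _ _ _ h0]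

variable (hB : Bl g G)
include hB

theorem fl_mem (t : ℝ) {z : TZ E m D.N D.N'} (hz : z ∈ D.U) : G.fl t z ∈ D.U := by
  obtain ⟨h0, h1, h2, h3, h4⟩ := hz
  have k : D.K (sq2 (G.f2 t z.1)) = D.K (sq2 z.1) := by
    rw [sq2_f2]
    exact D.invK t _ ⟨h0.1, sq_mem.2 h0.2⟩
  refine ⟨⟨hB.met.psi_UT t h0.1, PuD_smul_mem _ h0.2⟩, ?_, ?_, ?_, ?_⟩ <;>
    simp only [Geo.fl, rot, k, map_sub, map_add, map_smul, h1, h2, h3, h4, D.invP t _ h0]

theorem fl_zero {z : TZ E m D.N D.N'} (hz : z ∈ D.U) : G.fl 0 z = z := by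
  simp only [Geo.fl, Geo.f2, G.psi_zero' hz.1.1.1, Circle.exp_zero, rot_one, Circle.coe_one,
    one_smul]

theorem fl_add (s t : ℝ) {z : TZ E m D.N D.N'} (hz : z ∈ D.U) :
    G.fl (s + t) z = G.fl s (G.fl t z) := by
  simp only [Geo.fl, Geo.f2, G.psi_add s t (UT_OO hz.1.1), Circle.exp_add, rot_mul, Circle.coe_mul,
    mul_smul]

theorem fl_per (t : ℝ) {z : TZ E m D.N D.N'} (hz : z ∈ D.U) : G.fl (t + 2 * π) z = G.fl t z := by
  have h : G.psi (t + 2 * π) z.1.1 = G.psi t z.1.1 := by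
    rw [two_mul, ← add_assoc, hB.psi_add_pi _ (UT_OO hz.1.1), hB.psi_add_pi _ (UT_OO hz.1.1)]
  simp only [Geo.fl, Geo.f2, h, Circle.exp_add_two_pi]

theorem cont_fl : ContinuousOn (fun p : ℝ × TZ E m D.N D.N' => G.fl p.1 p.2) (univ ×ˢ D.U) := by
  have h1 : ContinuousOn (fun p : ℝ × TZ E m D.N D.N' => G.psi p.1 p.2.1.1) (univ ×ˢ D.U) :=
    (G.contDiffOn_psi hB.met).continuousOn.comp (f := fun p : ℝ × TZ E m D.N D.N' => (p.1, p.2.1.1))
      (by fun_prop) fun p hp => UT_OO hp.2.1.1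
  have h2 : Continuous fun p : ℝ × TZ E m D.N D.N' => (Circle.exp p.1 : ℂ) := by fun_prop
  unfold Geo.fl Geo.f2 rot
  fun_prop

theorem PuD_compact : IsCompact {z ∈ D.U | nn z.2 = 1} := by
  have h1 : IsCompact {v : FB D.N D.N' | nn v = 1} :=
    (isCompact_closedBall 0 1).of_isClosed_subset (isClosed_eq continuous_nn continuous_const)
      fun v hv => mem_closedBall_zero_iff.2 ((norm_le_nn v).trans_eq hv)
  have h2 : IsCompact (XT μ g m ×ˢ {v : FB D.N D.N' | nn v = 1}) :=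
    (hB.met.isCompact_UT.prod (isCompact_sphere 0 1)).prod h1
  have cK : ContinuousOn (fun z : TZ E m D.N D.N' => D.K (sq2 z.1))
      (XT μ g m ×ˢ {v : FB D.N D.N' | nn v = 1}) :=
    D.cK.comp (f := fun z : TZ E m D.N D.N' => sq2 z.1) (by unfold sq2; fun_prop)
      fun z hz => ⟨hz.1.1, sq_mem.2 hz.1.2⟩
  have cP : ContinuousOn (fun z : TZ E m D.N D.N' => D.P z.1)
      (XT μ g m ×ˢ {v : FB D.N D.N' | nn v = 1}) :=
    D.cP.comp continuousOn_fst fun z hz => hz.1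
  have h3 := h2.isClosed.isClosed_eq (f := fun z : TZ E m D.N D.N' => (D.K (sq2 z.1) z.2.1,
      (D.K (sq2 z.1) z.2.2.1.1, D.K (sq2 z.1) z.2.2.1.2), D.P z.1 z.2.2.2))
    ((cK.clm_apply (by fun_prop)).prodMk (((cK.clm_apply (by fun_prop)).prodMk
      (cK.clm_apply (by fun_prop))).prodMk (cP.clm_apply (by fun_prop)))) continuousOn_snd
  have e : {z ∈ D.U | nn z.2 = 1} = {z ∈ XT μ g m ×ˢ {v : FB D.N D.N' | nn v = 1} |
      (D.K (sq2 z.1) z.2.1, (D.K (sq2 z.1) z.2.2.1.1, D.K (sq2 z.1) z.2.2.1.2),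
        D.P z.1 z.2.2.2) = z.2} :=
    Set.ext fun z => ⟨fun ⟨⟨a, b, c, d, e⟩, f⟩ => ⟨⟨a, f⟩, Prod.ext b (Prod.ext (Prod.ext c d) e)⟩,
      fun ⟨⟨a, f⟩, k⟩ => ⟨⟨a, congrArg (·.1) k, congrArg (·.2.1.1) k, congrArg (·.2.1.2) k,
        congrArg (·.2.2) k⟩, f⟩⟩
  rw [e]
  exact h2.of_isClosed_subset h3 fun z hz => hz.1

theorem X_le : ∃ C : ℝ, 0 < C ∧ ∀ z ∈ D.U, ‖D.X z‖ ≤ C * nn z.2 ∧ ‖D.Y z‖ ≤ C * nn z.2 := by
  obtain ⟨C, hC⟩ := (D.PuD_compact hB).exists_bound_of_continuousOn (f := D.X)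
    (D.cX.mono fun z hz => hz.1)
  have a1 := abs_nonneg C
  have a2 := abs_nonneg D.C
  refine ⟨|C| + |D.C| + 1, by positivity, fun z hz => ⟨?_, ?_⟩⟩
  · by_cases h : z.2 = 0
    · have k := D.X_smul z 0
      rw [zero_smul, zero_smul, ← h] at k
      rw [show D.X z = 0 from k, norm_zero]
      exact mul_nonneg (by positivity) (nn_nonneg _)
    · have p := nn_pos h
      have k := hC (z.1, (nn z.2)⁻¹ • z.2) ⟨D.smul_mem hz _, by
        rw [nn_smul, abs_of_pos (inv_pos.2 p), inv_mul_cancel₀ p.ne']⟩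
      rw [X_smul, norm_smul, Real.norm_eq_abs, abs_of_pos (inv_pos.2 p), inv_mul_le_iff₀ p,
        mul_comm] at k
      exact k.trans (mul_le_mul_of_nonneg_right (by linarith [le_abs_self C]) p.le)
  · exact (D.bd z hz).trans (mul_le_mul (by linarith [le_abs_self D.C]) (norm_le_nn _)
      (norm_nonneg _) (by positivity))

theorem q_le : ∃ C : ℝ, 0 < C ∧ ∀ z ∈ D.U, |D.q z| ≤ C * nn z.2 ^ 2 := by
  obtain ⟨C, c0, hC⟩ := D.X_le hB
  obtain ⟨M, hM⟩ := hB.met.isCompact_UT.exists_bound_of_continuousOn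
    (hB.met.nc_cont_D2.mono fun x hx => hx.1.1.1)
  refine ⟨(|M| + 1) * C ^ 2, by positivity, fun z hz => ?_⟩
  have h1 : ‖(D.X z, D.Y z)‖ ≤ C * nn z.2 := norm_prod_le_iff.2 (hC z hz)
  have h2 := (fderiv ℝ (fderiv ℝ (Lg g)) z.1.1).le_opNorm₂ (D.X z, D.Y z) (D.X z, D.Y z)
  have h3 : ‖fderiv ℝ (fderiv ℝ (Lg g)) z.1.1‖ ≤ |M| + 1 := by
    linarith [hM _ hz.1.1, le_abs_self M]
  rw [mul_assoc, ← sq] at h2
  rw [mul_assoc, ← mul_pow]
  exact le_trans h2 (mul_le_mul h3 (pow_le_pow_left₀ (norm_nonneg _) h1 2) (sq_nonneg _)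
    (by positivity))

end ND2

end Pool.Agent.Work.MP_8c604c_gt.O
end
end

-- merged part: Pool.Agent.Work.MP_8c604c_gt.OB.PuA
section
/-!
The tangential correction.
Plan. X_der, Y_rc: D.der and D.rc at fl t z, translated by fl_add.  q_int: t ↦ Y (fl t z) is the right derivative of t ↦ X (fl t z), so measurable (measurable_derivWithin_Ici, uniqueDiffWithinAt_Ici);
q (fl t z) is the continuous bilinear form D2 at psi t x applied to (X, Y), it is bounded by q_le.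
Q_add: integral_add_adjacent_intervals, integral_comp_add_right.  A t = Q z t - t * qb z has period 2 π (fl_per) and A (fl t z) s = A z (s + t) - A z t; Function.Periodic.intervalIntegral_add_eq.
al_der: intervalIntegral.integral_hasDerivWithinAt_right (s = Ici 0, t = Ioi 0).  cont_al: D.cQ and continuity of parametric interval integrals (pass to the subtype U,
intervalIntegral.continuous_parametric_intervalIntegral_of_continuous').
-/

set_option maxSynthPendingDepth 3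
set_option linter.unusedSectionVars false

open Set Filter Topology MeasureTheory
open scoped ContDiff

noncomputable section
namespace Pool.Agent.Work.MP_8c604c_gt.O

open OT Real Model
open T (RN cs)
open B (mkL mkL_per continuousOn_mkL loop_ext desc desc₀)

variable {E : Type} [NormedAddCommGroup E] [InnerProductSpace ℝ E] [FiniteDimensional ℝ E] {d : ℕ}
  {μ : Model E d} {g : Met E} {m : ℕ} {G : Geo μ g}

/-- The retraction is differentiable uniformly along `M`. -/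
theorem PuA_unif (μ : Model E d) {ε : ℝ} (hε : 0 < ε) : ∃ ρ : ℝ, 0 < ρ ∧ ∀ h : E, ‖h‖ < ρ →
    ∀ p ∈ μ.M, ‖μ.r (p + h) - μ.r p - μ.P p h‖ ≤ ε * ‖h‖ := by
  have k : ∀ᶠ h in 𝓝 (0 : E), ∀ p ∈ μ.M, ‖μ.r (p + h) - μ.r p - μ.P p h‖ ≤ ε * ‖h‖ := by
    refine μ.isCompact_M.eventually_forall_of_forall_eventually fun p hp => ?_
    have h1 := ((contDiffAt_r hp.1).hasStrictFDerivAt (by simp)).isLittleO.def (half_pos hε)
    have t1 : Tendsto (fun y : E × E => (y.2 + y.1, y.2)) (𝓝 (0, p)) (𝓝 (p, p)) :=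
      Continuous.tendsto' (by fun_prop) _ _ (by simp)
    have t2 : Tendsto (fun y : E × E => μ.P y.2) (𝓝 (0, p)) (𝓝 (μ.P p)) :=
      (contDiffAt_P hp.1).continuousAt.tendsto.comp (continuous_snd.tendsto (0, p))
    filter_upwards [t1.eventually h1, t2.eventually (Metric.ball_mem_nhds _ (half_pos hε))]
      with y k1 k2
    simp only [add_sub_cancel_left] at k1
    have k3 : ‖(μ.P p - μ.P y.2) y.1‖ ≤ ε / 2 * ‖y.1‖ :=
      ((μ.P p - μ.P y.2).le_opNorm _).trans (mul_le_mul_of_nonneg_right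
        (by rw [← dist_eq_norm, dist_comm]; exact le_of_lt k2) (norm_nonneg _))
    have e : μ.r (y.2 + y.1) - μ.r y.2 - μ.P y.2 y.1 =
        (μ.r (y.2 + y.1) - μ.r y.2 - fderiv ℝ μ.r p y.1) + (μ.P p - μ.P y.2) y.1 := by
      rw [sub_apply]
      exact (sub_add_sub_cancel _ _ _).symm
    rw [e]
    exact (norm_add_le _ _).trans (by linarith only [k1, k3])
  obtain ⟨ρ, h1, h2⟩ := Metric.eventually_nhds_iff.1 k
  exact ⟨ρ, h1, fun h hh => h2 (by rwa [dist_zero_right])⟩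

namespace ND2
variable (D : ND2 G m) (hB : Bl g G) {z : TZ E m D.N D.N'}
include hB

theorem PuA_tr (hz : z ∈ D.U) {V : Type} (F : TZ E m D.N D.N' → V) (t : ℝ) :
    (fun s => F (G.fl s z)) = (fun s => F (G.fl s (G.fl t z))) ∘ fun s => s - t :=
  funext fun s => by rw [Function.comp_apply, ← D.fl_add hB _ _ hz, sub_add_cancel]

theorem X_der (hz : z ∈ D.U) (t : ℝ) :
    HasDerivWithinAt (fun s => D.X (G.fl s z)) (D.Y (G.fl t z)) (Ici t) t := by
  have h := (D.der _ (D.fl_mem hB t hz)).scomp_of_eq t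
    ((hasDerivAt_id t).sub_const t).hasDerivWithinAt (s := Ici t)
    (fun s hs => mem_Ici.2 (sub_nonneg.2 (mem_Ici.1 hs))) (sub_self t).symm
  rw [one_smul] at h
  exact (D.PuA_tr hB hz D.X t).symm ▸ h

theorem Y_rc (hz : z ∈ D.U) (t : ℝ) : ContinuousWithinAt (fun s => D.Y (G.fl s z)) (Ici t) t := by
  rw [D.PuA_tr hB hz D.Y t]
  exact (D.rc _ (D.fl_mem hB t hz)).comp_of_eq (by fun_prop)
    (fun s hs => mem_Ici.2 (sub_nonneg.2 (mem_Ici.1 hs))) (sub_self t)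

theorem PuA_cfl (hz : z ∈ D.U) : Continuous fun s => G.fl s z :=
  (D.cont_fl hB).comp_continuous (f := fun s : ℝ => (s, z)) (by fun_prop) fun _ => ⟨trivial, hz⟩

theorem PuA_cX (hz : z ∈ D.U) : Continuous fun s => D.X (G.fl s z) :=
  D.cX.comp_continuous (D.PuA_cfl hB hz) fun s => D.fl_mem hB s hz

theorem PuA_cB (hz : z ∈ D.U) :
    Continuous fun s => fderiv ℝ (fderiv ℝ (Lg g)) (G.fl s z).1.1 :=
  hB.met.nc_cont_D2.comp_continuous (D.PuA_cfl hB hz).fst.fst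
    fun s => (D.fl_mem hB s hz).1.1.1.1.1

theorem PuA_meas (hz : z ∈ D.U) : StronglyMeasurable fun s => D.q (G.fl s z) := by
  have hY : StronglyMeasurable fun s => D.Y (G.fl s z) := by
    have h := stronglyMeasurable_derivWithin_Ici (fun s => D.X (G.fl s z))
    rwa [funext fun t => (D.X_der hB hz t).derivWithin (uniqueDiffWithinAt_Ici t)] at h
  have c : Continuous fun p : ((E × E) →L[ℝ] (E × E) →L[ℝ] ℝ) × (E × E) => p.1 p.2 p.2 :=
    (continuous_fst.clm_apply continuous_snd).clm_apply continuous_snd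
  exact c.comp_stronglyMeasurable ((D.PuA_cB hB hz).stronglyMeasurable.prodMk
    ((D.PuA_cX hB hz).stronglyMeasurable.prodMk hY))

theorem PuA_rc (hz : z ∈ D.U) (t : ℝ) :
    ContinuousWithinAt (fun s => D.q (G.fl s z)) (Ici t) t := by
  have c : Continuous fun p : ((E × E) →L[ℝ] (E × E) →L[ℝ] ℝ) × (E × E) => p.1 p.2 p.2 :=
    (continuous_fst.clm_apply continuous_snd).clm_apply continuous_snd
  exact c.continuousAt.comp_continuousWithinAt ((D.PuA_cB hB hz).continuousWithinAt.prodMk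
    ((D.PuA_cX hB hz).continuousWithinAt.prodMk (D.Y_rc hB hz t)))

theorem q_int (hz : z ∈ D.U) (a b : ℝ) : IntervalIntegrable (fun s => D.q (G.fl s z)) volume a b := by
  obtain ⟨C, -, hC⟩ := D.q_le hB
  refine (intervalIntegrable_const (c := C * nn z.2 ^ 2)).mono_fun'
    (D.PuA_meas hB hz).aestronglyMeasurable (Eventually.of_forall fun s => ?_)
  exact (hC _ (D.fl_mem hB s hz)).trans_eq (by rw [nn_fl])

theorem Q_add (hz : z ∈ D.U) (s t : ℝ) : D.Q z (s + t) = D.Q z t + D.Q (G.fl t z) s := by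
  have e : D.Q (G.fl t z) s = ∫ u in (0 : ℝ)..s, (fun u => D.q (G.fl u z)) (u + t) := by
    simp only [Q, D.fl_add hB _ _ hz]
  rw [e, intervalIntegral.integral_comp_add_right (fun u => D.q (G.fl u z)), zero_add]
  exact (intervalIntegral.integral_add_adjacent_intervals (D.q_int hB hz _ _)
    (D.q_int hB hz _ _)).symm

theorem PuA_per (hz : z ∈ D.U) : G.fl (2 * π) z = z := by
  rw [← zero_add (2 * π), D.fl_per hB 0 hz, D.fl_zero hB hz]

theorem PuA_cQ (hz : z ∈ D.U) : Continuous (D.Q z) :=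
  intervalIntegral.continuous_primitive (D.q_int hB hz) 0

theorem qb_fl (hz : z ∈ D.U) (t : ℝ) : D.qb (G.fl t z) = D.qb z := by
  have h1 := D.Q_add hB hz (2 * π) t
  have h2 := D.Q_add hB hz t (2 * π)
  rw [D.PuA_per hB hz, add_comm t] at h2
  rw [qb, qb, show D.Q (G.fl t z) (2 * π) = D.Q z (2 * π) by linarith only [h1, h2]]

theorem al_fl (hz : z ∈ D.U) (t : ℝ) : D.al (G.fl t z) = D.al z - (D.Q z t - t * D.qb z) / 2 := by
  have hc : Continuous fun s => D.Q z s - s * D.qb z :=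
    (D.PuA_cQ hB hz).sub (continuous_id.mul continuous_const)
  have hp : Function.Periodic (fun s => D.Q z s - s * D.qb z) (2 * π) := fun s => by
    have h1 := D.Q_add hB hz s (2 * π)
    have h2 : D.Q z (2 * π) = 2 * π * D.qb z := by rw [qb]; field_simp
    rw [D.PuA_per hB hz] at h1
    simp only [h1, h2]
    ring
  have e : ∀ s, D.Q (G.fl t z) s - s * D.qb (G.fl t z) =
      (fun s => D.Q z s - s * D.qb z) (s + t) - (D.Q z t - t * D.qb z) := fun s => by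
    simp only [D.Q_add hB hz, D.qb_fl hB hz]
    ring
  have h3 := hp.intervalIntegral_add_eq t 0
  have hc2 : Continuous fun s => (fun s => D.Q z s - s * D.qb z) (s + t) :=
    hc.comp (continuous_add_const t)
  rw [al, al, funext e, intervalIntegral.integral_sub (hc2.intervalIntegrable _ _)
      intervalIntegrable_const,
    intervalIntegral.integral_comp_add_right (fun s => D.Q z s - s * D.qb z), zero_add,
    add_comm (2 * π), h3, zero_add, intervalIntegral.integral_const, smul_eq_mul]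
  generalize (∫ x in (0 : ℝ)..2 * π, (D.Q z x - x * D.qb z)) = I
  field_simp
  ring

theorem al_der (hz : z ∈ D.U) (t : ℝ) :
    HasDerivWithinAt (fun s => D.al (G.fl s z)) (-(D.q (G.fl t z) - D.qb z) / 2) (Ici t) t := by
  have h1 : HasDerivWithinAt (D.Q z) (D.q (G.fl t z)) (Ici t) t :=
    intervalIntegral.integral_hasDerivWithinAt_right (t := Ioi t) (D.q_int hB hz 0 t)
      (D.PuA_meas hB hz).stronglyMeasurableAtFilter ((D.PuA_rc hB hz t).mono Ioi_subset_Ici_self)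
  have h2 := ((h1.sub ((hasDerivWithinAt_id t (Ici t)).mul_const (D.qb z))).div_const 2).const_sub
    (D.al z)
  rw [funext (D.al_fl hB hz), neg_div]
  rw [one_mul] at h2
  exact h2

theorem al_le : ∃ C : ℝ, 0 < C ∧ ∀ z ∈ D.U, |D.al z| ≤ C * nn z.2 ^ 2 ∧ |D.qb z| ≤ C * nn z.2 ^ 2 := by
  obtain ⟨C, hC0, hC⟩ := D.q_le hB
  have hπ := Real.pi_pos
  refine ⟨C + 2 * π * C, by positivity, fun z hz => ?_⟩
  have h0 : 0 ≤ C * nn z.2 ^ 2 := by positivity
  have h1 : ∀ t, |D.Q z t| ≤ C * nn z.2 ^ 2 * |t| := fun t => by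
    have := intervalIntegral.norm_integral_le_of_norm_le_const (a := 0) (b := t)
      (f := fun s => D.q (G.fl s z)) (C := C * nn z.2 ^ 2)
      fun s _ => (hC _ (D.fl_mem hB s hz)).trans_eq (by rw [nn_fl])
    rwa [sub_zero] at this
  have h2 : |D.qb z| ≤ C * nn z.2 ^ 2 := by
    rw [qb, abs_div, div_le_iff₀ (by positivity)]
    exact h1 _
  have h3 := intervalIntegral.norm_integral_le_of_norm_le_const (a := 0) (b := 2 * π)
    (f := fun t => D.Q z t - t * D.qb z) (C := C * nn z.2 ^ 2 * (4 * π)) fun t ht => by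
      rw [uIoc_of_le (by positivity)] at ht
      have k1 := h1 t
      have k2 := mul_le_mul_of_nonneg_left h2 ht.1.le
      have k3 := abs_sub (D.Q z t) (t * D.qb z)
      rw [abs_of_pos ht.1] at k1
      rw [abs_mul, abs_of_pos ht.1] at k3
      have k4 := mul_le_mul_of_nonneg_left ht.2 h0
      rw [Real.norm_eq_abs]
      linarith only [k1, k2, k3, k4]
  rw [sub_zero, abs_of_pos (by positivity : 0 < 2 * π), Real.norm_eq_abs] at h3
  have h4 : 0 ≤ 2 * π * C * nn z.2 ^ 2 := by positivity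
  refine ⟨?_, by linarith⟩
  rw [al, abs_div, abs_of_pos (by positivity : 0 < 4 * π), div_le_iff₀ (by positivity)]
  linarith only [h3, h4, mul_nonneg h0 hπ.le]

theorem qb_neg : ∃ κ : ℝ, 0 < κ ∧ ∀ z ∈ D.U, D.qb z ≤ -(κ * nn z.2 ^ 2) := by
  have hπ := Real.pi_pos
  have hδ := D.δ_pos
  refine ⟨D.δ / (8 * π), by positivity, fun z hz => ?_⟩
  have h1 : D.Q z (2 * π) ≤ -(D.δ * ‖z.2‖ ^ 2) := D.neg z hz
  have h2 : nn z.2 ^ 2 ≤ (2 * ‖z.2‖) ^ 2 := pow_le_pow_left₀ (nn_nonneg _) (nn_le _) 2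
  rw [qb, div_le_iff₀ (by positivity)]
  have e : -(D.δ / (8 * π) * nn z.2 ^ 2) * (2 * π) = -(D.δ * nn z.2 ^ 2 / 4) := by
    field_simp
    ring
  rw [e]
  linarith only [h1, h2, hδ, mul_le_mul_of_nonneg_left h2 hδ.le]

theorem cont_al : ContinuousOn D.al D.U := by
  have h1 : Continuous fun p : D.U × ℝ => D.Q p.1.1 p.2 :=
    D.cQ.comp_continuous (f := fun p : D.U × ℝ => (p.1.1, p.2)) (by fun_prop)
      fun p => ⟨p.1.2, trivial⟩
  have h2 : Continuous fun z : D.U => D.qb z.1 :=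
    (h1.comp (continuous_id.prodMk (continuous_const (y := 2 * π)))).div_const _
  rw [continuousOn_iff_continuous_domRestrict]
  exact (intervalIntegral.continuous_parametric_intervalIntegral_of_continuous'
    (f := fun (z : D.U) (t : ℝ) => D.Q z.1 t - t * D.qb z.1)
    (h1.sub (continuous_snd.mul (h2.comp continuous_fst))) 0 (2 * π)).div_const _

theorem cont_pt : ContinuousOn D.pt D.U := by
  have h1 : Continuous fun z : TZ E m D.N D.N' => z.1.1.1 := by fun_prop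
  have h2 : Continuous fun z : TZ E m D.N D.N' => z.1.1.2 := by fun_prop
  exact (h1.continuousOn.add D.cX).add ((D.cont_al hB).smul h2.continuousOn)

theorem pt_zero {x : (E × E) × CM m} (hx : x ∈ XT μ g m) : D.pt (x, 0) = x.1.1 := by
  have hz : (x, 0) ∈ D.U := ⟨hx, map_zero _, map_zero _, map_zero _, map_zero _⟩
  obtain ⟨C, -, hC⟩ := D.al_le hB
  have h1 := (hC _ hz).1
  rw [nn_zero, zero_pow two_ne_zero, mul_zero, abs_nonpos_iff] at h1
  have h2 : D.X (x, 0) = 0 := by simp [X, fld]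
  rw [pt, h1, h2, zero_smul, add_zero, add_zero]

/-- The push is the field to first order. -/
theorem pt_lin {η : ℝ} (hη : 0 < η) : ∃ δ : ℝ, 0 < δ ∧ ∀ z ∈ D.U, nn z.2 < δ →
    ‖μ.r (D.pt z) - z.1.1.1 - D.X z‖ ≤ η * nn z.2 := by
  obtain ⟨C, hC0, hC⟩ := D.X_le hB
  obtain ⟨A, hA0, hA⟩ := D.al_le hB
  obtain ⟨V, hV0, hV⟩ := hB.met.isCompact_UT.isBounded.exists_pos_norm_le
  have hK : 0 < C + A * V := by positivity
  obtain ⟨ρ, hρ, hr⟩ := PuA_unif μ (ε := η / (2 * (C + A * V))) (by positivity)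
  refine ⟨min 1 (min (ρ / (C + A * V)) (η / (2 * (A * V)))), by positivity, fun z hz hn => ?_⟩
  obtain ⟨n1, n2⟩ := lt_min_iff.1 hn
  obtain ⟨n2, n3⟩ := lt_min_iff.1 n2
  rw [lt_div_iff₀ (by positivity)] at n2 n3
  have n0 := nn_nonneg z.2
  have hx : z.1.1 ∈ UT μ g := hz.1.1
  have a1 : ‖D.al z • z.1.1.2‖ ≤ A * V * nn z.2 * nn z.2 := by
    rw [norm_smul, Real.norm_eq_abs]
    exact (mul_le_mul (hA z hz).1 ((norm_snd_le _).trans (hV _ hx)) (norm_nonneg _)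
      (by positivity)).trans_eq (by ring)
  have a2 : ‖D.X z + D.al z • z.1.1.2‖ ≤ (C + A * V) * nn z.2 := by
    have k1 := norm_add_le (D.X z) (D.al z • z.1.1.2)
    have k2 := (hC z hz).1
    have k3 := mul_le_mul_of_nonneg_left n1.le (show 0 ≤ A * V * nn z.2 by positivity)
    linarith only [a1, k1, k2, k3]
  have a3 := hr _ (a2.trans_lt (by linarith only [n2])) _ hx.1.1
  have t1 : μ.P z.1.1.1 (D.X z) = D.X z := D.tan z hz
  rw [hx.1.1.2, map_add, map_smul, hx.1.2.1, t1, ← add_assoc] at a3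
  have a4 : η / (2 * (C + A * V)) * ‖D.X z + D.al z • z.1.1.2‖ ≤ η / 2 * nn z.2 :=
    (mul_le_mul_of_nonneg_left a2 (by positivity)).trans_eq (by field_simp)
  have e : μ.r (D.pt z) - z.1.1.1 - D.X z =
      (μ.r (D.pt z) - z.1.1.1 - (D.X z + D.al z • z.1.1.2)) + D.al z • z.1.1.2 := by abel
  rw [e]
  refine (norm_add_le _ _).trans ((add_le_add (a3.trans a4) a1).trans ?_)
  linarith only [n3, n0, mul_le_mul_of_nonneg_right n3.le n0]

end ND2

end Pool.Agent.Work.MP_8c604c_gt.O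
end
end

-- merged part: Pool.Agent.Work.MP_8c604c_gt.OB.PuB
section
/-!
The push shortens.
Plan. dd_le_right: f t = dd (c s) (c t) is continuous (continuousOn_dd); f (t + e) ≤ f t + dd (c t) (c (t + e)) and dd_local (first curve constant, second curve c (t + e) for e ≥ 0 and c t + e • c' t for e ≤ 0)
bound the right upper slope by L + η; image_le_of_liminf_slope_right_lt_deriv_boundary with the bound (L + 2 η) (t - s), let η tend to zero.
first_right: fderiv_Lg and el_Z: fderiv (Lg g) x (a, b) is the right derivative at 0 of s ↦ g (Z s x) (vel (psi s x)) (η s) (model: first_var in O/JacA).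
speed_le: taylor_two (ODE.lean, y = 0, s = 1) for Lg g on the compact set UT with ξ = (X + a • v, Y + a' • v + a • acc x): Lg x = 1/2, fderiv Lg x ξ = 0 + a' + a * 0 (fderiv_Lg; the derivative of the constant
t ↦ Lg (psi t x) is fderiv Lg x (v, acc x) = 0), D2 x ξ ξ = q2 x X Y + O(n^3) since ξ - (X, Y) = O(n^2); acc is bounded on UT (continuity of the time derivative of the smooth map jacA_vel).
exists_sm: c t = pt (fl t z) has right derivative v + Y + a' • v + a • acc with a' = -(q - qb)/2, so the square of its speed is at most 1 + qb + C n^3 ≤ 1 - κ n^2 + C n^3, and sqrt (1 - a) ≤ 1 - a/2.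
-/

set_option maxSynthPendingDepth 3
set_option linter.unusedSectionVars false

open Set Filter Topology MeasureTheory
open scoped ContDiff

noncomputable section
namespace Pool.Agent.Work.MP_8c604c_gt.O

open OT Real Model
open T (RN cs)
open B (mkL mkL_per continuousOn_mkL loop_ext desc desc₀)

variable {E : Type} [NormedAddCommGroup E] [InnerProductSpace ℝ E] [FiniteDimensional ℝ E] {d : ℕ}
  {μ : Model E d} {g : Met E} {m : ℕ} {G : Geo μ g}

/-- The acceleration of the geodesic of `x`. -/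
def Geo.acc (G : Geo μ g) (x : E × E) : E := deriv (fun t => (G.psi t x).2) 0

theorem IsMetric.dd_le_right (h : IsMetric μ g) {c c' : ℝ → E} {L : ℝ} (hc : Continuous c)
    (hU : ∀ t, c t ∈ μ.U) (hd : ∀ t, HasDerivWithinAt c (c' t) (Ici t) t)
    (hL : ∀ t, √(g (c t) (c' t) (c' t)) ≤ L) (s t : ℝ) : dd μ g (c s) (c t) ≤ L * |s - t| := by
  have key : ∀ s t, s ≤ t → dd μ g (c s) (c t) ≤ L * (t - s) := by
    intro s t hst
    have hf : Continuous fun z => dd μ g (c s) (c z) :=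
      h.continuousOn_dd.comp_continuous (f := fun z => (c s, c z)) (by fun_prop)
        fun z => ⟨hU s, hU z⟩
    refine image_le_of_liminf_slope_right_le_deriv_boundary (f := fun z => dd μ g (c s) (c z))
      (a := s) (b := t) hf.continuousOn (B := fun z => L * (z - s)) (B' := fun _ => L)
      (by simp [dd_self (hU s)]) (by fun_prop) (fun x _ => ?_) (fun x _ r hr => ?_) ⟨hst, le_rfl⟩
    · simpa using (((hasDerivAt_id x).sub_const s).const_mul L).hasDerivWithinAt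
    let c₁ : ℝ → E := fun e => if 0 ≤ e then c (e + x) else c x + e • c' x
    have h1 : HasDerivWithinAt c₁ (c' x) (Ici 0) 0 := by
      have := HasDerivWithinAt.scomp (0 : ℝ) (g₁ := c) (h := fun e : ℝ => e + x) (t' := Ici x)
        (s := Ici 0) (by simpa using hd x) ((hasDerivAt_id 0).add_const x).hasDerivWithinAt
        (fun e he => by simpa using he)
      rw [one_smul] at this
      exact this.congr (fun e he => if_pos he) (if_pos le_rfl)
    have h2 : HasDerivWithinAt c₁ (c' x) (Iic 0) 0 := by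
      refine (jac_line (c x) (c' x)).hasDerivWithinAt.congr (fun e he => ?_) (by simp [c₁])
      by_cases h0 : 0 ≤ e
      · obtain rfl : e = 0 := le_antisymm he h0
        simp [c₁]
      · exact if_neg h0
    have h3 : HasDerivAt c₁ (c' x) 0 := by
      have := h2.union h1
      rwa [Iic_union_Ici, hasDerivWithinAt_univ] at this
    have h4 := h.dd_local (hU x) h3 (hasDerivAt_const (0 : ℝ) (c x)) (by simp [c₁]) rfl
      (η := (r - L) / 2) (by linarith only [hr])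
    have h5 : Tendsto (fun z => z - x) (𝓝[>] x) (𝓝[>] 0) := by
      refine tendsto_nhdsWithin_iff.2 ⟨?_, ?_⟩
      · have : Tendsto (fun z => z - x) (𝓝 x) (𝓝 (x - x)) := (continuous_sub_right x).tendsto x
        rw [sub_self] at this
        exact this.mono_left nhdsWithin_le_nhds
      · exact eventually_nhdsWithin_of_forall fun z hz => mem_Ioi.2 (sub_pos.2 hz)
    refine Eventually.frequently ?_
    filter_upwards [h5.eventually h4, self_mem_nhdsWithin] with z hz hxz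
    have hp : 0 < z - x := sub_pos.2 hxz
    have e : c₁ (z - x) = c z := by simp [c₁, hp.le]
    rw [e, sub_zero, dd_symm] at hz
    have h6 := h.dd_triangle (hU s) (hU x) (hU z)
    rw [slope_def_field, div_lt_iff₀ hp]
    have h7 := mul_le_mul_of_nonneg_left (hL x) hp.le
    linarith only [hz, h6, h7, hr, hp, mul_pos_of_neg_of_neg (Mathlib.Tactic.Linarith.sub_neg_of_lt hr) (Mathlib.Tactic.Linarith.sub_neg_of_lt hp)]
  rcases le_total s t with hst | hst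
  · rw [abs_sub_comm, abs_of_nonneg (sub_nonneg.2 hst)]
    exact key s t hst
  · rw [dd_symm, abs_of_nonneg (sub_nonneg.2 hst)]
    exact key t s hst

theorem IsMetric.PuB_sm (h : IsMetric μ g) :
    ContDiffOn ℝ ∞ (fun p : ℝ × E × E => (G.psi p.1 p.2).2) {p | p.2 ∈ μ.OO} :=
  (G.contDiffOn_psi h).snd

theorem IsMetric.PuB_fst (h : IsMetric μ g) {x : E × E} (hx : x ∈ μ.OO) :
    HasDerivAt (fun s => (G.psi s x).2)
      (fderiv ℝ (fun p : ℝ × E × E => (G.psi p.1 p.2).2) (0, x) (1, 0)) 0 :=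
  jac_fst (F := fun s y => (G.psi s y).2)
    ((jac_at (F := fun s y => (G.psi s y).2) isOpen_OO h.PuB_sm 0 hx).differentiableAt (by simp))

theorem IsMetric.acc_der (h : IsMetric μ g) {x : E × E} (hx : x ∈ UT μ g) (t : ℝ) :
    HasDerivAt (fun s => (G.psi s x).2) (G.acc (G.psi t x)) t := by
  have h1 : HasDerivAt (fun s => (G.psi s (G.psi t x)).2) (G.acc (G.psi t x)) (t - t) := by
    rw [sub_self]
    exact (h.PuB_fst (G.psi_mem h t (UT_OO hx))).differentiableAt.hasDerivAt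
  have h2 := h1.comp_sub_const t t
  refine h2.congr_of_eventuallyEq (Eventually.of_forall fun s => ?_)
  simp only
  rw [← G.psi_add _ _ (UT_OO hx), sub_add_cancel]

theorem IsMetric.acc_le (h : IsMetric μ g) : ∃ C : ℝ, ∀ x ∈ UT μ g, ‖G.acc x‖ ≤ C := by
  have ho : IsOpen {p : ℝ × E × E | p.2 ∈ μ.OO} := isOpen_OO.preimage continuous_snd
  have h1 := (h.PuB_sm (G := G)).continuousOn_fderiv_of_isOpen ho (by simp)
  have h2 : ContinuousOn (fun x : E × E =>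
      fderiv ℝ (fun p : ℝ × E × E => (G.psi p.1 p.2).2) (0, x) (1, 0)) (UT μ g) :=
    (h1.comp (f := fun x : E × E => (((0 : ℝ), x) : ℝ × E × E)) (by fun_prop)
      fun x hx => UT_OO hx).clm_apply continuousOn_const
  obtain ⟨C, hC⟩ := h.isCompact_UT.exists_bound_of_continuousOn h2
  refine ⟨C, fun x hx => ?_⟩
  rw [Geo.acc, (h.PuB_fst (UT_OO hx)).deriv]
  exact hC x hx

theorem IsMetric.first_right (h : IsMetric μ g) {x : E × E} (hx : x ∈ UT μ g) {η : ℝ → E} {b : E}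
    (hη : HasDerivWithinAt η b (Ici 0) 0) (h0 : ∀ s, g (G.psi s x).1 (G.psi s x).2 (η s) = 0) :
    fderiv ℝ (Lg g) x (η 0, b) = 0 := by
  have ho := UT_OO hx
  have h1 := jac_fst (F := fun s y => g (G.Z s y) (vel g (G.psi s y)))
    ((jac_at (F := fun s y => g (G.Z s y) (vel g (G.psi s y))) isOpen_OO
      (G.jacA_mom h) 0 ho).differentiableAt (by simp))
  have h3 := (h1.clm_apply (hasDerivAt_const 0 (η 0))).unique (G.el_Z h 0 ho (η 0))
  have h4 := h1.hasDerivWithinAt.clm_apply hη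
  have h5 : HasDerivWithinAt (fun s => g (G.Z s x) (vel g (G.psi s x)) (η s)) 0 (Ici 0) 0 := by
    refine (hasDerivWithinAt_const (0 : ℝ) (Ici 0) (0 : ℝ)).congr (fun s _ => ?_) ?_ <;>
      rw [vel_UT (h.psi_UT _ hx)] <;> exact h0 _
  have h6 := (uniqueDiffWithinAt_Ici (0 : ℝ)).eq_deriv _ h4 h5
  rw [map_zero, add_zero] at h3
  rw [h3, G.Z_zero' hx.1, G.psi_zero' hx.1, vel_UT hx] at h6
  rw [h.fderiv_Lg ho.1]
  exact h6

theorem IsMetric.PuB_acc (h : IsMetric μ g) {x : E × E} (hx : x ∈ UT μ g) :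
    fderiv ℝ (Lg g) x (x.2, G.acc x) = 0 := by
  have ho := UT_OO hx
  have h1 := (G.hasDerivAt_Z h 0 ho).prodMk (h.acc_der (G := G) hx 0)
  rw [G.psi_zero' hx.1, vel_UT hx] at h1
  have h2 := jac_curve ((h.contDiffOn_Lg.contDiffAt (μ.isOpen_UU.mem_nhds (show x ∈ μ.UU from ho.1))).differentiableAt
    (by simp)) h1 (G.psi_zero' hx.1)
  refine h2.unique ((hasDerivAt_const (0 : ℝ) (1 / 2 : ℝ)).congr_of_eventuallyEq
    (Eventually.of_forall fun s => ?_))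
  have := h.g_UT (h.psi_UT (G := G) s hx)
  simp only [Lg, Geo.Z, this, mul_one]

theorem PuB_bil {V : Type} [NormedAddCommGroup V] [NormedSpace ℝ V] (T : V →L[ℝ] V →L[ℝ] ℝ) {M A n : ℝ}
    (hT : ‖T‖ ≤ M) (hA : 0 ≤ A) (n1 : n ≤ 1) {u ζ : V} (hu : ‖u‖ ≤ n) (hζ : ‖ζ‖ ≤ A * n ^ 2) :
    T (u + ζ) (u + ζ) ≤ T u u + M * (2 * A + A ^ 2) * n ^ 3 := by
  have n0 : 0 ≤ n := (norm_nonneg _).trans hu
  have M0 : 0 ≤ M := (norm_nonneg _).trans hT
  have k : ∀ {a b : V} {r s : ℝ}, ‖a‖ ≤ r → ‖b‖ ≤ s → T a b ≤ M * r * s := fun ha hb =>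
    (le_abs_self _).trans ((T.le_opNorm₂ _ _).trans (by
      have := (norm_nonneg _).trans ha
      gcongr))
  have k1 := k hu hζ
  have k2 := k hζ hu
  have k3 := k hζ (hζ.trans (show A * n ^ 2 ≤ A * n by
    gcongr
    linarith only [n1, n0, mul_nonneg_of_nonpos_of_nonpos (Mathlib.Tactic.Linarith.sub_nonpos_of_le n1) (Mathlib.Tactic.Linarith.sub_nonpos_of_le n0)]))
  simp only [map_add, add_apply]
  linarith only [k1, k2, k3]

theorem IsMetric.speed_le (h : IsMetric μ g) (G : Geo μ g) : ∃ C δ : ℝ, 0 < C ∧ 0 < δ ∧ ∀ x ∈ UT μ g,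
    ∀ (X Y : E) (a a' n : ℝ), ‖X‖ ≤ n → ‖Y‖ ≤ n → |a| ≤ n ^ 2 → |a'| ≤ n ^ 2 → n ≤ δ →
      g x.1 x.2 X = 0 → fderiv ℝ (Lg g) x (X, Y) = 0 → x.1 + X + a • x.2 ∈ μ.U ∧
        g (x.1 + X + a • x.2) (x.2 + Y + a' • x.2 + a • G.acc x) (x.2 + Y + a' • x.2 + a • G.acc x) ≤
          1 + 2 * a' + q2 g x X Y + C * n ^ 3 := by
  have hK : UT μ g ⊆ μ.UU := fun x hx => (UT_OO hx).1
  obtain ⟨C, δ, C0, δ0, hT⟩ := taylor_two μ.isOpen_UU h.contDiffOn_Lg h.isCompact_UT hK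
  obtain ⟨M, hM⟩ := h.isCompact_UT.exists_bound_of_continuousOn (h.nc_cont_D2.mono hK)
  obtain ⟨V, hV⟩ := h.isCompact_UT.exists_bound_of_continuousOn continuous_snd.continuousOn
  obtain ⟨W, hW⟩ := h.acc_le (G := G)
  set A := |V| + |W| with hA
  have A0 : 0 ≤ A := by positivity
  refine ⟨|M| * (2 * A + A ^ 2) + 2 * C * (1 + A) ^ 3, min 1 (δ / (1 + A)), by positivity,
    by positivity, fun x hx X Y a a' n hX hY ha ha' hn _ hD => ?_⟩
  have n0 : 0 ≤ n := (norm_nonneg _).trans hX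
  have n1 : n ≤ 1 := hn.trans (min_le_left _ _)
  have n2 : (1 + A) * n ≤ δ := by
    have := hn.trans (min_le_right _ _)
    rwa [le_div_iff₀' (by positivity)] at this
  have hv : ‖x.2‖ ≤ |V| := (hV x hx).trans (le_abs_self _)
  have hw : ‖G.acc x‖ ≤ |W| := (hW x hx).trans (le_abs_self _)
  set ζ : E × E := (a • x.2, a' • x.2 + a • G.acc x) with hζ
  have e1 : ‖a • x.2‖ ≤ n ^ 2 * |V| := by
    rw [norm_smul, Real.norm_eq_abs]
    gcongr
  have e2 : ‖a' • x.2‖ ≤ n ^ 2 * |V| := by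
    rw [norm_smul, Real.norm_eq_abs]
    gcongr
  have e3 : ‖a • G.acc x‖ ≤ n ^ 2 * |W| := by
    rw [norm_smul, Real.norm_eq_abs]
    gcongr
  have e4 : 0 ≤ n ^ 2 * |W| := by positivity
  have hz : ‖ζ‖ ≤ A * n ^ 2 := by
    refine norm_prod_le_iff.2 ⟨e1.trans ?_, (norm_add_le _ _).trans ?_⟩ <;> rw [hA] <;> linarith only [e4, e2, e3]
  have hu : ‖((X, Y) : E × E)‖ ≤ n := norm_prod_le_iff.2 ⟨hX, hY⟩
  have hξ : ‖((X, Y) : E × E) + ζ‖ ≤ (1 + A) * n := by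
    refine (norm_add_le _ _).trans ?_
    have : A * n ^ 2 ≤ A * n := by
      gcongr
      linarith only [n0, n1, mul_nonneg_of_nonpos_of_nonpos (Mathlib.Tactic.Linarith.sub_nonpos_of_le n0) (Mathlib.Tactic.Linarith.sub_nonpos_of_le n1)]
    linarith only [hz, hu, this]
  obtain ⟨t1, t2⟩ := hT x hx 0 ((X, Y) + ζ) 1 zero_le_one (by simpa using hξ.trans n2)
  have e5 : x + 0 + (1 : ℝ) • (((X, Y) : E × E) + ζ) =
      (x.1 + X + a • x.2, x.2 + Y + a' • x.2 + a • G.acc x) := by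
    rw [add_zero, one_smul]
    refine Prod.ext ?_ ?_ <;> simp only [hζ, Prod.fst_add, Prod.snd_add] <;> abel
  rw [e5] at t1 t2
  refine ⟨t1, ?_⟩
  have e6 : fderiv ℝ (Lg g) x ((X, Y) + ζ) = a' := by
    have : ζ = a • (x.2, G.acc x) + a' • ((0 : E), x.2) := by
      refine Prod.ext ?_ ?_ <;> simp [hζ, add_comm]
    rw [map_add, hD, this, map_add, map_smul, map_smul, h.PuB_acc hx, h.fderiv_Lg (hK hx)]
    simp [h.g_UT hx]
  have e7 := PuB_bil (fderiv ℝ (fderiv ℝ (Lg g)) x) ((hM x hx).trans (le_abs_self _)) A0 n1 hu hz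
  have e8 : C * ‖((X, Y) : E × E) + ζ‖ ^ 3 ≤ C * ((1 + A) * n) ^ 3 := by gcongr
  simp only [add_zero, Lg, h.g_UT hx, map_zero, zero_apply, norm_zero, zero_add,
    one_mul, mul_one, one_pow, mul_zero] at t2
  rw [e6] at t2
  unfold q2 D2
  linarith only [e7, e8, t2]

theorem ND2.exists_sm (D : ND2 G m) (hB : Bl g G) : ∃ ε κ, D.Sm ε κ := by
  have h := hB.met
  obtain ⟨C1, C10, h1⟩ := D.X_le hB
  obtain ⟨C2, C20, h2⟩ := D.al_le hB
  obtain ⟨C3, C30, h3⟩ := D.q_le hB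
  obtain ⟨κ, κ0, hκ⟩ := D.qb_neg hB
  obtain ⟨C, δ, C0, δ0, hS⟩ := h.speed_le G
  set B := C1 + C2 + C3 + 1 with hBd
  have B0 : 0 < B := by positivity
  set ε := min (min (δ / B) (κ / (2 * C * B ^ 3))) (min 1 (4 / κ)) with hε
  have ε0 : 0 < ε := by positivity
  have hle : ∀ n, 0 ≤ n → n ≤ ε → κ / 4 * n ^ 2 ≤ 1 := fun n n0 hn => by
    have a1 : n ≤ 1 := hn.trans ((min_le_right _ _).trans (min_le_left _ _))
    have a2 : n ≤ 4 / κ := hn.trans ((min_le_right _ _).trans (min_le_right _ _))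
    rw [le_div_iff₀ κ0] at a2
    linarith only [a1, n0, a2, mul_nonneg_of_nonpos_of_nonpos (Mathlib.Tactic.Linarith.sub_nonpos_of_le n0) (Mathlib.Tactic.Linarith.sub_nonpos_of_le a2)]
  let V : TZ E m D.N D.N' → E := fun w =>
    w.1.1.2 + D.Y w + (-(D.q w - D.qb w) / 2) • w.1.1.2 + D.al w • G.acc w.1.1
  have key : ∀ w ∈ D.U, nn w.2 ≤ ε →
      D.pt w ∈ μ.U ∧ √(g (D.pt w) (V w) (V w)) ≤ 1 - κ / 4 * nn w.2 ^ 2 := by
    intro w hw hn
    have hx : w.1.1 ∈ UT μ g := hw.1.1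
    have n0 := nn_nonneg w.2
    have b1 : C1 * nn w.2 ≤ B * nn w.2 := by
      gcongr
      linarith only [C20, C30]
    have b2 : (C2 + C3) * nn w.2 ^ 2 ≤ (B * nn w.2) ^ 2 := by
      rw [mul_pow]
      gcongr
      linarith only [C10, C20, C30, mul_pos_of_neg_of_neg (Mathlib.Tactic.Linarith.sub_neg_of_lt C10) (Mathlib.Tactic.Linarith.sub_neg_of_lt C10), mul_pos_of_neg_of_neg (Mathlib.Tactic.Linarith.sub_neg_of_lt C10) (Mathlib.Tactic.Linarith.sub_neg_of_lt C20), mul_pos_of_neg_of_neg (Mathlib.Tactic.Linarith.sub_neg_of_lt C10) (Mathlib.Tactic.Linarith.sub_neg_of_lt C30), mul_pos_of_neg_of_neg (Mathlib.Tactic.Linarith.sub_neg_of_lt C20) (Mathlib.Tactic.Linarith.sub_neg_of_lt C20), mul_pos_of_neg_of_neg (Mathlib.Tactic.Linarith.sub_neg_of_lt C20) (Mathlib.Tactic.Linarith.sub_neg_of_lt C30), mul_pos_of_neg_of_neg (Mathlib.Tactic.Linarith.sub_neg_of_lt C30) (Mathlib.Tactic.Linarith.sub_neg_of_lt C30)]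
    have b3 : 0 ≤ C2 * nn w.2 ^ 2 := by positivity
    have b4 : 0 ≤ C3 * nn w.2 ^ 2 := by positivity
    have hD := h.first_right hx (D.X_der hB hw 0) fun s => D.perp _ (D.fl_mem hB s hw)
    simp only [D.fl_zero hB hw] at hD
    obtain ⟨s1, s2⟩ := hS w.1.1 hx (D.X w) (D.Y w) (D.al w) (-(D.q w - D.qb w) / 2) (B * nn w.2)
      ((h1 w hw).1.trans b1) ((h1 w hw).2.trans b1) ((h2 w hw).1.trans (by linarith only [b2, b4]))
      (by
        have a1 := abs_le.1 (h2 w hw).2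
        have a2 := abs_le.1 (h3 w hw)
        rw [abs_le]
        constructor <;> linarith only [b2, b3, b4, a1, a2, a1.1, a1.2, a2.1, a2.2])
      (by
        have := hn.trans ((min_le_left _ _).trans (min_le_left _ _))
        rwa [le_div_iff₀' B0] at this) (D.perp w hw) hD
    refine ⟨s1, Real.sqrt_le_iff.2 ⟨sub_nonneg.2 (hle _ n0 hn), le_trans s2 ?_⟩⟩
    have a3 := hn.trans ((min_le_left _ _).trans (min_le_right _ _))
    rw [le_div_iff₀ (by positivity)] at a3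
    have a4 := mul_le_mul_of_nonneg_right a3 (sq_nonneg (nn w.2))
    have a5 := hκ w hw
    have a6 : q2 g w.1.1 (D.X w) (D.Y w) = D.q w := rfl
    rw [a6]
    linarith only [a4, a5, sq_nonneg (κ / 4 * nn w.2 ^ 2), sq_nonneg ((1 : ℝ) * κ * ((1 : ℝ) * ((1 : ℝ) * nn w.2) ^ (2 : ℕ)))]
  refine ⟨ε, κ / 4, ε0, by positivity, hle ε ε0.le le_rfl, fun z hz hn => (key z hz hn).1,
    fun z hz hn => ?_⟩
  have hx : z.1.1 ∈ UT μ g := hz.1.1
  have k := fun t => key (G.fl t z) (D.fl_mem hB t hz) (by rwa [nn_fl])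
  refine h.dd_le_right (c := fun t => D.pt (G.fl t z)) (c' := fun t => V (G.fl t z)) ?_
    (fun t => (k t).1) (fun t => ?_) fun t => ?_
  · exact (D.cont_pt hB).comp_continuous ((D.cont_fl hB).comp_continuous
      (f := fun t : ℝ => (t, z)) (by fun_prop) fun t => ⟨trivial, hz⟩) fun t => D.fl_mem hB t hz
  · have d1 := (G.hasDerivAt_Z h t (UT_OO hx)).hasDerivWithinAt (s := Ici t)
    rw [vel_UT (h.psi_UT t hx)] at d1
    have d2 := (d1.add (D.X_der hB hz t)).add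
      ((D.al_der hB hz t).smul (h.acc_der (G := G) hx t).hasDerivWithinAt)
    refine d2.congr_deriv ?_
    simp only [V, D.qb_fl hB hz t]
    change _ = (G.psi t z.1.1).2 + _ + _ • (G.psi t z.1.1).2 + _ • G.acc (G.psi t z.1.1)
    abel
  · have := (k t).2
    rwa [nn_fl] at this

end Pool.Agent.Work.MP_8c604c_gt.O
end
end
end

-- merged part: Pool.Agent.Work.MP_8c604c_gt.OB.PuM
section
-- merged part: Pool.Agent.Work.MP_8c604c_gt.OB.Swap
section
/-!
First variation at both end points; Jacobi fields with given end values.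
Model: B/Swap.lean (orth2, swap, exists_swap); here there are no scalars to divide out.
Plan. orth2: copy B/Swap. swap: the curve x + s • δ stays in OO, p s = Z 0 (x + s • δ), q s = Z (π/2) (x + s • δ) (jac_curve, jac_dZ, jac_line), their distance is π/2 by dd_Z; orth2 at (x.1, w).
exists_back: δ = fderiv (psi (-π/2)) y (η, 0) with y = psi (π/2) x, JJ_add, JJ_zero, psi_add.
exists_swap: as in B/Swap with a left inverse of GG g (Z (π/2) x).
range_JM: the map u ↦ JJ (π/2) x (0, u) on Tan x.1 has kernel WS x, so its range has dimension d - (kk x + 1); it lies in the g-orthogonal complement of WS y in Tan y.1 (swap with δ = (0, u), applied to the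
geodesics through y.1 in the directions w ∈ WS y: (x.1, w') = psi (π/2) (y.1, w) up to psi_pi, link_iff at y, Z π x = x.1); that complement has dimension d - (kk y + 1) since g y.1 is positive definite on Tan; kk_const.
exists_jac: take δ₀ = (ξ, 0); η - JJ (π/2) x δ₀ is orthogonal to WS y by the hypothesis and swap; add (0, u) from range_JM.
-/

set_option maxSynthPendingDepth 3
set_option linter.unusedSectionVars false

open Set Filter Topology MeasureTheory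
open scoped ContDiff

noncomputable section
namespace Pool.Agent.Work.MP_8c604c_gt.O

open OT Real Model
open T (RN cs)
open B (mkL mkL_per continuousOn_mkL loop_ext desc desc₀)

variable {E : Type} [NormedAddCommGroup E] [InnerProductSpace ℝ E] [FiniteDimensional ℝ E] {d : ℕ}
  {μ : Model E d} {g : Met E} {m : ℕ} {G : Geo μ g}

theorem Swap_sqrt {s : ℝ} (hs : 0 ≤ s) : √s ≤ (1 + s) / 2 := by
  linarith only [hs, Real.sq_sqrt hs, sq_nonneg (√s - 1), sq_nonneg (√s - (1 : ℝ))]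

namespace Bl
variable (hB : Bl g G)
include hB

theorem orth2 {x : E × E} (hx : x ∈ μ.TT) {p q : ℝ → E} {a b : E} (hp : HasDerivAt p a 0)
    (hq : HasDerivAt q b 0) (p0 : p 0 = x.1) (q0 : q 0 = G.Z (π / 2) x)
    (hd : ∀ᶠ τ in 𝓝 (0 : ℝ), π / 2 ≤ dd μ g (p τ) (q τ)) :
    g (G.Z (π / 2) x) (vel g (G.psi (π / 2) x)) b = g x.1 (vel g x) a := by
  have h := hB.met
  have ho := TT_OO hx
  have hz := G.Z_U (π / 2) ho
  have hpi := Real.pi_pos
  set v := vel g x with hv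
  set v₂ := vel g (G.psi (π / 2) x) with hv₂
  have key : ∀ k : ℝ, 2 ≤ √(g x.1 (k • a - v) (k • a - v)) +
      √(g (G.Z (π / 2) x) (-v₂ - k • b) (-v₂ - k • b)) := by
    intro k
    refine le_of_forall_pos_le_add fun η hη => ?_
    have hk : HasDerivAt (fun ε : ℝ => k * ε) k 0 := by simpa using (hasDerivAt_id 0).const_mul k
    have h1 : HasDerivAt (fun ε : ℝ => p (k * ε)) (k • a) 0 :=
      HasDerivAt.scomp_of_eq 0 hp hk (by simp)
    have h1' : HasDerivAt (fun ε : ℝ => q (k * ε)) (k • b) 0 :=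
      HasDerivAt.scomp_of_eq 0 hq hk (by simp)
    have h2 := G.hasDerivAt_Z h 0 ho
    rw [G.psi_zero' hx] at h2
    have h2' : HasDerivAt (fun ε : ℝ => G.Z (π / 2 - ε) x) (-v₂) 0 := by
      have k1 : HasDerivAt (fun ε : ℝ => π / 2 - ε) (-1) 0 := by
        simpa using (hasDerivAt_id (0 : ℝ)).const_sub (π / 2)
      have k2 := HasDerivAt.scomp_of_eq 0 (G.hasDerivAt_Z h (π / 2) ho) k1 (by simp)
      rw [neg_one_smul] at k2
      exact k2
    have h3 := h.dd_local ho.1 h1 h2 (by simpa using p0) (G.Z_zero' hx) (half_pos hη)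
    have h3' := h.dd_local hz h2' h1' (by simp) (by simpa using q0) (half_pos hη)
    have h4 : ∀ᶠ ε in 𝓝 (0 : ℝ), p (k * ε) ∈ μ.U :=
      h1.continuousAt.eventually (μ.isOpen.mem_nhds (by simpa [p0] using ho.1))
    have h4' : ∀ᶠ ε in 𝓝 (0 : ℝ), q (k * ε) ∈ μ.U :=
      h1'.continuousAt.eventually (μ.isOpen.mem_nhds (by simpa [q0] using hz))
    have ht : Tendsto (fun ε : ℝ => k * ε) (𝓝 0) (𝓝 0) := by
      simpa using hk.continuousAt.tendsto
    have h5 : ∀ᶠ ε in 𝓝[>] (0 : ℝ), ε ∈ Ioo 0 (π / 4) := Ioo_mem_nhdsGT (by linarith only [hpi])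
    obtain ⟨ε, ⟨e3, e3'⟩, e5, ⟨e4, e4'⟩, e6⟩ := ((h3.and h3').and (h5.and
      (((h4.and h4').and (ht.eventually hd)).filter_mono nhdsWithin_le_nhds))).exists
    have e7 := h.dd_triangle e4 (G.Z_U ε ho) e4'
    have e7' := h.dd_triangle (G.Z_U ε ho) (G.Z_U (π / 2 - ε) ho) e4'
    have e8 := h.dd_Z_le G ho ε (π / 2 - ε)
    rw [abs_of_nonneg (by linarith only [e5, e5.2])] at e8
    refine le_of_mul_le_mul_left ?_ e5.1
    linarith only [e3, e3', e6, e7, e7', e8]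
  have u1 : g x.1 v v = 1 := h.vel_unit ho
  have u2 : g (G.Z (π / 2) x) v₂ v₂ = 1 := h.vel_unit (G.psi_mem h _ ho)
  refine (sub_eq_zero.1 (dist_quad (add_nonneg (h.nonneg ho.1 a) (h.nonneg hz b)) fun k => ?_)).symm
  have h1 := key k
  have h2 := Swap_sqrt (h.nonneg ho.1 (k • a - v))
  have h3 := Swap_sqrt (h.nonneg hz (-v₂ - k • b))
  have h4 : g x.1 (k • a - v) (k • a - v) = k * (k * g x.1 a a) - 2 * (k * g x.1 v a) + 1 := by
    simp only [map_sub, map_smul, sub_apply, smul_apply, smul_eq_mul, u1, h.symm x.1 a v ho.1]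
    ring
  have h5 : g (G.Z (π / 2) x) (-v₂ - k • b) (-v₂ - k • b) =
      k * (k * g (G.Z (π / 2) x) b b) + 2 * (k * g (G.Z (π / 2) x) v₂ b) + 1 := by
    simp only [map_sub, map_neg, map_smul, sub_apply, neg_apply, smul_apply, smul_eq_mul, u2,
      h.symm _ b v₂ hz]
    ring
  linarith only [h1, h2, h3, h4, h5]

theorem swap {x : E × E} (hx : x ∈ μ.TT) {w : E} (hw : (x.1, w) ∈ μ.TT)
    (e : G.Z (π / 2) (x.1, w) = G.Z (π / 2) x) (δ : E × E) :
    g (G.Z (π / 2) x) (vel g (G.psi (π / 2) (x.1, w))) (G.JJ (π / 2) x δ) =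
      g x.1 (vel g (x.1, w)) (G.JJ 0 x δ) := by
  have h := hB.met
  have ho := TT_OO hx
  have hl := jac_line x δ
  have hp := jac_curve (G.jac_dZ h 0 ho) hl (by simp)
  have hq := jac_curve (G.jac_dZ h (π / 2) ho) hl (by simp)
  rw [← e]
  refine hB.orth2 hw hp hq ?_ ?_ ?_
  · simp only [zero_smul, add_zero]
    exact G.Z_zero' hx
  · simp only [zero_smul, add_zero]
    exact e.symm
  · have h3 : ∀ᶠ s : ℝ in 𝓝 0, x + s • δ ∈ μ.OO :=
      hl.continuousAt.eventually (isOpen_OO.mem_nhds (by simpa using ho))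
    filter_upwards [h3] with s hs
    simpa only [sub_zero] using hB.dist_dd_Z hs (s := 0) (t := π / 2) (by positivity) (sub_zero _).le

theorem exists_back {x : E × E} (hx : x ∈ μ.TT) : ∃ L : E →L[ℝ] E × E, ∀ η,
    G.JJ (π / 2) x (L η) = μ.P (G.Z (π / 2) x) η := by
  have h := hB.met
  have ho := TT_OO hx
  have hy := G.psi_mem h (π / 2) ho
  refine ⟨(fderiv ℝ (G.psi (-(π / 2))) (G.psi (π / 2) x)).comp (ContinuousLinearMap.inl ℝ E E),
    fun η => ?_⟩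
  have h1 := G.JJ_add h (π / 2) (-(π / 2)) hy (η, 0)
  rw [add_neg_cancel, G.JJ_zero hy, ← G.psi_add _ _ ho, neg_add_cancel, G.psi_zero' hx] at h1
  exact h1.symm

/-- The final velocity depends linearly on the initial velocity. -/
theorem exists_swap {x : E × E} (hx : x ∈ μ.TT) : ∃ D : E →L[ℝ] E, ∀ w, (x.1, w) ∈ μ.TT →
    G.Z (π / 2) (x.1, w) = G.Z (π / 2) x → vel g (G.psi (π / 2) (x.1, w)) = D (vel g (x.1, w)) := by
  have h := hB.met
  have hz := G.Z_mem (π / 2) (TT_OO hx)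
  obtain ⟨L, hL⟩ := hB.exists_back hx
  obtain ⟨S, hS⟩ := LinearMap.exists_leftInverse_of_injective
    (μ.GG g (G.Z (π / 2) x) : E →ₗ[ℝ] E →L[ℝ] ℝ) (by
      refine LinearMap.ker_eq_bot'.2 fun u hu => ?_
      by_contra h0
      have h1 := h.GG_pos hz.1 h0
      have h2 : μ.GG g (G.Z (π / 2) x) u = 0 := hu
      rw [h2] at h1
      exact lt_irrefl _ h1)
  refine ⟨(LinearMap.toContinuousLinearMap S).comp
    ((g x.1).bilinearComp (ContinuousLinearMap.id ℝ E) ((G.JJ 0 x).comp L)), fun w hw e => ?_⟩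
  have h1 : μ.Q (G.Z (π / 2) x) (vel g (G.psi (π / 2) (x.1, w))) = 0 := by
    rw [← e]
    exact Q_eq_zero.2 (P_vel (G.psi_TT h _ (TT_OO hw)))
  have h3 : μ.GG g (G.Z (π / 2) x) (vel g (G.psi (π / 2) (x.1, w))) = (g x.1).bilinearComp
      (ContinuousLinearMap.id ℝ E) ((G.JJ 0 x).comp L) (vel g (x.1, w)) := by
    ext η
    rw [GG_apply, h1, inner_zero_left, add_zero, ← h.P_right hz, ← hL, hB.swap hx hw e]
    rfl
  rw [ContinuousLinearMap.comp_apply, ← h3]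
  exact (congrArg (fun L => L (vel g (G.psi (π / 2) (x.1, w)))) hS).symm

/-- The conjugate directions at the end point come from geodesics through the initial point. -/
theorem Swap_end {x : E × E} (hx : x ∈ μ.TT) {η : E}
    (e : ∀ w, (x.1, w) ∈ μ.TT → G.Z (π / 2) (x.1, w) = G.Z (π / 2) x →
      g (G.Z (π / 2) x) (vel g (G.psi (π / 2) (x.1, w))) η = 0) :
    ∀ w ∈ G.WS (G.psi (π / 2) x), g (G.Z (π / 2) x) w η = 0 := fun w hw => by
  have h := hB.met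
  have ho := TT_OO hx
  have hy := G.psi_TT h (π / 2) ho
  by_cases h0 : w = 0
  · rw [h0, map_zero, zero_apply]
  have h1 : ((G.psi (π / 2) x).1, w) ∈ μ.TT := ⟨hy.1, (Geo.mem_WS.1 hw).1, h0⟩
  have h2 := (hB.link_iff hy (TT_OO h1)).2 (Geo.mem_WS.1 hw).2
  rw [G.Z_add _ _ ho, add_halves, Geo.Z.eq_1 G π, hB.psi_pi hx] at h2
  have h3 : G.psi (π / 2) ((G.psi (π / 2) x).1, w) =
      (x.1, (G.psi (π / 2) ((G.psi (π / 2) x).1, w)).2) := Prod.ext h2 rfl
  have h4 := G.psi_TT h (π / 2) (TT_OO h1)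
  have h5 := G.psi_add (π / 2) (π / 2) (TT_OO h1)
  rw [add_halves, hB.psi_pi h1, h3] at h5
  rw [h3] at h4
  have h6 := e _ h4 (congrArg Prod.fst h5.symm :)
  rw [← h5, vel, map_smul, smul_apply, smul_eq_mul] at h6
  exact (mul_eq_zero.1 h6).resolve_left (inv_ne_zero (h.spd_pos (TT_OO h1)).ne')

theorem range_JM {x : E × E} (hx : x ∈ μ.TT) {η : E} (h1 : μ.P (G.Z (π / 2) x) η = η)
    (h2 : ∀ w ∈ G.WS (G.psi (π / 2) x), g (G.Z (π / 2) x) w η = 0) :
    ∃ u, G.JJ (π / 2) x (0, u) = η := by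
  have h := hB.met
  have ho := TT_OO hx
  have hy := G.psi_TT h (π / 2) ho
  have hz := G.Z_mem (π / 2) ho
  let A := LinearMap.range ((G.JM x : E →ₗ[ℝ] E).domRestrict (μ.Tan x.1))
  let C : Submodule ℝ E := μ.Tan (G.Z (π / 2) x) ⊓
    ⨅ w ∈ G.WS (G.psi (π / 2) x), LinearMap.ker (g (G.Z (π / 2) x) w : E →ₗ[ℝ] ℝ)
  have hC : ∀ u, u ∈ C ↔ μ.P (G.Z (π / 2) x) u = u ∧
      ∀ w ∈ G.WS (G.psi (π / 2) x), g (G.Z (π / 2) x) w u = 0 := fun u => by
    simp only [C, Submodule.mem_inf, mem_Tan, Submodule.mem_iInf, LinearMap.mem_ker,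
      ContinuousLinearMap.coe_coe]
  have le : A ≤ C := by
    rintro _ ⟨u, rfl⟩
    refine (hC _).2 ⟨G.JJ_tan h _ ho (0, u), hB.Swap_end hx fun w hw e => ?_⟩
    refine (hB.swap hx hw e (0, u)).trans ?_
    rw [G.JJ_zero ho, map_zero, map_zero]
  have d1 := ((G.JM x : E →ₗ[ℝ] E).domRestrict (μ.Tan x.1)).finrank_range_add_finrank_ker
  have d2 := Geo.finrank_WS (G := G) h hx
  rw [finrank_Tan hx.1, LinearMap.ker_domRestrict, ← Submodule.finrank_map_subtype_eq,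
    Submodule.map_comap_subtype] at d1
  have d3 := Geo.finrank_WS (G := G) h hy
  have d4 := Submodule.finrank_sup_add_finrank_inf_eq C (G.WS (G.psi (π / 2) x))
  have d5 : C ⊓ G.WS (G.psi (π / 2) x) = ⊥ := (Submodule.eq_bot_iff _).2 fun u hu =>
    h.eq_zero_of_tan hz.1 ((hC u).1 hu.1).1 (((hC u).1 hu.1).2 u hu.2)
  have d6 := Submodule.finrank_mono (show C ⊔ G.WS (G.psi (π / 2) x) ≤ μ.Tan (G.Z (π / 2) x) from
    sup_le inf_le_left inf_le_left)
  rw [d5, finrank_bot] at d4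
  rw [finrank_Tan hz] at d6
  have d7 := hB.kk_const hx hy
  have d8 : Module.finrank ℝ A + Module.finrank ℝ (G.WS x) = d := d1
  have e : A = C := Submodule.eq_of_le_of_finrank_le le (by omega)
  obtain ⟨u, hu⟩ : η ∈ A := by
    rw [e]
    exact (hC η).2 ⟨h1, h2⟩
  exact ⟨u, hu⟩

/-- A pair of vectors tangent to the cut pairs is the pair of end values of a Jacobi field. -/
theorem exists_jac {x : E × E} (hx : x ∈ μ.TT) {ξ η : E} (h0 : μ.P x.1 ξ = ξ)
    (h1 : μ.P (G.Z (π / 2) x) η = η)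
    (h : ∀ c ∈ G.SS, Lk (G.lp x) c →
      g x.1 (vl c) ξ = g (G.Z (π / 2) x) (vl (sh (cs (π / 2)) c)) η) :
    ∃ δ, G.JJ 0 x δ = ξ ∧ G.JJ (π / 2) x δ = η := by
  have ho := TT_OO hx
  obtain ⟨u, hu⟩ := hB.range_JM hx (η := η - G.JJ (π / 2) x (ξ, 0))
    (by rw [map_sub, h1, G.JJ_tan hB.met _ ho]) (hB.Swap_end hx fun w hw e => by
      have h2 := h _ (hB.lp_mem hw) ⟨(hB.lp_one hw).trans (hB.lp_one hx).symm, by
        rw [hB.lp_cs (TT_OO hw), hB.lp_cs ho, e]⟩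
      rw [hB.vl_lp hw, hB.sh_lp (TT_OO hw), hB.vl_lp (G.psi_TT hB.met _ (TT_OO hw))] at h2
      rw [map_sub, hB.swap hx hw e, G.JJ_zero ho, h0, h2, sub_self])
  refine ⟨(ξ, 0) + (0, u), ?_, by rw [map_add, hu, add_sub_cancel]⟩
  rw [G.JJ_zero ho, Prod.fst_add, add_zero, h0]

end Bl

end Pool.Agent.Work.MP_8c604c_gt.O
end
end

-- merged part: Pool.Agent.Work.MP_8c604c_gt.OB.Est
section
/-!
Uniform first order estimates.  Model: orth2 in B/Swap.lean, made uniform.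
Plan. td_dif: mean value inequality for s ↦ Z s x - s • x.2; vel (psi s x) is uniformly continuous on the compact set Icc (-1) 1 ×ˢ UT (jacA_vel).
dd_unif: distA_seg on the segment from a to b; g is uniformly continuous near the compact set M (cthickening), sqrt (A + B) ≤ sqrt A + sqrt B.
td_cone: let c = lp x, p = x.1, q = Z (π/2) x, v = x.2, v₂ = (psi (π/2) x).2, ξ = y.1 - p, ζ = y.2 - q, n the norm, s = n / k with k small.  dd y.1 y.2 = π/2 (dd_Z) is at most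
dd y.1 (Z s x) + (π/2 - 2 s) + dd (Z (π/2 - s) x) y.2; by dd_unif and td_dif the first is at most sqrt (g p (s v - ξ) (s v - ξ)) + o(s) ≤ s - g p v ξ + g p ξ ξ / (2 s) + o(s) (sqrt (1 + a) ≤ 1 + a / 2),
the last at most s + g q v₂ ζ + g q ζ ζ / (2 s) + o(s).  This is one inequality; for the other use the times -s and π/2 + s (Z_add_pi: dd (Z (-s) x) (Z (π/2 + s) x) ≤ π/2 - 2 s).
-/

set_option maxSynthPendingDepth 3
set_option linter.unusedSectionVars false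

open Set Filter Topology MeasureTheory
open scoped ContDiff

noncomputable section
namespace Pool.Agent.Work.MP_8c604c_gt.O

open OT Real Model
open T (RN cs)
open B (mkL mkL_per continuousOn_mkL loop_ext desc desc₀)

variable {E : Type} [NormedAddCommGroup E] [InnerProductSpace ℝ E] [FiniteDimensional ℝ E] {d : ℕ}
  {μ : Model E d} {g : Met E} {m : ℕ} {G : Geo μ g}

theorem IsMetric.dd_unif (h : IsMetric μ g) {η : ℝ} (hη : 0 < η) : ∃ δ : ℝ, 0 < δ ∧ ∀ p ∈ μ.M, ∀ a b : E,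
    ‖a - p‖ < δ → ‖b - p‖ < δ → dd μ g a b ≤ √(g p (b - a) (b - a)) + η * ‖b - a‖ := by
  obtain ⟨δ₀, h0, hU⟩ := μ.isCompact_M.exists_cthickening_subset_open μ.isOpen fun _ hz => hz.1
  have hK : IsCompact (Metric.cthickening δ₀ μ.M) := μ.isCompact_M.cthickening
  have hu := hK.uniformContinuousOn_of_continuous (h.smooth.continuousOn.mono hU)
  obtain ⟨δ₁, h1, hu⟩ := Metric.uniformContinuousOn_iff.1 hu (η ^ 2) (by positivity)
  refine ⟨min δ₀ δ₁, lt_min h0 h1, fun p hp a b ha hb => ?_⟩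
  have m4 := h.distA_seg (z := a) (u := b - a) (M := √(g p (b - a) (b - a)) + η * ‖b - a‖)
    fun s hs => by
      have m5 : a + s • (b - a) ∈ Metric.ball p (min δ₀ δ₁) :=
        (convex_ball p _).add_smul_sub_mem (mem_ball_iff_norm.2 ha) (mem_ball_iff_norm.2 hb) hs
      have m6 : a + s • (b - a) ∈ Metric.cthickening δ₀ μ.M :=
        Metric.mem_cthickening_of_dist_le _ p _ _ hp
          ((Metric.mem_ball.1 m5).le.trans (min_le_left _ _))
      have m7 := hu _ m6 p (Metric.self_subset_cthickening _ hp)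
        ((Metric.mem_ball.1 m5).trans_le (min_le_right _ _))
      refine ⟨hU m6, ?_⟩
      rw [dist_eq_norm] at m7
      have m8 := (le_abs_self _).trans ((g (a + s • (b - a)) - g p).le_opNorm₂ (b - a) (b - a))
      have m9 : ‖g (a + s • (b - a)) - g p‖ * ‖b - a‖ * ‖b - a‖ ≤ (η * ‖b - a‖) ^ 2 := by
        rw [mul_assoc, mul_pow, ← sq]
        exact mul_le_mul_of_nonneg_right m7.le (sq_nonneg _)
      have m10 := Real.sq_sqrt (h.nonneg hp.1 (b - a))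
      simp only [sub_apply (g _) (g p), sub_apply (g _ _) (g p _)] at m8
      refine Real.sqrt_le_iff.2 ⟨by positivity, ?_⟩
      have m11 : 0 ≤ √(g p (b - a) (b - a)) * (η * ‖b - a‖) := by positivity
      linarith only [m9, m10, m8, m11]
  rwa [add_sub_cancel] at m4

theorem IsMetric.Est_dif (h : IsMetric μ g) (G : Geo μ g) {ε : ℝ} (hε : 0 < ε) :
    ∃ δ : ℝ, 0 < δ ∧ ∀ x ∈ UT μ g, ∀ t : ℝ, |t| < δ → ‖G.Z t x - x.1 - t • x.2‖ ≤ ε * |t| := by
  have hK : IsCompact (Icc (-1 : ℝ) 1 ×ˢ UT μ g) := isCompact_Icc.prod h.isCompact_UT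
  have hu := hK.uniformContinuousOn_of_continuous
    ((G.jacA_vel h).continuousOn.mono fun p hp => UT_OO hp.2)
  obtain ⟨δ, h1, hu⟩ := Metric.uniformContinuousOn_iff.1 hu ε hε
  refine ⟨min δ 1, lt_min h1 one_pos, fun x hx t ht => ?_⟩
  have ho := UT_OO hx
  have k1 : ∀ s ∈ Metric.ball (0 : ℝ) (min δ 1), HasDerivWithinAt (fun s : ℝ => G.Z s x - s • x.2)
      (vel g (G.psi s x) - x.2) (Metric.ball (0 : ℝ) (min δ 1)) s := fun s _ => by
    have k := (G.hasDerivAt_Z h s ho).sub ((hasDerivAt_id s).smul_const x.2)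
    rw [one_smul] at k
    exact k.hasDerivWithinAt
  have k2 : ∀ s ∈ Metric.ball (0 : ℝ) (min δ 1), ‖vel g (G.psi s x) - x.2‖ ≤ ε := fun s hs => by
    rw [mem_ball_zero_iff, Real.norm_eq_abs, lt_min_iff] at hs
    have k := hu (s, x) ⟨abs_le.1 hs.2.le, hx⟩ (0, x) ⟨⟨by norm_num, by norm_num⟩, hx⟩ (by
      rw [Prod.dist_eq, dist_self, Real.dist_eq, sub_zero]
      exact max_lt hs.1 h1)
    rw [dist_eq_norm] at k
    simp only [G.psi_zero' hx.1, vel_UT hx] at k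
    exact k.le
  have k3 := (convex_ball (0 : ℝ) (min δ 1)).norm_image_sub_le_of_norm_hasDerivWithin_le k1 k2
    (Metric.mem_ball_self (lt_min h1 one_pos)) (mem_ball_zero_iff.2 ht)
  rw [G.Z_zero' hx.1, zero_smul, sub_zero, sub_zero, Real.norm_eq_abs] at k3
  rwa [sub_right_comm]

theorem Est_sqrt {a s : ℝ} (ha : 0 ≤ a) (hs : 0 < s) {b : ℝ} (hb : a + s ^ 2 ≤ 2 * s * b) :
    √a ≤ b := by
  have h1 := Real.sq_sqrt ha
  refine le_of_mul_le_mul_left ?_ (mul_pos two_pos hs)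
  linarith only [hb, h1, sq_nonneg (√a - s), sq_nonneg (√a - s)]

/-- The distance from a point near the foot point to a point of the geodesic. -/
theorem IsMetric.Est_one (h : IsMetric μ g) (G : Geo μ g) {ε : ℝ} (hε : 0 < ε) :
    ∃ k δ : ℝ, 0 < k ∧ 0 < δ ∧ ∀ x ∈ UT μ g, ∀ σ s : ℝ, |σ| = 1 → 0 < s → s < δ → ∀ y : E,
      ‖y - x.1‖ ≤ k * s → dd μ g y (G.Z (σ * s) x) ≤ s - σ * g x.1 x.2 (y - x.1) + ε * (k * s) := by
  obtain ⟨A, hA0, hA⟩ : ∃ A : ℝ, 0 ≤ A ∧ ∀ x ∈ UT μ g, ‖x.2‖ ≤ A := by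
    obtain ⟨A, hA⟩ := h.isCompact_UT.exists_bound_of_continuousOn (f := Prod.snd) continuousOn_snd
    exact ⟨max A 0, le_max_right _ _, fun x hx => (hA x hx).trans (le_max_left _ _)⟩
  obtain ⟨C, hC0, hC⟩ : ∃ C : ℝ, 0 ≤ C ∧ ∀ p ∈ μ.M, ‖g p‖ ≤ C := by
    obtain ⟨C, hC⟩ := μ.isCompact_M.exists_bound_of_continuousOn
      (h.smooth.continuousOn.mono fun _ hz => hz.1)
    exact ⟨max C 0, le_max_right _ _, fun x hx => (hC x hx).trans (le_max_left _ _)⟩
  obtain ⟨k, hk0, hk1, hk⟩ : ∃ k : ℝ, 0 < k ∧ k ≤ 1 ∧ k * (C * A + 2 * C + A + 2) ≤ ε := by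
    have hD : 0 < C * A + 2 * C + A + 2 := by positivity
    refine ⟨min 1 (ε / (C * A + 2 * C + A + 2)), lt_min one_pos (by positivity), min_le_left _ _, ?_⟩
    exact (le_div_iff₀ hD).1 (min_le_right _ _)
  have hη : 0 < k ^ 2 := by positivity
  have hη1 : k ^ 2 ≤ k := by linarith only [hk0, hk1, mul_nonneg_of_nonpos_of_nonpos (le_of_lt (Mathlib.Tactic.Linarith.sub_neg_of_lt hk0)) (Mathlib.Tactic.Linarith.sub_nonpos_of_le hk1)]
  obtain ⟨δ₁, h1, H1⟩ := h.dd_unif hη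
  obtain ⟨δ₂, h2, H2⟩ := h.Est_dif G hη
  refine ⟨k, min δ₂ (δ₁ / (A + 1)), hk0, lt_min h2 (by positivity), fun x hx σ s hσ hs hsδ y hy => ?_⟩
  rw [lt_min_iff, lt_div_iff₀ (by positivity)] at hsδ
  have hp : x.1 ∈ μ.M := hx.1.1
  have e1 : |σ * s| = s := by rw [abs_mul, hσ, one_mul, abs_of_pos hs]
  have e2 : σ * σ = 1 := by rw [← abs_mul_abs_self, hσ, one_mul]
  have k1 := H2 x hx (σ * s) (e1.symm ▸ hsδ.1)
  rw [e1] at k1
  obtain ⟨w, hw⟩ : ∃ w, w = G.Z (σ * s) x - x.1 - (σ * s) • x.2 := ⟨_, rfl⟩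
  obtain ⟨ξ, hξ⟩ : ∃ ξ, ξ = y - x.1 := ⟨_, rfl⟩
  rw [← hw] at k1
  rw [← hξ] at hy ⊢
  have k2 : ‖(σ * s) • x.2‖ ≤ s * A := by
    rw [norm_smul, Real.norm_eq_abs, e1]
    exact mul_le_mul_of_nonneg_left (hA x hx) hs.le
  have k3 : k ^ 2 * s ≤ k * s := mul_le_mul_of_nonneg_right hη1 hs.le
  have k4 : k * s ≤ s := mul_le_of_le_one_left hs.le hk1
  have k5 : 0 ≤ s * A := by positivity
  have e3 : G.Z (σ * s) x - x.1 = (σ * s) • x.2 + w := by rw [hw]; abel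
  have e4 : G.Z (σ * s) x - y = (σ * s) • x.2 + (w - ξ) := by rw [hw, hξ]; abel
  have k6 := H1 x.1 hp y (G.Z (σ * s) x) (by rw [← hξ]; linarith only [hsδ, hy, k4, k5]) (by
    rw [e3]
    linarith only [hsδ, k1, k2, k3, k4, norm_add_le ((σ * s) • x.2) w])
  rw [e4] at k6
  have k7 : ‖w - ξ‖ ≤ 2 * (k * s) := by linarith only [k1, hy, k3, norm_sub_le w ξ]
  have k8 : k ^ 2 * ‖(σ * s) • x.2 + (w - ξ)‖ ≤ k ^ 2 * (s * (A + 2)) :=
    mul_le_mul_of_nonneg_left (by linarith only [k2, k4, k7, norm_add_le ((σ * s) • x.2) (w - ξ)]) hη.le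
  have k9 : g x.1 (w - ξ) (w - ξ) ≤ C * (2 * (k * s)) * (2 * (k * s)) :=
    (le_abs_self _).trans (((g x.1).le_opNorm₂ _ _).trans
      (mul_le_mul (mul_le_mul (hC _ hp) k7 (norm_nonneg _) hC0) k7 (norm_nonneg _) (by positivity)))
  have k10 : σ * g x.1 x.2 w ≤ C * A * (k ^ 2 * s) := by
    refine (le_abs_self _).trans ?_
    rw [abs_mul, hσ, one_mul]
    exact ((g x.1).le_opNorm₂ _ _).trans
      (mul_le_mul (mul_le_mul (hC _ hp) (hA x hx) (norm_nonneg _) hC0) k1 (norm_nonneg _)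
        (by positivity))
  have e5 : g x.1 ((σ * s) • x.2 + (w - ξ)) ((σ * s) • x.2 + (w - ξ)) =
      s ^ 2 + 2 * s * (σ * g x.1 x.2 w - σ * g x.1 x.2 ξ) + g x.1 (w - ξ) (w - ξ) := by
    have e6 : g x.1 x.2 (w - ξ) = g x.1 x.2 w - g x.1 x.2 ξ := map_sub _ _ _
    simp only [map_add, map_smul, add_apply, smul_apply, smul_eq_mul, h.g_UT hx,
      h.symm x.1 (w - ξ) x.2 hp.1, e6]
    linear_combination s ^ 2 * e2
  have k11 := Est_sqrt (h.nonneg hp.1 ((σ * s) • x.2 + (w - ξ))) hs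
    (b := s - σ * g x.1 x.2 ξ + (C * A + 2 * C) * (k ^ 2 * s)) (by
      rw [e5]
      linarith only [k9, k10, hs, mul_le_mul_of_nonneg_left k10 hs.le])
  have k12 := mul_le_mul_of_nonneg_right hk (mul_pos hk0 hs).le
  linarith only [k6, k8, k11, k12]

namespace Bl
variable (hB : Bl g G)
include hB

theorem td_dif {ε : ℝ} (hε : 0 < ε) : ∃ δ : ℝ, 0 < δ ∧ ∀ c ∈ G.SS, ∀ t : ℝ, |t| < δ →
    ‖c (cs t) - c 1 - t • vl c‖ ≤ ε * |t| := by
  obtain ⟨δ, hδ, H⟩ := hB.met.Est_dif G hε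
  refine ⟨δ, hδ, fun c hc t ht => ?_⟩
  rw [hB.SS_cs hc]
  exact H _ (hB.sec_mem hc) t ht

theorem td_cone {ε : ℝ} (hε : 0 < ε) : ∃ δ : ℝ, 0 < δ ∧ ∀ c ∈ G.SS, ∀ y ∈ cutS G.SS,
    ‖y - (c 1, c (cs (π / 2)))‖ < δ → |g (c 1) (vl c) (y.1 - c 1) -
      g (c (cs (π / 2))) (vl (sh (cs (π / 2)) c)) (y.2 - c (cs (π / 2)))| ≤
        ε * ‖y - (c 1, c (cs (π / 2)))‖ := by
  have h := hB.met
  have hpi := Real.pi_pos
  obtain ⟨k, δ, hk, hδ, H⟩ := h.Est_one G (half_pos hε)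
  refine ⟨k * Min.min δ (π / 4), by positivity, fun c hc y hy hn => ?_⟩
  have hx := hB.sec_mem hc
  rw [hB.vl_sh hc, hB.SS_cs hc]
  rw [hB.SS_cs hc] at hn
  change ‖y - ((sec c).1, _)‖ < _ at hn
  change |g (sec c).1 (sec c).2 (y.1 - (sec c).1) - _| ≤ ε * ‖y - ((sec c).1, _)‖
  generalize sec c = x at hx hn ⊢
  have ho := UT_OO hx
  have hx₂ := h.psi_UT (G := G) (π / 2) hx
  obtain ⟨c', hc', e1, e2⟩ := hy
  have hx' := hB.sec_mem hc'
  rw [hB.SS_cs hc'] at e2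
  have u1 : y.1 ∈ μ.U := e1 ▸ (UT_OO hx').1
  have u2 : y.2 ∈ μ.U := e2 ▸ G.Z_U _ (UT_OO hx')
  have hd : dd μ g y.1 y.2 = π / 2 := by
    have := hB.dd_Z_zero (UT_OO hx') (t := π / 2) (by rw [abs_of_pos (half_pos hpi)])
    rwa [abs_of_pos (half_pos hpi), e2, show (sec c').1 = y.1 from e1] at this
  obtain ⟨n, hn'⟩ : ∃ n, n = ‖y - (x.1, G.Z (π / 2) x)‖ := ⟨_, rfl⟩
  have n1 : ‖y.1 - x.1‖ ≤ n := hn' ▸ norm_fst_le (y - (x.1, G.Z (π / 2) x))
  have n2 : ‖y.2 - G.Z (π / 2) x‖ ≤ n := hn' ▸ norm_snd_le (y - (x.1, G.Z (π / 2) x))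
  rw [← hn'] at hn ⊢
  rcases ((norm_nonneg _).trans n1).eq_or_lt with h0 | h0
  · rw [← h0] at n1 n2 ⊢
    rw [norm_le_zero_iff.1 n1, norm_le_zero_iff.1 n2]
    simp
  obtain ⟨s, hs, rfl⟩ : ∃ s, 0 < s ∧ n = k * s := ⟨n / k, by positivity, by field_simp⟩
  have hs' := lt_min_iff.1 (lt_of_mul_lt_mul_left hn hk.le)
  have a1 := H x hx 1 s abs_one hs hs'.1 y.1 n1
  have a2 := H x hx (-1) s (by simp) hs hs'.1 y.1 n1
  have b1 := H _ hx₂ 1 s abs_one hs hs'.1 y.2 n2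
  have b2 := H _ hx₂ (-1) s (by simp) hs hs'.1 y.2 n2
  rw [G.Z_add _ _ ho, dd_symm] at b1 b2
  have c1 := h.dd_Z_le G ho (1 * s) (-1 * s + π / 2)
  have c2 := h.dd_Z_le G ho (-1 * s + π) (1 * s + π / 2)
  rw [abs_of_nonneg (by linarith only [hs', hs'.2])] at c1
  rw [hB.Z_add_pi _ ho, abs_of_nonpos (by linarith only [hs', hs'.2])] at c2
  have t1 := h.dd_triangle u1 (G.Z_U (1 * s) ho) u2
  have t2 := h.dd_triangle (G.Z_U (1 * s) ho) (G.Z_U (-1 * s + π / 2) ho) u2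
  have t3 := h.dd_triangle u1 (G.Z_U (-1 * s) ho) u2
  have t4 := h.dd_triangle (G.Z_U (-1 * s) ho) (G.Z_U (1 * s + π / 2) ho) u2
  change _ ≤ s - _ * g (G.Z (π / 2) x) _ (y.2 - G.Z (π / 2) x) + _ at b1 b2
  rw [abs_le]
  constructor <;> linarith only [hd, a2, c2, t3, t4, b1, a1, c1, t1, t2, b2]

end Bl

end Pool.Agent.Work.MP_8c604c_gt.O
end
end

-- merged part: Pool.Agent.Work.MP_8c604c_gt.OB.TD1
section
/-!
The closed geodesics of a Blaschke metric form a `TD1`.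
Model: B/TD0.lean.  Use the lemmas of OB/Lp (lp_cs, lp_one, vl_lp, sec_lp, lp_mem, lk_iff, mem_WS_lk, sh_lp).
Plan. link: W is the image of WS x under u ↦ (u, D u), D from exists_swap, finrank_WS. inj: dd_Z_zero gives t' = t, then Z_inj. ne: Z_not_mem. surj: exists_Z.
td_corner: IsMetric.corner at y = psi s x.  td_bil: be y = b x for any x ∈ UT with end points y (Classical.epsilon), continuity by desc₀ along x ↦ (x.1, Z (π/2) x); InW is WS by mem_WS_lk.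
-/

set_option maxSynthPendingDepth 3
set_option linter.unusedSectionVars false

open Set Filter Topology MeasureTheory
open scoped ContDiff

noncomputable section
namespace Pool.Agent.Work.MP_8c604c_gt.O

open OT Real Model
open T (RN cs)
open B (mkL mkL_per continuousOn_mkL loop_ext desc desc₀)

variable {E : Type} [NormedAddCommGroup E] [InnerProductSpace ℝ E] [FiniteDimensional ℝ E]
  {μ : Model E 16} {g : Met E} {m : ℕ} {G : Geo μ g}

namespace Bl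
variable (hB : Bl g G)
include hB

theorem td_link {k : ℕ} (hk : ∀ x ∈ μ.TT, G.kk x = k) {c : LM E} (hc : c ∈ G.SS) :
    ∃ W : Submodule ℝ (E × E), Module.finrank ℝ W = k + 1 ∧ ∀ y, y ∈ W ↔
      ∃ c' ∈ G.SS, Lk c c' ∧ ∃ r : ℝ, 0 ≤ r ∧ y = r • (vl c', vl (sh (cs (π / 2)) c')) := by
  obtain ⟨x, hx, rfl⟩ := hc
  obtain ⟨D, hD⟩ := hB.exists_swap hx.1
  let T : E →ₗ[ℝ] E × E := LinearMap.id.prod (D : E →ₗ[ℝ] E)
  have key : ∀ c' ∈ G.SS, Lk (G.lp x) c' → (vl c', vl (sh (cs (π / 2)) c')) = T (vl c') := by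
    rintro _ ⟨⟨p, w⟩, hw, rfl⟩ ⟨h1, h2⟩
    rw [hB.lp_one hw.1, hB.lp_one hx.1] at h1
    rw [hB.lp_cs (UT_OO hw), hB.lp_cs (UT_OO hx)] at h2
    obtain rfl : p = x.1 := h1
    rw [hB.sh_lp (UT_OO hw), hB.vl_lp (G.psi_TT hB.met _ (UT_OO hw)), hD w hw.1 h2, hB.vl_lp hw.1]
    rfl
  refine ⟨(G.WS x).map T, ?_, fun y => ⟨?_, ?_⟩⟩
  · rw [← hk x hx.1, ← Geo.finrank_WS hB.met hx.1, ← LinearMap.range_domRestrict]
    exact LinearMap.finrank_range_of_inj fun u v e => Subtype.ext (congrArg Prod.fst e)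
  · rintro ⟨u, hu, rfl⟩
    obtain ⟨c', hc', hl, r, hr, rfl⟩ := (hB.mem_WS_lk hx.1 u).1 hu
    exact ⟨c', hc', hl, r, hr, by rw [key c' hc' hl, map_smul]⟩
  · rintro ⟨c', hc', hl, r, hr, rfl⟩
    rw [key c' hc' hl]
    exact Submodule.smul_mem _ _ ⟨_, ((hB.lk_iff hx.1 hc').1 hl).2, rfl⟩

/-- The closed geodesics. -/
def td0 {k : ℕ} (hk : ∀ x ∈ μ.TT, G.kk x = k) : TD0 μ.mf k where
  S := G.SS
  vel := vl
  cpt := hB.isCompact_SS
  inv θ _ hc := hB.sh_mem θ hc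
  mem c hc θ := by
    obtain ⟨t, -, rfl⟩ := B.exists_cs θ
    rw [hB.SS_cs hc]
    exact G.Z_mem t (UT_OO (hB.sec_mem hc))
  cvel := hB.continuousOn_vl
  tan _ hc := TT_TM (hB.sec_mem hc).1
  vne _ hc := (hB.sec_mem hc).1.2.2
  ex p u h h0 := by
    have hx : (p, u) ∈ μ.TT := ⟨h.1, h.2, h0⟩
    refine ⟨_, hB.lp_mem hx, hB.lp_one hx, _, hB.met.spd_pos (TT_OO hx), ?_⟩
    rw [hB.vl_lp hx]
    exact hB.met.snd_eq (TT_OO hx)
  uniq c hc c' hc' h1 r hr h2 := by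
    rw [← hB.lp_sec hc, ← hB.lp_sec hc']
    refine hB.lp_congr (UT_OO (hB.sec_mem hc)) (UT_OO (hB.sec_mem hc')) h1 ?_
    rw [← vel_sc hr (sec c)]
    exact congrArg (vel g) (Prod.ext h1 h2)
  ne c hc t ht := by
    rw [← B.cs_zero, hB.SS_cs hc, hB.SS_cs hc]
    exact hB.Z_not_mem (UT_OO (hB.sec_mem hc)) ⟨ht.1, by linarith [ht.2, pi_pos]⟩
  inj c hc c' hc' h1 t ht t' ht' e := by
    have hx := (hB.sec_mem hc).1
    have hx' := (hB.sec_mem hc').1
    have h2 : (sec c').1 = (sec c).1 := h1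
    rw [hB.SS_cs hc, hB.SS_cs hc'] at e
    have d1 := hB.dd_Z_zero (TT_OO hx) (t := t) (by rw [abs_of_pos ht.1]; exact ht.2.le)
    have d2 := hB.dd_Z_zero (TT_OO hx') (t := t') (by rw [abs_of_pos ht'.1]; exact ht'.2)
    rw [h2, e, d1, abs_of_pos ht.1, abs_of_pos ht'.1] at d2
    subst d2
    refine ⟨?_, rfl⟩
    rw [← hB.lp_sec hc, ← hB.lp_sec hc']
    exact hB.lp_congr (TT_OO hx) (TT_OO hx') h2 (hB.Z_inj hx hx' h2 ht e.symm).symm
  surj p hp q hq h := by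
    obtain ⟨w, hw, t, ht, e⟩ := hB.exists_Z hp hq h.symm
    exact ⟨_, hB.lp_mem hw, hB.lp_one hw, t, ht, (hB.lp_cs (TT_OO hw) t).trans e⟩
  link _ hc := hB.td_link hk hc

theorem td_corner {c c' : LM E} (hc : c ∈ G.SS) (hc' : c' ∈ G.SS) {s t : ℝ} (hs : 0 < s) (ht : 0 < t)
    (e : c' 1 = c (cs s)) (hd : dd μ g (c 1) (c' (cs t)) = s + t) : c' = sh (cs s) c := by
  obtain ⟨x, hx, rfl⟩ := hc
  obtain ⟨x', hx', rfl⟩ := hc'
  have hy := G.psi_TT hB.met s (UT_OO hx)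
  rw [hB.lp_one hx'.1, hB.lp_cs (UT_OO hx)] at e
  rw [hB.lp_one hx.1, hB.lp_cs (UT_OO hx')] at hd
  rw [hB.sh_lp (UT_OO hx)]
  refine hB.lp_congr (TT_OO hy) (UT_OO hx') e (by_contra fun hv => ?_)
  have h := hB.met.corner G hy hx'.1 e hv hs ht
  rw [G.Z_add _ _ (UT_OO hx), neg_add_cancel, G.Z_zero' hx.1, hd] at h
  exact lt_irrefl _ h

theorem TD1_InW {k : ℕ} (hk : ∀ x ∈ μ.TT, G.kk x = k) {x : E × E} (hx : x ∈ μ.TT) (u : E) :
    (hB.td0 hk).InW (x.1, G.Z (π / 2) x) u ↔ u ∈ G.WS x := by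
  rw [hB.mem_WS_lk hx]
  refine exists_congr fun c => and_congr_right fun _ => and_congr_left fun _ => ?_
  rw [Lk, hB.lp_one hx, hB.lp_cs (TT_OO hx), Prod.mk.injEq]

theorem td_bil {k : ℕ} (hk : ∀ x ∈ μ.TT, G.kk x = k) (hb : G.Bil0) : (hB.td0 hk).Bil := by
  obtain ⟨b, h1, h2, h3⟩ := hb
  let q : E × E → E × E := fun x => (x.1, G.Z (π / 2) x)
  have key : ∀ x ∈ UT μ g, b (Classical.epsilon fun x' => x' ∈ UT μ g ∧ q x' = q x) = b x :=
    fun x hx => by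
      have h := Classical.epsilon_spec (p := fun x' => x' ∈ UT μ g ∧ q x' = q x) ⟨x, hx, rfl⟩
      exact h2 _ h.1 x hx (Prod.ext_iff.1 h.2).1 (Prod.ext_iff.1 h.2).2
  have hs : cutS G.SS ⊆ q '' UT μ g := by
    rintro y ⟨c, hc, e1, e2⟩
    exact ⟨_, hB.sec_mem hc, Prod.ext e1 ((hB.SS_cs hc _).symm.trans e2)⟩
  have hq : ContinuousOn q (UT μ g) := continuousOn_fst.prodMk
    ((G.contDiffOn_Z hB.met).continuousOn.comp (f := fun x : E × E => (π / 2, x))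
      (continuousOn_const.prodMk continuousOn_id) fun _ hx => UT_OO hx)
  refine ⟨fun y => b (Classical.epsilon fun x' => x' ∈ UT μ g ∧ q x' = y),
    desc₀ hB.met.isCompact_UT hq hs ((h1.mono fun _ hx => hx.1).congr fun x hx => key x hx.1),
    fun y hy u w hu hu' hw hw' => ?_⟩
  obtain ⟨x, hx, rfl⟩ := hs hy
  have e : (q x).swap = ((G.psi (π / 2) x).1, G.Z (π / 2) (G.psi (π / 2) x)) := by
    rw [G.Z_add _ _ (UT_OO hx), add_halves, ← zero_add π, hB.Z_add_pi _ (UT_OO hx),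
      G.Z_zero' hx.1, zero_add]
    rfl
  rw [e, hB.TD1_InW hk (G.psi_TT hB.met _ (UT_OO hx))] at hu'
  obtain ⟨h4, h5⟩ := h3 x hx u w hu.2 hu' ((hB.TD1_InW hk hx.1 w).1 hw) hw'
  beta_reduce
  rw [key x hx]
  exact ⟨⟨hx.1.1, h4⟩, mt (hB.TD1_InW hk hx.1 _).1 h5⟩

/-- The closed geodesics with the distance and the metric. -/
def td1 (hk : ∀ x ∈ μ.TT, G.kk x = 7) (hb : G.Bil0) : TD1 μ.mf where
  toTD0 := hB.td0 hk
  d := dd μ g
  dS c hc t ht := by
    rw [hB.SS_cs hc]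
    exact (hB.dd_Z_zero (UT_OO (hB.sec_mem hc)) (by rw [abs_of_nonneg ht.1]; exact ht.2)).trans
      (abs_of_nonneg ht.1)
  symm p _ q _ := dd_symm p q
  tri _ hp _ hq _ hs := hB.met.dd_triangle hp.1 hq.1 hs.1
  gm := g
  pos p u h h0 := hB.met.pos p u h.1.1 fun e => h0 (h.2.symm.trans e)
  dif _ hε := hB.td_dif hε
  cone _ hε := hB.td_cone hε
  corner _ hc _ hc' _ _ hs ht _ e hd := hB.td_corner hc hc' hs ht e hd
  cover := μ.mf_cover
  bil := hB.td_bil hk hb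

end Bl

end Pool.Agent.Work.MP_8c604c_gt.O
end
end

-- merged part: Pool.Agent.Work.MP_8c604c_gt.OB.PuL
section
/-!
The bundles over the loops and the linearisation of the push.
Plan. θ = cs t (B.exists_cs), sec_sh, cs_cs; cs t = Circle.exp (2 * t).  BW: model out_BW in B/Out.lean, mem_WS_lk, mem_WS_iff.
exists_XL: v' = (K a, (K b₁, K b₂), P c); the map v ↦ mkL .. is linear by loop_ext and mkL_per (X_add, X_smul, fl is linear in the fibre, fl_per, cont_fl, D.cX); LinearMap.toContinuousLinearMap;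
dite on x ∈ SS ×ˢ Sp m.  tr2: exists_jac twice, then D.tr.
-/

set_option maxSynthPendingDepth 3
set_option linter.unusedSectionVars false

open Set Filter Topology MeasureTheory
open scoped ContDiff

noncomputable section
namespace Pool.Agent.Work.MP_8c604c_gt.O

open OT Real Model
open T (RN cs)
open B (mkL mkL_per continuousOn_mkL loop_ext desc desc₀)

variable {E : Type} [NormedAddCommGroup E] [InnerProductSpace ℝ E] [FiniteDimensional ℝ E] {d : ℕ}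
  {μ : Model E d} {g : Met E} {m : ℕ} {G : Geo μ g}

namespace ND2
variable (D : ND2 G m) (hB : Bl g G)
include hB

theorem PuL_mem {x : LM E × CM m} (hx : x ∈ G.SS ×ˢ Sp m) : (sec x.1, x.2) ∈ XT μ g m :=
  ⟨hB.sec_mem hx.1, hx.2⟩

theorem PuL_cont : ContinuousOn (fun x : LM E × CM m => (sec x.1, x.2)) (G.SS ×ˢ Sp m) :=
  (hB.continuousOn_sec.comp continuous_fst.continuousOn fun _ hx => hx.1).prodMk
    continuous_snd.continuousOn

theorem up_mem {z : (LM E × CM m) × FB D.N D.N'} :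
    z ∈ tot2 G.SS D.KL D.PL ↔ z.1 ∈ G.SS ×ˢ Sp m ∧ ((sec z.1.1, z.1.2), z.2) ∈ D.U :=
  ⟨fun h => ⟨h.1, PuL_mem hB h.1, h.2⟩, fun h => ⟨h.1, h.2.2⟩⟩

theorem cKL : ContinuousOn D.KL (G.SS ×ˢ Sp m) :=
  D.cK.comp (PuL_cont hB) fun _ hx => PuL_mem hB hx

theorem cPL : ContinuousOn D.PL (G.SS ×ˢ Sp m) :=
  D.cP.comp (PuL_cont hB) fun _ hx => PuL_mem hB hx

theorem invKL (θ : Circle) {x : LM E × CM m} (hx : x ∈ G.SS ×ˢ Sp m) :
    D.KL (sh θ x.1, (θ : ℂ) • x.2) = D.KL x := by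
  obtain ⟨t, -, rfl⟩ := B.exists_cs θ
  have h := D.invK t _ (PuL_mem hB hx)
  change D.K (sec (sh (cs t) x.1), _) = _
  rw [hB.sec_sh t hx.1]
  exact h

theorem invPL (θ : Circle) {x : LM E × CM m} (hx : x ∈ G.SS ×ˢ Sp m) :
    D.PL (sh (θ * θ) x.1, (θ : ℂ) • x.2) = D.PL x := by
  obtain ⟨t, -, rfl⟩ := B.exists_cs θ
  have h := D.invP (2 * t) _ (PuL_mem hB hx)
  change D.P (sec (sh (cs t * cs t) x.1), _) = _
  rw [cs_cs, hB.sec_sh (2 * t) hx.1]
  exact h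

theorem BW {x : LM E × CM m} (hx : x ∈ G.SS ×ˢ Sp m) (u : E) :
    (∃ c' ∈ G.SS, Lk x.1 c' ∧ ∃ r : ℝ, 0 ≤ r ∧ u = r • vl c') ↔
      ∃ (t : ℝ) (a : RN D.N), D.KL x a = a ∧ u = t • vl x.1 + D.R (sec x.1, x.2) a := by
  have h1 := hB.sec_mem hx.1
  have h2 := hB.mem_WS_lk h1.1 u
  rw [hB.lp_sec hx.1, Geo.mem_WS_iff hB.met h1.1, vel_UT h1] at h2
  rw [← h2]
  constructor
  · rintro ⟨t, κ, hκ, e⟩
    obtain ⟨a, ha, e'⟩ := D.surjR _ (PuL_mem hB hx) κ hκ
    exact ⟨t, a, ha, by rw [e']; exact e⟩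
  · rintro ⟨t, a, ha, e⟩
    exact ⟨t, _, D.memR _ (PuL_mem hB hx) a ha, e⟩

theorem BW' {x : LM E × CM m} (hx : x ∈ G.SS ×ˢ Sp m) {a : RN D.N'} (ha : D.PL x a = a) {c' : LM E}
    (hc : c' ∈ G.SS) (hl : Lk x.1 c') {r : ℝ} (e : D.R' (sec x.1, x.2) a = r • vl c') : a = 0 := by
  have h1 := hB.sec_mem hx.1
  refine D.injR' _ (PuL_mem hB hx) a ha ?_
  rw [e]
  refine Submodule.smul_mem _ _ ((hB.lk_iff h1.1 hc).1 ?_).2
  rwa [hB.lp_sec hx.1]

theorem PuL_mk {z : TZ E m D.N D.N'} (hz : z ∈ D.U) (s : ℝ) :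
    mkL (fun t => D.X (G.fl (2 * t) z)) (cs s) = D.X (G.fl (2 * s) z) := by
  refine mkL_per (c := fun t => D.X (G.fl (2 * t) z)) ?_ (fun t => ?_) s
  · have c1 : ContinuousOn (fun t : ℝ => G.fl (2 * t) z) (Icc 0 π) :=
      (D.cont_fl hB).comp (f := fun t : ℝ => (2 * t, z)) (by fun_prop) fun _ _ => ⟨trivial, hz⟩
    exact D.cX.comp c1 fun t _ => D.fl_mem hB _ hz
  · change D.X (G.fl (2 * (t + π)) z) = D.X (G.fl (2 * t) z)
    rw [mul_add, D.fl_per hB _ hz]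

theorem exists_XL : ∃ XL, D.IsXL XL := by
  have key : ∀ x : LM E × CM m, ∃ L : FB D.N D.N' →L[ℝ] LM E, x ∈ G.SS ×ˢ Sp m → ∀ v, ∃ v',
      ((sec x.1, x.2), v') ∈ D.U ∧ (((sec x.1, x.2), v) ∈ D.U → v' = v) ∧
      ∀ s, L v (cs s) = D.X (G.fl (2 * s) ((sec x.1, x.2), v')) := by
    intro x
    by_cases hx : x ∈ G.SS ×ˢ Sp m
    swap
    · exact ⟨0, fun h => (hx h).elim⟩
    have hy := PuL_mem hB hx
    generalize (sec x.1, x.2) = y at hy
    have hq : sq2 y ∈ XT μ g m := ⟨hy.1, sq_mem.2 hy.2⟩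
    let p : FB D.N D.N' → FB D.N D.N' := fun v =>
      (D.K (sq2 y) v.1, (D.K (sq2 y) v.2.1.1, D.K (sq2 y) v.2.1.2), D.P y v.2.2)
    have hp : ∀ v, (y, p v) ∈ D.U := fun v =>
      ⟨hy, D.idK _ hq _, D.idK _ hq _, D.idK _ hq _, D.idP _ hy _⟩
    have pa : ∀ v v', p (v + v') = p v + p v' := fun v v' => by
      simp only [p, Prod.fst_add, Prod.snd_add, map_add, Prod.mk_add_mk]
    have ps : ∀ (r : ℝ) v, p (r • v) = r • p v := fun r v => by
      simp only [p, Prod.smul_fst, Prod.smul_snd, map_smul, Prod.smul_mk]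
    let L : FB D.N D.N' →ₗ[ℝ] LM E :=
      { toFun := fun v => mkL fun t => D.X (G.fl (2 * t) (y, p v))
        map_add' := fun v v' => loop_ext fun s _ => by
          rw [ContinuousMap.add_apply, D.PuL_mk hB (hp _), D.PuL_mk hB (hp _), D.PuL_mk hB (hp _), pa]
          have e : G.fl (2 * s) (y, p v + p v') =
              (G.f2 (2 * s) y, (G.fl (2 * s) (y, p v)).2 + (G.fl (2 * s) (y, p v')).2) := by
            simp only [Geo.fl, Prod.fst_add, Prod.snd_add, rot_add, Prod.mk_add_mk]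
          rw [e, D.X_add]
          rfl
        map_smul' := fun r v => loop_ext fun s _ => by
          rw [RingHom.id_apply, ContinuousMap.smul_apply, D.PuL_mk hB (hp _), D.PuL_mk hB (hp _), ps]
          have e := fl_smul (G := G) (2 * s) r (y, p v)
          rw [e, D.X_smul] }
    refine ⟨LinearMap.toContinuousLinearMap L, fun _ v => ⟨p v, hp v, fun hv => ?_, fun s => ?_⟩⟩
    · exact Prod.ext hv.2.1 (Prod.ext (Prod.ext hv.2.2.1 hv.2.2.2.1) hv.2.2.2.2)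
    · exact D.PuL_mk hB (hp v) s
  choose XL h using key
  exact ⟨XL, h⟩

theorem tan2 {XL : LM E × CM m → FB D.N D.N' →L[ℝ] LM E} (h : D.IsXL XL) {x : LM E × CM m}
    (hx : x ∈ G.SS ×ˢ Sp m) (v : FB D.N D.N') (θ : Circle) : (x.1 (θ * θ), XL x v θ) ∈ μ.TM := by
  obtain ⟨t, -, rfl⟩ := B.exists_cs θ
  obtain ⟨v', h1, -, h2⟩ := h x hx v
  rw [h2, cs_cs, hB.SS_cs hx.1]
  exact ⟨G.Z_mem _ (UT_OO (hB.sec_mem hx.1)), D.tan _ (D.fl_mem hB (2 * t) h1)⟩

theorem nor2 {XL : LM E × CM m → FB D.N D.N' →L[ℝ] LM E} (h : D.IsXL XL) {x : LM E × CM m}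
    {v : FB D.N D.N'} (hz : (x, v) ∈ tot2 G.SS D.KL D.PL) (θ : Circle) :
    g (x.1 (θ * θ)) (vl (sh (θ * θ) x.1)) (XL x v θ) = 0 := by
  obtain ⟨t, -, rfl⟩ := B.exists_cs θ
  have hx : x ∈ G.SS ×ˢ Sp m := hz.1
  obtain ⟨v', h1, -, h2⟩ := h x hx v
  rw [h2, cs_cs, hB.SS_cs hx.1, hB.vl_sh hx.1]
  exact D.perp _ (D.fl_mem hB (2 * t) h1)

theorem tr2 {XL : LM E × CM m → FB D.N D.N' →L[ℝ] LM E} (h : D.IsXL XL) {x : LM E × CM m}
    {v : FB D.N D.N'} (hz : (x, v) ∈ tot2 G.SS D.KL D.PL) (h0 : XL x v (cs (π / 2)) = XL x v 1)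
    (h1 : ∀ c' ∈ G.SS, Lk x.1 c' → g (x.1 1) (vl c') (XL x v 1) =
      g (x.1 (cs (π / 2))) (vl (sh (cs (π / 2)) c')) (XL x v (cs (π / 4))))
    (h2 : ∀ c' ∈ G.SS, Lk x.1 c' → g (x.1 1) (vl c') (XL x v 1) =
      g (x.1 (cs (π / 2))) (vl (sh (cs (π / 2)) c')) (XL x v (cs (3 * π / 4)))) : v = 0 := by
  obtain ⟨hx, hU⟩ := (D.up_mem hB).1 hz
  obtain ⟨v', -, e, hs⟩ := h x hx v
  rw [e hU] at hs
  have hy := hB.sec_mem hx.1
  have e0 : XL x v 1 = D.X ((sec x.1, x.2), v) := by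
    rw [← B.cs_zero, hs, mul_zero, D.fl_zero hB hU]
  have e1 : (2 : ℝ) * (π / 2) = π := by ring
  have e2 : (2 : ℝ) * (π / 4) = π / 2 := by ring
  have e3 : (2 : ℝ) * (3 * π / 4) = 3 * π / 2 := by ring
  rw [e0, hs, e1] at h0
  rw [e0, hs, e2, hB.SS_cs hx.1 (π / 2)] at h1
  rw [e0, hs, e3, hB.SS_cs hx.1 (π / 2)] at h2
  have t3 : μ.P (G.Z (π / 2) (sec x.1)) (D.X (G.fl (3 * π / 2) ((sec x.1, x.2), v))) =
      D.X (G.fl (3 * π / 2) ((sec x.1, x.2), v)) := by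
    have e4 : 3 * π / 2 = π / 2 + π := by ring
    rw [← hB.Z_add_pi (π / 2) (UT_OO hy), ← e4]
    exact D.tan _ (D.fl_mem hB _ hU)
  obtain ⟨δ₁, a1, b1⟩ := hB.exists_jac hy.1 (D.tan _ hU) (D.tan _ (D.fl_mem hB (π / 2) hU))
    fun c hc hl => h1 c hc (by rwa [hB.lp_sec hx.1] at hl)
  obtain ⟨δ₂, a2, b2⟩ := hB.exists_jac hy.1 (D.tan _ hU) t3
    fun c hc hl => h2 c hc (by rwa [hB.lp_sec hx.1] at hl)
  exact D.tr _ hU δ₁ δ₂ h0 a1 b1 a2 b2

end ND2

end Pool.Agent.Work.MP_8c604c_gt.O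
end
end

-- merged part: Pool.Agent.Work.MP_8c604c_gt.OB.PuM
section
/-!
The pushes as maps into the loops.
Plan. pu2_cs, pu1_cs: mkL_per (fl_per; for pu1 the period π comes from pt_sq: fl (t + π) differs from fl t by the sign of the sphere coordinate; cl ε (a, 0) = (r • a, 0), rot θ 0 = 0).
c2: continuousOn_mkL, continuousOn_sec, cont_fl, cont_pt.  c1: desc along the map w ↦ w * w of the compact set Sp m (put the sphere coordinate first), where pu1 is given by pu1_cs.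
eq1, eq2: θ = cs t (B.exists_cs), loop_ext, shc, sec_sh, cs_cs, fl_add, cl_rot; cs t = Circle.exp (2 * t).  mem: dd_r_left, dd_r_right, Sm.lip.  Every w is rt w * rt w.
exp2: ContinuousMap.norm_le, cl_of_le, pt_lin at fl (2 s) z, dbc.
-/

set_option maxSynthPendingDepth 3
set_option linter.unusedSectionVars false

open Set Filter Topology MeasureTheory
open scoped ContDiff

noncomputable section
namespace Pool.Agent.Work.MP_8c604c_gt.O

open OT Real Model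
open T (RN cs)
open B (mkL mkL_per continuousOn_mkL loop_ext desc desc₀)

variable {E : Type} [NormedAddCommGroup E] [InnerProductSpace ℝ E] [FiniteDimensional ℝ E] {d : ℕ}
  {μ : Model E d} {g : Met E} {m : ℕ} {G : Geo μ g}

theorem PuM_sqe (t : ℝ) (w : CM m) :
    ((Circle.exp t : ℂ) • w) * ((Circle.exp t : ℂ) • w) = (cs t : ℂ) • (w * w) := by
  rw [smul_mul_smul_comm, ← Circle.coe_mul, ← Circle.exp_add, ← two_mul, cs_exp]

theorem PuM_fl0 {N N' : ℕ} (ε t : ℝ) (x : (E × E) × CM m) (a : RN N) :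
    G.fl t (x, cl ε ((a, 0) : FB N N')) = (G.f2 t x, cl ε (a, 0)) := by
  simp [Geo.fl, cl, rot]

theorem PuM_cl0 {N N' : ℕ} (ε : ℝ) (a : RN N) :
    ∃ b, cl ε ((a, 0) : FB N N') = (b, 0) := ⟨_, Prod.ext rfl (smul_zero _)⟩

namespace ND2
variable (D : ND2 G m) (hB : Bl g G) {ε κ : ℝ}

theorem PuM_tot {c : LM E} {w : CM m} {a : RN D.N} (hz : ((c, w * w), a) ∈ tot1 G.SS D.KL) :
    ((c, w), ((a, 0) : FB D.N D.N')) ∈ tot2 G.SS D.KL D.PL :=
  ⟨⟨hz.1.1, sq_mem.1 hz.1.2⟩, hz.2, map_zero _, map_zero _, map_zero _⟩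

theorem PuM_sq {x x' : E × E} {w w' : CM m} {t t' : ℝ} (e1 : G.psi t x = G.psi t' x')
    (e2 : (cs t : ℂ) • (w * w) = (cs t' : ℂ) • (w' * w')) (a : RN D.N) :
    D.pt (G.fl t ((x, w), cl ε (a, 0))) = D.pt (G.fl t' ((x', w'), cl ε (a, 0))) := by
  obtain ⟨b, hb⟩ := PuM_cl0 (N' := D.N') ε a
  rw [PuM_fl0, PuM_fl0, hb, Geo.f2, Geo.f2, e1]
  exact D.pt_sq (by rw [PuM_sqe, PuM_sqe, e2]) b

theorem PuM_pu1 (c : LM E) (w : CM m) (a : RN D.N) : (D.pu1 ε κ ((c, w * w), a)).1 =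
    mkL fun t => μ.r (D.pt (G.fl t ((sec c, w), cl ε (a, 0)))) :=
  congrArg mkL (funext fun t => congrArg μ.r (D.PuM_sq (x := sec c) (x' := sec c)
    (w := rt (w * w)) (w' := w) (t := t) (t' := t) (ε := ε) rfl (by rw [rt_sq]) a))

include hB

theorem PuM_per {c : LM E} (hc : c ∈ G.SS) (w : CM m) (a : RN D.N) :
    Function.Periodic (fun t => μ.r (D.pt (G.fl t ((sec c, w), cl ε (a, 0))))) π := fun t =>
  congrArg μ.r (D.PuM_sq (by rw [← hB.sec_sh _ hc, ← hB.sec_sh _ hc, B.cs_add_pi])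
    (by rw [B.cs_add_pi]) a)

theorem PuM_in {z : (LM E × CM m) × FB D.N D.N'} (hz : z ∈ tot2 G.SS D.KL D.PL) (ε : ℝ) :
    ((sec z.1.1, z.1.2), cl ε z.2) ∈ D.U := D.smul_mem ((D.up_mem hB).1 hz).2 _

theorem PuM_z {x : LM E × CM m} (hx : x ∈ G.SS ×ˢ Sp m) (t : ℝ) :
    μ.r (D.pt (G.fl t ((sec x.1, x.2), cl ε 0))) = x.1 (cs t) := by
  have hu := hB.sec_mem hx.1
  have e : G.fl t ((sec x.1, x.2), cl ε (0 : FB D.N D.N')) = (G.f2 t (sec x.1, x.2), 0) :=
    (PuM_fl0 ε t _ 0).trans (congrArg _ (smul_zero _))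
  have h1 : G.f2 t (sec x.1, x.2) ∈ XT μ g m := (D.fl_mem hB t (z := ((sec x.1, x.2), 0))
    ⟨⟨hu, hx.2⟩, map_zero _, map_zero _, map_zero _, map_zero _⟩).1
  rw [e, D.pt_zero hB h1, hB.SS_cs hx.1]
  exact (G.Z_mem t (UT_OO hu)).2

variable (h : D.Sm ε κ)
include h

theorem PuM_U {z : (LM E × CM m) × FB D.N D.N'} (hz : z ∈ tot2 G.SS D.KL D.PL) (t : ℝ) :
    D.pt (G.fl t ((sec z.1.1, z.1.2), cl ε z.2)) ∈ μ.U :=
  h.mem _ (D.fl_mem hB t (D.PuM_in hB hz ε)) ((nn_fl t _).trans_le (nn_cl_le h.ε0 _))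

theorem PuM_c {P : Type} [TopologicalSpace P] {s : Set P} {τ : P → ℝ}
    {z : P → (LM E × CM m) × FB D.N D.N'} (hτ : Continuous τ) (hz : Continuous z)
    (hm : ∀ p ∈ s, z p ∈ tot2 G.SS D.KL D.PL) : ContinuousOn
      (fun p => μ.r (D.pt (G.fl (τ p) ((sec (z p).1.1, (z p).1.2), cl ε (z p).2)))) s := by
  have h1 : ContinuousOn (fun p => (τ p, (sec (z p).1.1, (z p).1.2), cl ε (z p).2)) s :=
    hτ.continuousOn.prodMk (((hB.continuousOn_sec.comp hz.fst.fst.continuousOn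
      fun p hp => (hm p hp).1.1).prodMk hz.fst.snd.continuousOn).prodMk
        ((continuous_cl h.ε0).comp hz.snd).continuousOn)
  have h2 := (D.cont_fl hB).comp h1 fun p hp => ⟨trivial, D.PuM_in hB (hm p hp) ε⟩
  have h3 := (D.cont_pt hB).comp h2 fun p hp => D.fl_mem hB _ (D.PuM_in hB (hm p hp) ε)
  exact μ.smooth.continuousOn.comp h3 fun p hp => D.PuM_U hB h (hm p hp) _

theorem PuM_lip {z : (LM E × CM m) × FB D.N D.N'} (hz : z ∈ tot2 G.SS D.KL D.PL) (s t : ℝ) :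
    dd μ g (μ.r (D.pt (G.fl s ((sec z.1.1, z.1.2), cl ε z.2))))
      (μ.r (D.pt (G.fl t ((sec z.1.1, z.1.2), cl ε z.2)))) ≤
        (1 - κ * nn (cl ε z.2) ^ 2) * |s - t| := by
  rw [dd_r_left (D.PuM_U hB h hz s), dd_r_right _ (D.PuM_U hB h hz t)]
  exact h.lip _ (D.PuM_in hB hz ε) (nn_cl_le h.ε0 _) s t

omit hB in
theorem PuM_b (v : FB D.N D.N') : 0 ≤ κ * nn (cl ε v) ^ 2 ∧ κ * nn (cl ε v) ^ 2 ≤ 1 :=
  ⟨mul_nonneg h.κ0.le (sq_nonneg _), (mul_le_mul_of_nonneg_left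
    (pow_le_pow_left₀ (nn_nonneg _) (nn_cl_le h.ε0 v) 2) h.κ0.le).trans h.le⟩

omit hB in
theorem PuM_pos {v : FB D.N D.N'} (h0 : v ≠ 0) : 0 < κ * nn (cl ε v) ^ 2 :=
  mul_pos h.κ0 (pow_pos (nn_pos (cl_ne h.ε0 h0)) 2)

theorem pu2_cs {z : (LM E × CM m) × FB D.N D.N'} (hz : z ∈ tot2 G.SS D.KL D.PL) (s : ℝ) :
    (D.pu2 ε κ z).1 (cs s) = μ.r (D.pt (G.fl (2 * s) ((sec z.1.1, z.1.2), cl ε z.2))) := by
  refine mkL_per (c := fun s => μ.r (D.pt (G.fl (2 * s) ((sec z.1.1, z.1.2), cl ε z.2))))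
    (D.PuM_c hB h (z := fun _ => z) (by fun_prop) continuous_const fun _ _ => hz) (fun t => ?_) s
  simp only [mul_add, D.fl_per hB _ (D.PuM_in hB hz ε)]

theorem pu1_cs {c : LM E} {w : CM m} {a : RN D.N} (hz : ((c, w * w), a) ∈ tot1 G.SS D.KL) (t : ℝ) :
    (D.pu1 ε κ ((c, w * w), a)).1 (cs t) = μ.r (D.pt (G.fl t ((sec c, w), cl ε (a, 0)))) := by
  rw [D.PuM_pu1]
  exact mkL_per (D.PuM_c hB h (z := fun _ => ((c, w), a, 0)) continuous_id continuous_const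
    fun _ _ => D.PuM_tot hz) (D.PuM_per hB hz.1.1 w a) t

theorem c1 : ContinuousOn (D.pu1 ε κ) (tot1 G.SS D.KL) := by
  have h1 := desc (K := Sp m) (isCompact_sphere 0 1) (q := fun w => w * w) (by fun_prop)
    (s := {y : CM m × LM E × RN D.N | ((y.2.1, y.1), y.2.2) ∈ tot1 G.SS D.KL})
    (fun y hy => ⟨rt y.1, sq_mem.1 ((rt_sq y.1).symm ▸ hy.1.2), rt_sq _⟩)
    (f := fun y => (D.pu1 ε κ ((y.2.1, y.1), y.2.2)).1) (by
      simp only [D.PuM_pu1]
      exact continuousOn_mkL (F := fun p : (CM m × LM E × RN D.N) × ℝ =>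
        μ.r (D.pt (G.fl p.2 ((sec p.1.2.1, p.1.1), cl ε (p.1.2.2, 0)))))
        (D.PuM_c hB h (z := fun p : (CM m × LM E × RN D.N) × ℝ => ((p.1.2.1, p.1.1), p.1.2.2, 0))
          continuous_snd (by fun_prop) fun p hp => D.PuM_tot hp.1.2)
        fun p hp => (D.PuM_per hB hp.2.1.1 p.1 p.2.2).eq.symm)
  refine ContinuousOn.prodMk (h1.comp (f := fun z : (LM E × CM m) × RN D.N => (z.1.2, z.1.1, z.2))
    (by fun_prop) fun z hz => hz) (Continuous.continuousOn ?_)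
  exact continuous_const.sub (continuous_const.mul ((continuous_nn.comp
    ((continuous_cl h.ε0).comp (continuous_snd.prodMk continuous_const))).pow 2))

theorem mem1 : MapsTo (D.pu1 ε κ) (tot1 G.SS D.KL) (Lam0 μ g) := by
  rintro ⟨⟨c, w⟩, a⟩ hz
  rw [← rt_sq w] at hz ⊢
  have hb := D.PuM_b h (a, 0)
  refine ⟨fun θ => ?_, ⟨sub_nonneg.2 hb.2, (sub_le_self _ hb.1).trans one_le_two⟩, fun s t => ?_⟩
  · obtain ⟨t, -, rfl⟩ := B.exists_cs θ
    rw [D.pu1_cs hB h hz]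
    exact r_mem (D.PuM_U hB h (D.PuM_tot hz) t)
  · rw [D.pu1_cs hB h hz, D.pu1_cs hB h hz]
    exact D.PuM_lip hB h (D.PuM_tot hz) s t

theorem zero1 {x : LM E × CM m} (hx : x ∈ G.SS ×ˢ Sp m) : D.pu1 ε κ (x, 0) = (x.1, 1) := by
  obtain ⟨c, w⟩ := x
  rw [← rt_sq w] at hx ⊢
  refine Prod.ext (loop_ext fun t _ => ?_) ?_
  · rw [D.pu1_cs hB h ⟨hx, map_zero _⟩]
    exact D.PuM_z hB (x := (c, rt w)) ⟨hx.1, sq_mem.1 hx.2⟩ t
  · change 1 - κ * nn (cl ε (0 : FB D.N D.N')) ^ 2 = 1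
    simp [cl, nn_zero]

theorem lt1 {z : (LM E × CM m) × RN D.N} (h0 : z.2 ≠ 0) : (D.pu1 ε κ z).2 < 1 :=
  sub_lt_self _ (D.PuM_pos h fun e => h0 (congrArg Prod.fst e))

theorem eq1 (θ : Circle) {z : (LM E × CM m) × RN D.N} (hz : z ∈ tot1 G.SS D.KL) :
    D.pu1 ε κ ((sh θ z.1.1, (θ : ℂ) • z.1.2), z.2) = (sh θ (D.pu1 ε κ z).1, (D.pu1 ε κ z).2) := by
  obtain ⟨t, -, rfl⟩ := B.exists_cs θ
  have hz' : ((sh (cs t) z.1.1, (cs t : ℂ) • z.1.2), z.2) ∈ tot1 G.SS D.KL :=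
    ⟨⟨hB.sh_mem _ hz.1.1, mem_sphere_zero_iff_norm.2 (by
      rw [norm_smul, Circle.norm_coe, one_mul, mem_sphere_zero_iff_norm.1 hz.1.2])⟩,
      by rw [D.invKL hB _ hz.1]; exact hz.2⟩
  obtain ⟨⟨c, w⟩, a⟩ := z
  rw [← rt_sq w] at hz hz' ⊢
  simp only [← PuM_sqe] at hz' ⊢
  refine Prod.ext (loop_ext fun s _ => ?_) rfl
  rw [D.pu1_cs hB h hz', shc, D.pu1_cs hB h hz, D.fl_add hB s t (D.PuM_in hB (D.PuM_tot hz) ε),
    PuM_fl0 ε t, hB.sec_sh t hz.1.1]
  rfl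

theorem c2 : ContinuousOn (D.pu2 ε κ) (tot2 G.SS D.KL D.PL) := by
  refine ContinuousOn.prodMk (continuousOn_mkL (F := fun p : ((LM E × CM m) × FB D.N D.N') × ℝ =>
    μ.r (D.pt (G.fl (2 * p.2) ((sec p.1.1.1, p.1.1.2), cl ε p.1.2))))
    (D.PuM_c hB h (by fun_prop) continuous_fst fun p hp => hp.1) fun p hp => ?_)
    (Continuous.continuousOn ?_)
  · simp only [mul_zero]
    rw [← D.fl_per hB 0 (D.PuM_in hB hp ε), zero_add]
  · exact continuous_const.mul (continuous_const.sub (continuous_const.mul ((continuous_nn.comp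
      ((continuous_cl h.ε0).comp continuous_snd)).pow 2)))

theorem mem2 : MapsTo (D.pu2 ε κ) (tot2 G.SS D.KL D.PL) (Lam0 μ g) := by
  intro z hz
  have hb := D.PuM_b h z.2
  refine ⟨fun θ => ?_, ⟨mul_nonneg zero_le_two (sub_nonneg.2 hb.2),
    mul_le_of_le_one_right zero_le_two (sub_le_self _ hb.1)⟩, fun s t => ?_⟩
  · obtain ⟨t, -, rfl⟩ := B.exists_cs θ
    rw [D.pu2_cs hB h hz]
    exact r_mem (D.PuM_U hB h hz _)
  · rw [D.pu2_cs hB h hz, D.pu2_cs hB h hz]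
    refine (D.PuM_lip hB h hz _ _).trans_eq ?_
    rw [← mul_sub, abs_mul, abs_two, ← mul_assoc, mul_comm _ 2]
    rfl

theorem zero2 {x : LM E × CM m} (hx : x ∈ G.SS ×ˢ Sp m) : D.pu2 ε κ (x, 0) = (db x.1, 2) := by
  refine Prod.ext (loop_ext fun t _ => ?_) ?_
  · rw [D.pu2_cs hB h ⟨hx, map_zero _, map_zero _, map_zero _, map_zero _⟩, D.PuM_z hB hx, dbc]
  · change 2 * (1 - κ * nn (cl ε (0 : FB D.N D.N')) ^ 2) = 2
    simp [cl, nn_zero]

theorem lt2 {z : (LM E × CM m) × FB D.N D.N'} (h0 : z.2 ≠ 0) : (D.pu2 ε κ z).2 < 2 :=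
  mul_lt_of_lt_one_right two_pos (sub_lt_self _ (D.PuM_pos h h0))

theorem eq2 (θ : Circle) {z : (LM E × CM m) × FB D.N D.N'} (hz : z ∈ tot2 G.SS D.KL D.PL) :
    D.pu2 ε κ ((sh (θ * θ) z.1.1, (θ : ℂ) • z.1.2), z.2.1, rot θ z.2.2.1, z.2.2.2) =
      (sh θ (D.pu2 ε κ z).1, (D.pu2 ε κ z).2) := by
  obtain ⟨t, -, rfl⟩ := B.exists_cs θ
  have h1 := D.fl_mem hB (2 * t) ((D.up_mem hB).1 hz).2
  have hz' : ((sh (cs t * cs t) z.1.1, (cs t : ℂ) • z.1.2), z.2.1, rot (cs t) z.2.2.1, z.2.2.2) ∈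
      tot2 G.SS D.KL D.PL := (D.up_mem hB).2 ⟨⟨hB.sh_mem _ hz.1.1, h1.1.2⟩, by
    rw [cs_cs, hB.sec_sh _ hz.1.1]
    exact h1⟩
  refine Prod.ext (loop_ext fun s _ => ?_) ?_
  · rw [D.pu2_cs hB h hz', shc, D.pu2_cs hB h hz, mul_add, D.fl_add hB _ _ (D.PuM_in hB hz ε),
      cs_cs, hB.sec_sh _ hz.1.1, cl_rot]
    rfl
  · simp only [pu2, cl_rot, nn_rot]

theorem one {x : LM E × CM m} (hx : x ∈ G.SS ×ˢ Sp m) {a : RN D.N} (ha : D.KL (x.1, x.2 * x.2) a = a) :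
    D.pu2 ε κ (x, a, 0) =
      (db (D.pu1 ε κ ((x.1, x.2 * x.2), a)).1, 2 * (D.pu1 ε κ ((x.1, x.2 * x.2), a)).2) :=
  Prod.ext (loop_ext fun s _ => by
    have hz : ((x.1, x.2 * x.2), a) ∈ tot1 G.SS D.KL := ⟨⟨hx.1, sq_mem.2 hx.2⟩, ha⟩
    rw [D.pu2_cs hB h (D.PuM_tot hz), dbc, D.pu1_cs hB h hz]) rfl

theorem exp2 {XL : LM E × CM m → FB D.N D.N' →L[ℝ] LM E} (hX : D.IsXL XL) {x : LM E × CM m}
    {η : ℝ} (hη : 0 < η) : ∃ δ : ℝ, 0 < δ ∧ ∀ v, (x, v) ∈ tot2 G.SS D.KL D.PL → ‖v‖ < δ →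
      ‖(D.pu2 ε κ (x, v)).1 - db x.1 - XL x v‖ ≤ η * ‖v‖ := by
  obtain ⟨δ, h0, h1⟩ := D.pt_lin hB (half_pos hη)
  refine ⟨min δ ε / 2, half_pos (lt_min h0 h.ε0), fun v hz hv => ?_⟩
  have h2 := nn_le v
  have h3 : nn v < min δ ε := by linarith
  obtain ⟨hx, hU⟩ := (D.up_mem hB).1 hz
  obtain ⟨v', -, e, h4⟩ := hX x hx v
  obtain rfl := e hU
  refine (ContinuousMap.norm_le _ (by positivity)).2 fun θ => ?_
  obtain ⟨s, -, rfl⟩ := B.exists_cs θ
  rw [ContinuousMap.sub_apply, ContinuousMap.sub_apply, D.pu2_cs hB h hz, dbc, h4, hB.SS_cs hx.1,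
    cl_of_le h.ε0 (h3.le.trans (min_le_right _ _))]
  refine (h1 _ (D.fl_mem hB _ hU) ((nn_fl _ _).trans_lt (h3.trans_le (min_le_left _ _)))).trans ?_
  rw [nn_fl]
  linarith only [hη, h2, mul_nonneg_of_nonpos_of_nonpos (le_of_lt (Mathlib.Tactic.Linarith.sub_neg_of_lt hη)) (Mathlib.Tactic.Linarith.sub_nonpos_of_le h2)]

end ND2

end Pool.Agent.Work.MP_8c604c_gt.O
end
end
end
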